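import Pool.Agent.Run7.h310.SP.B6

set_option autoImplicit false

/-! # Project SP: the resonant coefficients -/

namespace Run7.h310.SP

open Finset Filter MeasureTheory Topology Complex
open Pool.Agent.N748.MG

lemma res_eq {k α : ℝ} (hα : 0 < α) {j : ℤ} {a b : ℕ} (ha : 1 ≤ a) (hb : 1 ≤ b) (hab : Nat.Coprime a b)
    (h : α * (Real.log b - Real.log a) = 2 * Real.pi * j) : res k α j = tw k a b := by
  classical
  have hex : ∃ q : ℕ × ℕ, 1 ≤ q.1 ∧ 1 ≤ q.2 ∧ Nat.Coprime q.1 q.2 ∧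
    α * (Real.log q.2 - Real.log q.1) = 2 * Real.pi * j := ⟨(a, b), ha, hb, hab, h⟩
  unfold res
  rw [dif_pos hex]
  obtain ⟨g1, g2, g3, g4⟩ := hex.choose_spec
  obtain ⟨a', ha'⟩ : ∃ a', a' = hex.choose.1 := ⟨_, rfl⟩
  obtain ⟨b', hb'⟩ : ∃ b', b' = hex.choose.2 := ⟨_, rfl⟩
  rw [← ha'] at g1 g3 g4 ⊢
  rw [← hb'] at g2 g3 g4 ⊢
  have haR : (0:ℝ) < a := by exact_mod_cast ha
  have hbR : (0:ℝ) < b := by exact_mod_cast hb
  have ha'R : (0:ℝ) < a' := by exact_mod_cast g1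
  have hb'R : (0:ℝ) < b' := by exact_mod_cast g2
  have h1 : Real.log b - Real.log a = Real.log b' - Real.log a' := by
    have : α * (Real.log b - Real.log a) = α * (Real.log b' - Real.log a') := by rw [h, g4]
    exact mul_left_cancel₀ hα.ne' this
  have h2 : Real.log ((b * a' : ℕ) : ℝ) = Real.log ((b' * a : ℕ) : ℝ) := by
    push_cast
    rw [Real.log_mul hbR.ne' ha'R.ne', Real.log_mul hb'R.ne' haR.ne']
    linarith
  have h3 : ((b * a' : ℕ) : ℝ) = ((b' * a : ℕ) : ℝ) :=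
    Real.log_injOn_pos (Set.mem_Ioi.2 (by positivity)) (Set.mem_Ioi.2 (by positivity)) h2
  have h4 : b * a' = b' * a := by exact_mod_cast h3
  have d1 : a ∣ a' := by
    have : a ∣ b * a' := by rw [h4]; exact dvd_mul_left _ _
    exact hab.dvd_of_dvd_mul_left this
  have d2 : a' ∣ a := by
    have : a' ∣ b' * a := by rw [← h4]; exact dvd_mul_left _ _
    exact g3.dvd_of_dvd_mul_left this
  have e1 : a' = a := Nat.dvd_antisymm d2 d1
  have e2 : b' = b := by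
    rw [e1] at h4
    exact (Nat.eq_of_mul_eq_mul_right ha h4).symm
  rw [e1, e2]

/-- the bounds for the limits of the twisted sums -/
lemma tw_bounds {k : ℝ} (hk : 0 < k) {a b : ℕ} (ha : 1 ≤ a) (hb : 1 ≤ b) (hab : Nat.Coprime a b) :
    0 ≤ tw k a b ∧ tw k a b ≤ eM k a * eM k b := by
  have h1 := t_tdl k hk a b ha hb hab
  have hev : ∀ᶠ δ : ℝ in 𝓝[>] 0, 0 < δ := self_mem_nhdsWithin
  constructor
  · refine ge_of_tendsto h1 ?_
    filter_upwards [hev] with δ hδ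
    obtain ⟨-, t1, t2, t3, -⟩ := t_tdb k δ hk hδ a b ha hb
    positivity
  · refine le_of_tendsto h1 ?_
    filter_upwards [hev] with δ hδ
    obtain ⟨-, t1, t2, t3, -⟩ := t_tdb k δ hk hδ a b ha hb
    rw [div_le_iff₀ t1]
    exact t3

lemma res_bound {k : ℝ} (hk : 0 < k) {α : ℝ} (hα : 0 < α) : ∃ C : ℝ, 0 < C ∧ ∀ j : ℤ, 0 ≤ res k α j ∧
    res k α j ≤ C * Real.exp (-(Real.pi / (2 * α) * |(j:ℝ)|)) := by
  classical
  obtain ⟨C, hC, hCe⟩ := t_emb k hk
  refine ⟨C ^ 2 * Real.exp (1 / 4), by positivity, fun j => ?_⟩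
  by_cases h : ∃ q : ℕ × ℕ, 1 ≤ q.1 ∧ 1 ≤ q.2 ∧ Nat.Coprime q.1 q.2 ∧
    α * (Real.log q.2 - Real.log q.1) = 2 * Real.pi * j
  · obtain ⟨⟨a, b⟩, ha, hb, hab, hj⟩ := h
    simp only at ha hb hab hj
    rw [res_eq hα ha hb hab hj]
    obtain ⟨t1, t2⟩ := tw_bounds hk ha hb hab
    refine ⟨t1, t2.trans ?_⟩
    have haR : (0:ℝ) < a := by exact_mod_cast ha
    have hbR : (0:ℝ) < b := by exact_mod_cast hb
    have u1 := hCe a ha
    have u2 := hCe b hb
    have u3 : 0 ≤ eM k b := eM_nonneg hk b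
    have h5 := ab_bound hα le_rfl ha hb j (by rw [hj, sub_self, abs_zero]; exact hα)
    push_cast at h5
    rw [Real.mul_rpow haR.le hbR.le] at h5
    calc eM k a * eM k b ≤ (C * (a:ℝ) ^ (-(1 / 4 : ℝ))) * (C * (b:ℝ) ^ (-(1 / 4 : ℝ))) :=
          mul_le_mul u1 u2 u3 (by positivity)
      _ = C ^ 2 * ((a:ℝ) ^ (-(1 / 4 : ℝ)) * (b:ℝ) ^ (-(1 / 4 : ℝ))) := by ring
      _ ≤ C ^ 2 * (Real.exp (1 / 4) * Real.exp (-(Real.pi / (2 * α) * |(j:ℝ)|))) :=
          mul_le_mul_of_nonneg_left h5 (by positivity)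
      _ = _ := by ring
  · have hres : res k α j = 0 := by
      unfold res
      rw [dif_neg h]
    rw [hres]
    exact ⟨le_rfl, by positivity⟩

lemma res_summable {k : ℝ} (hk : 0 < k) {α : ℝ} (hα : 0 < α) (β : ℝ) :
    Summable fun j : ℤ => res k α j * Real.cos (2 * Real.pi * j * β / α) := by
  obtain ⟨C, hC, h⟩ := res_bound hk hα
  refine Summable.of_norm_bounded ((exp_abs_summable (div_pos Real.pi_pos (by linarith : 0 < 2 * α))).mul_left C) fun j => ?_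
  rw [Real.norm_eq_abs, abs_mul, abs_of_nonneg (h j).1]
  exact (mul_le_of_le_one_right (h j).1 (Real.abs_cos_le_one _)).trans (h j).2

lemma res_zero {k α : ℝ} (hα : 0 < α) : res k α 0 = 1 := by
  rw [res_eq hα (a := 1) (b := 1) le_rfl le_rfl (Nat.coprime_one_left 1) (by simp)]
  unfold tw
  simp

end Run7.h310.SP
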