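import Pool.Agent.Run7.h310.SP.B8
import Pool.Agent.Run7.h310.SP.B9
import Pool.Agent.N748.MG.Res
import Pool.Agent.Run7.h701.SP_RED
import Pool.Agent.Run7.h270.SP.SUM

set_option autoImplicit false

/-! # Project SP: the closed theorems -/

namespace Run7.h310.SP

open Finset Filter MeasureTheory Topology Complex
open Pool.Agent.N748.MG

theorem nicF : S_NIC := NIC.main Inp.zm2 Inp.xsa Inp.mea

theorem twrF : S_TWR := t_twr nicF

theorem redF : S_RED := Run7.h701.SP.t_RED Run7.h270.SP.t_SUM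

/-- the local factor in terms of powers of `p` -/
lemma LF_zero_eq (k : ℝ) {p : ℕ} (hp : 1 ≤ p) (u v : ℕ) : LF k 0 p u v =
    ∑' m : ℕ, (∏ i ∈ range (m + u), (k + i) / ((i : ℝ) + 1)) * (∏ i ∈ range (m + v), (k + i) / ((i : ℝ) + 1)) *
      (p : ℝ) ^ (-((2 * m + u + v : ℕ) : ℝ) / 2) := by
  unfold LF
  refine tsum_congr fun m => ?_
  have hp0 : (0:ℝ) < p := by exact_mod_cast hp
  have h1 : wN 0 (p ^ (m + u)) * wN 0 (p ^ (m + v)) = (p : ℝ) ^ (-((2 * m + u + v : ℕ) : ℝ) / 2) := by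
    unfold wN
    push_cast
    rw [← Real.rpow_natCast, ← Real.rpow_natCast, ← Real.rpow_mul hp0.le, ← Real.rpow_mul hp0.le, ← Real.rpow_add hp0]
    congr 1
    push_cast
    ring
  rw [h1]
  rfl

end Run7.h310.SP
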