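import Pool.Agent.Run7.h310.SP.A6

set_option autoImplicit false

/-! # Project SP: the law of the phases of the primes in the moment measures -/

namespace Run7.h310.SP

open Finset Filter MeasureTheory Topology Complex
open Pool.Agent.N748.MG

/-- the point of the torus with the coordinates `p^(it)` -/
noncomputable def thP (P : Finset ℕ) (t : ℝ) : UnitAddTorus P :=
  fun p => ((t * Real.log (p : ℕ) / (2 * Real.pi) : ℝ) : UnitAddCircle)

lemma thP_cont (P : Finset ℕ) : Continuous (thP P) := by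
  unfold thP
  refine continuous_pi fun p => ?_
  exact (AddCircle.continuous_mk' (1:ℝ)).comp (by fun_prop)

/-- the numerator and the denominator of a monomial -/
noncomputable def nuP (P : Finset ℕ) (n : P → ℤ) : ℕ := ∏ p : P, (p : ℕ) ^ (n p).toNat

lemma nuP_pos {P : Finset ℕ} (hP : ∀ p ∈ P, p.Prime) (n : P → ℤ) : 1 ≤ nuP P n :=
  Finset.prod_pos fun (p : P) _ => pow_pos (hP p p.2).pos _

lemma log_nuP {P : Finset ℕ} (hP : ∀ p ∈ P, p.Prime) (n : P → ℤ) :
    Real.log (nuP P n) = ∑ p : P, ((n p).toNat : ℝ) * Real.log (p : ℕ) := by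
  unfold nuP
  push_cast
  rw [Real.log_prod fun (p : P) _ => pow_ne_zero _ (by exact_mod_cast (hP p p.2).ne_zero)]
  refine Finset.sum_congr rfl fun p _ => ?_
  rw [Real.log_pow]

/-- the monomials at the phases -/
lemma mono {P : Finset ℕ} (hP : ∀ p ∈ P, p.Prime) (n : P → ℤ) (t : ℝ) :
    UnitAddTorus.mFourier n (thP P t) = ph (nuP P n) (nuP P (-n)) t := by
  have h1 : ∀ p : P, (fourier (n p) (thP P t p) : ℂ) = exp ((t * ((n p : ℝ) * Real.log (p : ℕ)) : ℝ) * I) := by
    intro p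
    unfold thP
    rw [fourier_coe_apply]
    congr 1
    have hπ : (Real.pi : ℂ) ≠ 0 := by exact_mod_cast Real.pi_ne_zero
    push_cast
    field_simp
  unfold ph
  have h2 : UnitAddTorus.mFourier n (thP P t) = ∏ p : P, (fourier (n p) (thP P t p) : ℂ) := rfl
  rw [h2, Finset.prod_congr rfl fun p _ => h1 p, ← Complex.exp_sum]
  congr 1
  rw [log_nuP hP, log_nuP hP, ← Finset.sum_sub_distrib, Finset.mul_sum, Complex.ofReal_sum, Finset.sum_mul]
  refine Finset.sum_congr rfl fun p _ => ?_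
  congr 2
  have h3 : ((n p : ℤ) : ℝ) = ((n p).toNat : ℝ) - ((-(n p)).toNat : ℝ) := by
    have : (n p : ℤ) = ((n p).toNat : ℤ) - ((-(n p)).toNat : ℤ) := by omega
    calc ((n p : ℤ) : ℝ) = ((((n p).toNat : ℤ) - ((-(n p)).toNat : ℤ) : ℤ) : ℝ) := by rw [← this]
      _ = _ := by push_cast; rfl
  rw [h3]
  simp only [Pi.neg_apply]
  ring

lemma nuP_fact {P : Finset ℕ} (hP : ∀ p ∈ P, p.Prime) (n : P → ℤ) (q : P) :
    (nuP P n).factorization q = (n q).toNat := by
  unfold nuP
  rw [Nat.factorization_prod fun (p : P) _ => pow_ne_zero _ (hP p p.2).ne_zero]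
  rw [Finsupp.finsetSum_apply, Finset.sum_eq_single q]
  · rw [(hP q q.2).factorization_pow, Finsupp.single_eq_same]
  · intro p _ hpq
    rw [(hP p p.2).factorization_pow, Finsupp.single_eq_of_ne]
    intro h
    exact hpq (Subtype.ext h.symm)
  · intro h
    exact absurd (Finset.mem_univ q) h

lemma nuP_coprime {P : Finset ℕ} (hP : ∀ p ∈ P, p.Prime) (n : P → ℤ) : Nat.Coprime (nuP P n) (nuP P (-n)) := by
  unfold nuP
  refine Nat.Coprime.prod_left fun p _ => Nat.Coprime.prod_right fun q _ => ?_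
  by_cases h : p = q
  · subst h
    rcases le_or_gt 0 (n p) with h0 | h0
    · have : ((-n) p).toNat = 0 := by simp only [Pi.neg_apply]; omega
      rw [this, pow_zero]
      exact Nat.coprime_one_right _
    · have : (n p).toNat = 0 := by omega
      rw [this, pow_zero]
      exact Nat.coprime_one_left _
  · refine Nat.Coprime.pow _ _ ((Nat.coprime_primes (hP p p.2) (hP q q.2)).2 fun h0 => h (Subtype.ext h0))

lemma nuP_primes {P : Finset ℕ} (hP : ∀ p ∈ P, p.Prime) (n : P → ℤ) : (nuP P n * nuP P (-n)).primeFactors ⊆ P := by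
  intro q hq
  have hqp := Nat.prime_of_mem_primeFactors hq
  have hd := Nat.dvd_of_mem_primeFactors hq
  have key : ∀ m : P → ℤ, q ∣ nuP P m → q ∈ P := by
    intro m hm
    unfold nuP at hm
    obtain ⟨p, _, hp⟩ := (Prime.dvd_finsetProd_iff hqp.prime _).1 hm
    have := hqp.dvd_of_dvd_pow hp
    rw [(Nat.prime_dvd_prime_iff_eq hqp (hP p p.2)).1 this]
    exact p.2
  rcases (Nat.Prime.dvd_mul hqp).1 hd with h | h
  · exact key n h
  · exact key (-n) h

/-- the twist factor of a monomial -/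
lemma tw_mono {k : ℝ} (hk : 0 < k) {P : Finset ℕ} (hP : ∀ p ∈ P, p.Prime) (n : P → ℤ) :
    tw k (nuP P n) (nuP P (-n)) = ∏ p : P, LF k 0 p (n p).toNat (-(n p)).toNat / LF k 0 p 0 0 := by
  unfold tw
  rw [Finset.prod_subset (nuP_primes hP n)]
  · rw [← Finset.prod_coe_sort P fun p => LF k 0 p ((nuP P n).factorization p) ((nuP P (-n)).factorization p) / LF k 0 p 0 0]
    refine Finset.prod_congr rfl fun p _ => ?_
    rw [nuP_fact hP, nuP_fact hP]
    rfl
  · intro p hp hp2
    have hpp := hP p hp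
    have h0 : ¬ p ∣ nuP P n * nuP P (-n) := by
      intro hd
      exact hp2 (Nat.mem_primeFactors.2 ⟨hpp, hd, (Nat.mul_pos (nuP_pos hP n) (nuP_pos hP (-n))).ne'⟩)
    have h1 : (nuP P n).factorization p = 0 :=
      Nat.factorization_eq_zero_of_not_dvd fun hd => h0 (hd.mul_right _)
    have h2 : (nuP P (-n)).factorization p = 0 :=
      Nat.factorization_eq_zero_of_not_dvd fun hd => h0 (hd.mul_left _)
    rw [h1, h2]
    exact div_self (LF_pos hk hpp).ne'

/-- the Haar measure of the torus -/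
noncomputable def hT (P : Finset ℕ) : Measure (UnitAddTorus P) :=
  Measure.pi fun _ : P => (AddCircle.haarAddCircle : Measure UnitAddCircle)

instance (P : Finset ℕ) : IsProbabilityMeasure (hT P) := by
  unfold hT
  infer_instance

/-- the density of the limit law -/
noncomputable def dens (k : ℝ) (P : Finset ℕ) (x : UnitAddTorus P) : ℝ := ∏ p : P, rho k p (x p) / LF k 0 p 0 0

lemma dens_cont {k : ℝ} {P : Finset ℕ} (hP : ∀ p ∈ P, p.Prime) : Continuous (dens k P) := by
  unfold dens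
  refine continuous_finsetProd _ fun p _ => ?_
  exact ((rho_cont k (hP p p.2).two_le).comp (continuous_apply p)).div_const _

lemma dens_nonneg {k : ℝ} (hk : 0 < k) {P : Finset ℕ} (hP : ∀ p ∈ P, p.Prime) (x : UnitAddTorus P) : 0 ≤ dens k P x := by
  unfold dens
  exact Finset.prod_nonneg fun p _ => div_nonneg (rho_nonneg _ _ _) (LF_pos hk (hP p p.2)).le

lemma int_dens {k : ℝ} (hk : 0 < k) {P : Finset ℕ} (hP : ∀ p ∈ P, p.Prime) (n : P → ℤ) :
    ∫ x, UnitAddTorus.mFourier n x * ((dens k P x : ℝ) : ℂ) ∂(hT P) = ((tw k (nuP P n) (nuP P (-n)) : ℝ) : ℂ) := by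
  have h1 : ∀ x : UnitAddTorus P, UnitAddTorus.mFourier n x * ((dens k P x : ℝ) : ℂ) =
      ∏ p : P, ((fourier (n p) (x p) : ℂ) * (((rho k p (x p) : ℝ) : ℂ) / ((LF k 0 p 0 0 : ℝ) : ℂ))) := by
    intro x
    have h2 : UnitAddTorus.mFourier n x = ∏ p : P, (fourier (n p) (x p) : ℂ) := rfl
    rw [h2]
    unfold dens
    push_cast
    rw [← Finset.prod_mul_distrib]
  simp only [h1]
  unfold hT
  rw [integral_fintype_prod_eq_prod (fun (p : P) (x : UnitAddCircle) =>
    (fourier (n p) x : ℂ) * (((rho k p x : ℝ) : ℂ) / ((LF k 0 p 0 0 : ℝ) : ℂ)))]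
  rw [tw_mono hk hP]
  push_cast
  refine Finset.prod_congr rfl fun p _ => ?_
  have h2 : ∀ x : UnitAddCircle, (fourier (n p) x : ℂ) * (((rho k p x : ℝ) : ℂ) / ((LF k 0 p 0 0 : ℝ) : ℂ)) =
      ((fourier (n p) x : ℂ) * ((rho k p x : ℝ) : ℂ)) * ((LF k 0 p 0 0 : ℝ) : ℂ)⁻¹ := by
    intro x
    rw [div_eq_mul_inv, mul_assoc]
  simp only [h2]
  rw [integral_mul_const, int_rho hk (hP p p.2).two_le, div_eq_mul_inv]

lemma int_dens_one {k : ℝ} (hk : 0 < k) {P : Finset ℕ} (hP : ∀ p ∈ P, p.Prime) : ∫ x, dens k P x ∂(hT P) = 1 := by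
  have h := int_dens hk hP 0
  rw [UnitAddTorus.mFourier_zero] at h
  simp only [ContinuousMap.one_apply, one_mul] at h
  rw [integral_complex_ofReal] at h
  have h2 : tw k (nuP P 0) (nuP P (-0)) = 1 := by
    have : nuP P 0 = 1 := by unfold nuP; simp
    rw [neg_zero, this]
    unfold tw
    simp
  rw [h2] at h
  exact_mod_cast h

/-- the twisted integral against a function of the phases -/
noncomputable def MF (k c δ T : ℝ) (P : Finset ℕ) (F : UnitAddTorus P → ℂ) : ℂ :=
  ((1 / T : ℝ) : ℂ) * ∫ t in {t : ℝ | t ∈ Set.Icc 0 T ∧ mz δ t ≤ c}, ((mz δ t ^ (2 * k) : ℝ) : ℂ) * F (thP P t)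

theorem law (h1 : S_TWR) (h2 : S_TM1) (d : ℝ → ℝ) (hd : Ad d) (k V : ℝ) (hk : 0 < k) (hV : k < V) (P : Finset ℕ)
    (hP : ∀ p ∈ P, p.Prime) (F : C(UnitAddTorus P, ℂ)) :
    Tendsto (fun T : ℝ => (((2 * d T) ^ (k ^ 2) : ℝ) : ℂ) * MF k ((2 * d T) ^ (-V)) (d T) T P F) atTop
      (𝓝 (((aC k).re : ℂ) * ∫ x, F x * ((dens k P x : ℝ) : ℂ) ∂(hT P))) := by
  -- notation
  obtain ⟨A, hA⟩ : ∃ A : ℝ → C(UnitAddTorus P, ℂ) → ℂ, A =
    fun (T : ℝ) (F : C(UnitAddTorus P, ℂ)) => (((2 * d T) ^ (k ^ 2) : ℝ) : ℂ) * MF k ((2 * d T) ^ (-V)) (d T) T P F := ⟨_, rfl⟩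
  obtain ⟨Λ, hΛ⟩ : ∃ Λ : C(UnitAddTorus P, ℂ) → ℂ, Λ = fun F => ((aC k).re : ℂ) *
    ∫ x, F x * ((dens k P x : ℝ) : ℂ) ∂(hT P) := ⟨_, rfl⟩
  suffices h : Tendsto (fun T => A T F) atTop (𝓝 (Λ F)) by rw [hA, hΛ] at h; exact h
  obtain ⟨B, hB⟩ : ∃ B : ℝ → ℝ, B = fun T => (2 * d T) ^ (k ^ 2) * ML k ((2 * d T) ^ (-V)) (d T) T := ⟨_, rfl⟩
  have hBl : Tendsto B atTop (𝓝 (aC k).re) := by rw [hB]; exact h2 d hd k V hk hV
  have haC : 0 ≤ (aC k).re := by
    refine ge_of_tendsto hBl ?_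
    filter_upwards [hd.pos, eventually_ge_atTop 0] with T a1 a2
    rw [hB]
    simp only
    unfold ML
    refine mul_nonneg (Real.rpow_nonneg (by linarith) _) (mul_nonneg (by positivity) ?_)
    exact integral_nonneg fun t => Real.rpow_nonneg (norm_nonneg _) _
  -- integrability
  have hlt : ∀ᶠ T in atTop, d T ≤ 1 / 16 := hd.t0.eventually_le_const (by norm_num)
  have hint : ∀ᶠ T in atTop, (IntegrableOn (fun t => mz (d T) t ^ (2 * k)) {t : ℝ | t ∈ Set.Icc 0 T ∧ mz (d T) t ≤ (2 * d T) ^ (-V)}) ∧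
      ∀ F : C(UnitAddTorus P, ℂ), IntegrableOn (fun t => ((mz (d T) t ^ (2 * k) : ℝ) : ℂ) * F (thP P t))
        {t : ℝ | t ∈ Set.Icc 0 T ∧ mz (d T) t ≤ (2 * d T) ^ (-V)} := by
    filter_upwards [hd.pos, hlt] with T a1 a2
    have hm := mz_measurable (show d T < 1 / 2 by linarith)
    have hMm : MeasurableSet {t : ℝ | t ∈ Set.Icc 0 T ∧ mz (d T) t ≤ (2 * d T) ^ (-V)} :=
      measurableSet_Icc.inter (measurableSet_le hm measurable_const)
    have hfin : volume {t : ℝ | t ∈ Set.Icc 0 T ∧ mz (d T) t ≤ (2 * d T) ^ (-V)} < ⊤ :=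
      (measure_mono fun t ht => ht.1).trans_lt (by rw [Real.volume_Icc]; exact ENNReal.ofReal_lt_top)
    have h0 : IntegrableOn (fun t => mz (d T) t ^ (2 * k)) {t : ℝ | t ∈ Set.Icc 0 T ∧ mz (d T) t ≤ (2 * d T) ^ (-V)} := by
      refine Measure.integrableOn_of_bounded (M := ((2 * d T) ^ (-V)) ^ (2 * k)) hfin.ne (hm.pow_const _).aestronglyMeasurable
        ((ae_restrict_iff' hMm).2 (Eventually.of_forall fun t ht => ?_))
      have h00 : 0 ≤ mz (d T) t ^ (2 * k) := Real.rpow_nonneg (norm_nonneg _) _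
      rw [Real.norm_eq_abs, abs_of_nonneg h00]
      exact Real.rpow_le_rpow (norm_nonneg _) ht.2 (by linarith)
    refine ⟨h0, fun F => ?_⟩
    have h3 : IntegrableOn (fun t => ((mz (d T) t ^ (2 * k) : ℝ) : ℂ)) {t : ℝ | t ∈ Set.Icc 0 T ∧ mz (d T) t ≤ (2 * d T) ^ (-V)} :=
      h0.ofReal
    refine h3.mul_bdd (c := ‖F‖) ((F.continuous.comp (thP_cont P)).aestronglyMeasurable) (Eventually.of_forall fun t => ?_)
    exact F.norm_coe_le_norm _
  have hintΛ : ∀ F : C(UnitAddTorus P, ℂ), Integrable (fun x => F x * ((dens k P x : ℝ) : ℂ)) (hT P) := fun F =>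
    Continuous.integrable_of_hasCompactSupport (F.continuous.mul (Complex.continuous_ofReal.comp (dens_cont hP)))
      (HasCompactSupport.of_compactSpace _)
  have hdi : Integrable (fun x => dens k P x) (hT P) :=
    Continuous.integrable_of_hasCompactSupport (dens_cont hP) (HasCompactSupport.of_compactSpace _)
  -- linearity
  have hadd : ∀ F G : C(UnitAddTorus P, ℂ), ∀ᶠ T in atTop, A T (F + G) = A T F + A T G := by
    intro F G
    filter_upwards [hint] with T hi
    rw [hA]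
    simp only
    unfold MF
    rw [← mul_add, ← mul_add, ← integral_add (hi.2 F) (hi.2 G)]
    congr 2
    refine integral_congr_ae (Eventually.of_forall fun t => ?_)
    simp only [ContinuousMap.add_apply]
    ring
  have hsmul : ∀ (c : ℂ) (F : C(UnitAddTorus P, ℂ)), ∀ T, A T (c • F) = c * A T F := by
    intro c F T
    rw [hA]
    simp only
    unfold MF
    have : (∫ t in {t : ℝ | t ∈ Set.Icc 0 T ∧ mz (d T) t ≤ (2 * d T) ^ (-V)}, ((mz (d T) t ^ (2 * k) : ℝ) : ℂ) * (c • F) (thP P t)) =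
        c * ∫ t in {t : ℝ | t ∈ Set.Icc 0 T ∧ mz (d T) t ≤ (2 * d T) ^ (-V)}, ((mz (d T) t ^ (2 * k) : ℝ) : ℂ) * F (thP P t) := by
      rw [← integral_const_mul]
      refine integral_congr_ae (Eventually.of_forall fun t => ?_)
      simp only [ContinuousMap.smul_apply, smul_eq_mul]
      ring
    rw [this]
    ring
  have haddΛ : ∀ F G : C(UnitAddTorus P, ℂ), Λ (F + G) = Λ F + Λ G := by
    intro F G
    rw [hΛ]
    simp only
    rw [← mul_add, ← integral_add (hintΛ F) (hintΛ G)]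
    congr 1
    refine integral_congr_ae (Eventually.of_forall fun t => ?_)
    simp only [ContinuousMap.add_apply]
    ring
  have hsmulΛ : ∀ (c : ℂ) (F : C(UnitAddTorus P, ℂ)), Λ (c • F) = c * Λ F := by
    intro c F
    rw [hΛ]
    simp only
    have : (∫ x, (c • F) x * ((dens k P x : ℝ) : ℂ) ∂(hT P)) = c * ∫ x, F x * ((dens k P x : ℝ) : ℂ) ∂(hT P) := by
      rw [← integral_const_mul]
      refine integral_congr_ae (Eventually.of_forall fun t => ?_)
      simp only [ContinuousMap.smul_apply, smul_eq_mul]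
      ring
    rw [this]
    ring
  -- bounds
  have hbd : ∀ᶠ T in atTop, ∀ F : C(UnitAddTorus P, ℂ), ‖A T F‖ ≤ B T * ‖F‖ := by
    filter_upwards [hint, hd.pos, eventually_gt_atTop 0] with T hi a1 a2 F
    rw [hA, hB]
    simp only
    unfold MF ML
    rw [norm_mul, norm_mul, Complex.norm_real, Complex.norm_real, Real.norm_of_nonneg (Real.rpow_nonneg (by linarith) _),
      Real.norm_of_nonneg (by positivity)]
    rw [mul_assoc, mul_assoc]
    refine mul_le_mul_of_nonneg_left (mul_le_mul_of_nonneg_left ?_ (by positivity)) (Real.rpow_nonneg (by linarith) _)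
    refine (norm_integral_le_integral_norm _).trans ?_
    rw [← integral_mul_const]
    refine integral_mono (hi.2 F).norm (hi.1.mul_const _) fun t => ?_
    simp only [norm_mul, Complex.norm_real, Real.norm_of_nonneg (Real.rpow_nonneg (norm_nonneg _) (2 * k))]
    have h5 : ‖mz (d T) t ^ (2 * k)‖ = mz (d T) t ^ (2 * k) := Real.norm_of_nonneg (Real.rpow_nonneg (norm_nonneg _) _)
    rw [h5]
    exact mul_le_mul_of_nonneg_left (F.norm_coe_le_norm _) (Real.rpow_nonneg (norm_nonneg _) _)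
  have hbdΛ : ∀ F : C(UnitAddTorus P, ℂ), ‖Λ F‖ ≤ (aC k).re * ‖F‖ := by
    intro F
    rw [hΛ]
    simp only
    rw [norm_mul, Complex.norm_real, Real.norm_of_nonneg haC]
    refine mul_le_mul_of_nonneg_left ?_ haC
    refine (norm_integral_le_integral_norm _).trans ?_
    calc ∫ x, ‖F x * ((dens k P x : ℝ) : ℂ)‖ ∂(hT P) ≤ ∫ x, ‖F‖ * dens k P x ∂(hT P) := by
          refine integral_mono (hintΛ F).norm (hdi.const_mul _) fun x => ?_
          simp only [norm_mul, Complex.norm_real, Real.norm_of_nonneg (dens_nonneg hk hP x)]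
          exact mul_le_mul_of_nonneg_right (F.norm_coe_le_norm _) (dens_nonneg hk hP x)
      _ = ‖F‖ := by rw [integral_const_mul, int_dens_one hk hP, mul_one]
  -- the monomials
  have hmono : ∀ n : P → ℤ, Tendsto (fun T => A T (UnitAddTorus.mFourier n)) atTop (𝓝 (Λ (UnitAddTorus.mFourier n))) := by
    intro n
    have h3 := tw_fin h1 h2 d hd k V hk hV (nuP P n) (nuP P (-n)) (nuP_pos hP n) (nuP_pos hP (-n)) (nuP_coprime hP n)
    have e1 : Λ (UnitAddTorus.mFourier n) = (((aC k).re * tw k (nuP P n) (nuP P (-n)) : ℝ) : ℂ) := by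
      rw [hΛ]
      simp only
      rw [int_dens hk hP n]
      push_cast
      rfl
    have e2 : (fun T => A T (UnitAddTorus.mFourier n)) =
        fun T => (((2 * d T) ^ (k ^ 2) : ℝ) : ℂ) * MLt k ((2 * d T) ^ (-V)) (d T) T (nuP P n) (nuP P (-n)) := by
      funext T
      rw [hA]
      simp only
      unfold MF MLt
      simp only [mono hP n]
    rw [e1, e2]
    exact h3
  -- the span
  have hspan : ∀ G ∈ Submodule.span ℂ (Set.range (UnitAddTorus.mFourier (d := P))),
      Tendsto (fun T => A T G) atTop (𝓝 (Λ G)) := by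
    intro G hG
    induction hG using Submodule.span_induction with
    | mem x hx =>
      obtain ⟨n, rfl⟩ := hx
      exact hmono n
    | zero =>
      have e1 : Λ 0 = 0 := by
        rw [hΛ]
        simp
      have e2 : ∀ T, A T 0 = 0 := by
        intro T
        rw [hA]
        simp [MF]
      rw [e1]
      simp only [e2]
      exact tendsto_const_nhds
    | add x y _ _ hx hy =>
      rw [haddΛ]
      refine (hx.add hy).congr' ?_
      filter_upwards [hadd x y] with T hT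
      exact hT.symm
    | smul c x _ hx =>
      rw [hsmulΛ]
      simp only [hsmul]
      exact hx.const_mul c
  -- density
  rw [Metric.tendsto_atTop']
  intro ε hε
  have hmem : F ∈ closure ((Submodule.span ℂ (Set.range (UnitAddTorus.mFourier (d := P))) : Submodule ℂ C(UnitAddTorus P, ℂ)) :
      Set C(UnitAddTorus P, ℂ)) := by
    rw [← Submodule.topologicalClosure_coe, UnitAddTorus.span_mFourier_closure_eq_top]
    trivial
  obtain ⟨G, hG, hFG⟩ := Metric.mem_closure_iff.1 hmem (ε / (2 * (2 * (aC k).re + 2))) (by positivity)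
  have hG2 := hspan G hG
  have hBe : ∀ᶠ T in atTop, B T ≤ (aC k).re + 1 := hBl.eventually_le_const (by linarith)
  have hGe : ∀ᶠ T in atTop, ‖A T G - Λ G‖ < ε / 2 := by
    have := (Metric.tendsto_nhds.1 hG2) (ε / 2) (by positivity)
    filter_upwards [this] with T hT
    rwa [dist_eq_norm] at hT
  obtain ⟨N, hN⟩ := eventually_atTop.1 ((hBe.and hGe).and (hbd.and (hadd (F - G) G)))
  refine ⟨N, fun T hT => ?_⟩
  obtain ⟨⟨g1, g2⟩, g3, g4⟩ := hN T hT.le
  rw [dist_eq_norm] at hFG ⊢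
  rw [sub_add_cancel] at g4
  have e1 : Λ F = Λ (F - G) + Λ G := by rw [← haddΛ, sub_add_cancel]
  rw [g4, e1]
  have e2 : A T (F - G) + A T G - (Λ (F - G) + Λ G) = A T (F - G) - Λ (F - G) + (A T G - Λ G) := by ring
  rw [e2]
  have n1 := norm_add_le (A T (F - G) - Λ (F - G)) (A T G - Λ G)
  have n2 := norm_sub_le (A T (F - G)) (Λ (F - G))
  have n3 := g3 (F - G)
  have n4 := hbdΛ (F - G)
  have n5 : B T * ‖F - G‖ ≤ ((aC k).re + 1) * ‖F - G‖ := mul_le_mul_of_nonneg_right g1 (norm_nonneg _)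
  have n6 : (2 * (aC k).re + 2) * ‖F - G‖ < ε / 2 := by
    have h5 := mul_lt_mul_of_pos_left hFG (show 0 < 2 * (aC k).re + 2 by linarith)
    have h6 : (2 * (aC k).re + 2) * (ε / (2 * (2 * (aC k).re + 2))) = ε / 2 := by
      field_simp
    linarith
  nlinarith [norm_nonneg (F - G)]

end Run7.h310.SP
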