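import Pool.Agent.Run7.h310.SP.Stm
import Pool.Agent.N748.MG.DIA1
import Pool.Agent.N748.MG.DIA2

set_option autoImplicit false

/-! # Project SP: the coefficients for real orders, bounds of the twisted sums -/

namespace Run7.h310.SP

open Finset Filter MeasureTheory Topology Complex
open Pool.Agent.N748.MG

lemma lR_zero (k : ℝ) : CON.lR k 0 = 1 := by simp [CON.lR]

lemma lR_succ (k : ℝ) (m : ℕ) : CON.lR k (m + 1) = CON.lR k m * ((k + m) / ((m : ℝ) + 1)) := by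
  unfold CON.lR
  rw [Finset.prod_range_succ]

lemma lR_pos {k : ℝ} (hk : 0 < k) (m : ℕ) : 0 < CON.lR k m := by
  unfold CON.lR
  exact Finset.prod_pos fun i _ => by positivity

lemma lR_add_le {k : ℝ} (hk : 0 < k) (a g : ℕ) : CON.lR k (a + g) ≤ CON.lR (max k 1) a * CON.lR k g := by
  induction a with
  | zero => rw [zero_add, lR_zero, one_mul]
  | succ a ih =>
    have e : a + 1 + g = (a + g) + 1 := by ring
    rw [e, lR_succ, lR_succ]
    have h1 : (k + ((a + g : ℕ) : ℝ)) / (((a + g : ℕ) : ℝ) + 1) ≤ (max k 1 + a) / ((a : ℝ) + 1) := by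
      have hk1 : k ≤ max k 1 := le_max_left _ _
      have h11 : 1 ≤ max k 1 := le_max_right _ _
      have hg : (0:ℝ) ≤ g := Nat.cast_nonneg g
      have ha : (0:ℝ) ≤ a := Nat.cast_nonneg a
      rw [div_le_div_iff₀ (by positivity) (by positivity)]
      push_cast
      nlinarith [mul_nonneg hg (sub_nonneg.2 h11), mul_nonneg ha hg]
    calc CON.lR k (a + g) * ((k + ((a + g : ℕ) : ℝ)) / (((a + g : ℕ) : ℝ) + 1))
        ≤ (CON.lR (max k 1) a * CON.lR k g) * ((max k 1 + a) / ((a : ℝ) + 1)) := by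
          refine mul_le_mul ih h1 (by positivity) ?_
          exact mul_nonneg (lR_pos (lt_max_of_lt_left hk) _).le (lR_pos hk _).le
      _ = _ := by ring

lemma dR_one (k : ℝ) : dR k 1 = 1 := by simp [dR]

lemma dR_pos {k : ℝ} (hk : 0 < k) (n : ℕ) : 0 < dR k n := by
  unfold dR
  exact Finset.prod_pos fun p _ => lR_pos hk _

lemma dS_real (k : ℝ) (n : ℕ) : dS (k:ℂ) n = ((dR k n : ℝ) : ℂ) := by
  unfold dS dR
  push_cast
  exact prod_congr rfl fun p _ => CON.lC_ofReal k _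

lemma dR_eq (k : ℝ) (n : ℕ) {T : Finset ℕ} (hT : n.primeFactors ⊆ T) :
    dR k n = ∏ p ∈ T, CON.lR k (n.factorization p) := by
  unfold dR
  refine Finset.prod_subset hT fun p _ hp => ?_
  have h1 : n.factorization p = 0 := by
    rw [← Finsupp.notMem_support_iff, Nat.support_factorization]
    exact hp
  rw [h1, lR_zero]

lemma dR_mul (k : ℝ) {m n : ℕ} (h : Nat.Coprime m n) : dR k (m * n) = dR k m * dR k n := by
  have h1 := DIA1.dS_mul (k:ℂ) h
  rw [dS_real, dS_real, dS_real] at h1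
  exact_mod_cast h1

lemma dR_pow (k : ℝ) {p : ℕ} (hp : p.Prime) (m : ℕ) : dR k (p ^ m) = CON.lR k m := by
  have h1 := DIA1.dS_pow (k:ℂ) hp m
  rw [dS_real, CON.lC_ofReal] at h1
  exact_mod_cast h1

lemma dR_mul_le {k : ℝ} (hk : 0 < k) {a g : ℕ} (ha : a ≠ 0) (hg : g ≠ 0) :
    dR k (a * g) ≤ dR (max k 1) a * dR k g := by
  have h0 : (a * g).primeFactors = a.primeFactors ∪ g.primeFactors := Nat.primeFactors_mul ha hg
  rw [dR_eq k (a * g) (T := a.primeFactors ∪ g.primeFactors) (by rw [h0]),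
    dR_eq (max k 1) a (T := a.primeFactors ∪ g.primeFactors) Finset.subset_union_left,
    dR_eq k g (T := a.primeFactors ∪ g.primeFactors) Finset.subset_union_right, ← Finset.prod_mul_distrib]
  refine Finset.prod_le_prod (fun p _ => (lR_pos hk _).le) fun p _ => ?_
  rw [Nat.factorization_mul ha hg, Finsupp.add_apply]
  exact lR_add_le hk _ _

lemma wN_nonneg (δ : ℝ) (n : ℕ) : 0 ≤ wN δ n := Real.rpow_nonneg (Nat.cast_nonneg _) _

lemma wN_mul (δ : ℝ) (a g : ℕ) : wN δ (a * g) = wN δ a * wN δ g := by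
  unfold wN
  push_cast
  rw [Real.mul_rpow (Nat.cast_nonneg _) (Nat.cast_nonneg _)]

lemma wN_one (δ : ℝ) : wN δ 1 = 1 := by simp [wN]

lemma wN_zero {δ : ℝ} (hδ : 0 < δ) : wN δ 0 = 0 := by
  unfold wN
  rw [Nat.cast_zero, Real.zero_rpow (by linarith)]

lemma wN_sq (δ : ℝ) {n : ℕ} (hn : n ≠ 0) : wN δ n * wN δ n = (n:ℝ) ^ (-(1 + 2 * δ)) := by
  unfold wN
  have : (0:ℝ) < n := by exact_mod_cast Nat.pos_of_ne_zero hn
  rw [← Real.rpow_add this]
  congr 1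
  ring

lemma wN_le {δ : ℝ} (hδ : 0 ≤ δ) {n : ℕ} (hn : n ≠ 0) : wN δ n ≤ (n:ℝ) ^ (-(1 / 2 : ℝ)) := by
  unfold wN
  have : (1:ℝ) ≤ n := by exact_mod_cast Nat.one_le_iff_ne_zero.2 hn
  exact Real.rpow_le_rpow_of_exponent_le this (by linarith)

/-- the terms -/
noncomputable def tf (k δ : ℝ) (a b g : ℕ) : ℝ := dR k (a * g) * dR k (b * g) * (wN δ (a * g) * wN δ (b * g))

lemma TD_eq (k δ : ℝ) (a b : ℕ) : TD k δ a b = ∑' g : ℕ, tf k δ a b g := rfl

lemma tf_nonneg {k : ℝ} (hk : 0 < k) (δ : ℝ) (a b g : ℕ) : 0 ≤ tf k δ a b g := by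
  unfold tf
  exact mul_nonneg (mul_nonneg (dR_pos hk _).le (dR_pos hk _).le) (mul_nonneg (wN_nonneg _ _) (wN_nonneg _ _))

lemma tf_zero (k : ℝ) {δ : ℝ} (hδ : 0 < δ) (a b : ℕ) : tf k δ a b 0 = 0 := by
  unfold tf
  rw [mul_zero, wN_zero hδ]
  ring

lemma tf_one_eq (k : ℝ) {δ : ℝ} (hδ : 0 < δ) (g : ℕ) :
    ((tf k δ 1 1 g : ℝ) : ℂ) = dS (k:ℂ) g ^ 2 * (((g:ℝ) ^ (-(1 + 2 * δ)) : ℝ) : ℂ) := by
  rcases eq_or_ne g 0 with rfl | hg
  · rw [tf_zero k hδ, Nat.cast_zero, Real.zero_rpow (by linarith)]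
    simp
  · unfold tf
    rw [one_mul, wN_sq δ hg, dS_real]
    push_cast
    ring

lemma tf11_summable {k : ℝ} (hk : 0 < k) {δ : ℝ} (hδ : 0 < δ) : Summable (tf k δ 1 1) := by
  obtain ⟨n, hn⟩ := exists_nat_ge ‖(k:ℂ)‖
  have h1 := DIA2.ft_summable (k:ℂ) n hn hδ
  refine h1.congr fun g => ?_
  unfold DIA2.ft
  rw [← tf_one_eq k hδ, Complex.norm_real, Real.norm_of_nonneg (tf_nonneg hk _ _ _ _)]

lemma tf_le {k : ℝ} (hk : 0 < k) {δ : ℝ} (hδ : 0 < δ) {a b : ℕ} (ha : 1 ≤ a) (hb : 1 ≤ b) (g : ℕ) :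
    tf k δ a b g ≤ eM k a * eM k b * tf k δ 1 1 g := by
  rcases eq_or_ne g 0 with rfl | hg
  · rw [tf_zero k hδ, tf_zero k hδ, mul_zero]
  have ha0 : a ≠ 0 := by omega
  have hb0 : b ≠ 0 := by omega
  have hk1 : 0 < max k 1 := lt_max_of_lt_left hk
  unfold tf eM
  rw [wN_mul, wN_mul, one_mul]
  have h1 := dR_mul_le hk ha0 hg
  have h2 := dR_mul_le hk hb0 hg
  have h3 := wN_le hδ.le ha0
  have h4 := wN_le hδ.le hb0
  have h5 : dR k (a * g) * dR k (b * g) ≤ (dR (max k 1) a * dR k g) * (dR (max k 1) b * dR k g) :=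
    mul_le_mul h1 h2 (dR_pos hk _).le (mul_nonneg (dR_pos hk1 _).le (dR_pos hk _).le)
  have h6 : wN δ a * wN δ b ≤ (a:ℝ) ^ (-(1 / 2 : ℝ)) * (b:ℝ) ^ (-(1 / 2 : ℝ)) :=
    mul_le_mul h3 h4 (wN_nonneg _ _) (Real.rpow_nonneg (Nat.cast_nonneg _) _)
  have h7 : 0 ≤ wN δ g * wN δ g := mul_nonneg (wN_nonneg _ _) (wN_nonneg _ _)
  calc dR k (a * g) * dR k (b * g) * (wN δ a * wN δ g * (wN δ b * wN δ g))
      = (dR k (a * g) * dR k (b * g)) * (wN δ a * wN δ b) * (wN δ g * wN δ g) := by ring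
    _ ≤ ((dR (max k 1) a * dR k g) * (dR (max k 1) b * dR k g)) *
        ((a:ℝ) ^ (-(1 / 2 : ℝ)) * (b:ℝ) ^ (-(1 / 2 : ℝ))) * (wN δ g * wN δ g) := by
        refine mul_le_mul_of_nonneg_right (mul_le_mul h5 h6 (mul_nonneg (wN_nonneg _ _) (wN_nonneg _ _)) ?_) h7
        exact mul_nonneg (mul_nonneg (dR_pos hk1 _).le (dR_pos hk _).le)
          (mul_nonneg (dR_pos hk1 _).le (dR_pos hk _).le)
    _ = _ := by ring

lemma tf_summable {k : ℝ} (hk : 0 < k) {δ : ℝ} (hδ : 0 < δ) {a b : ℕ} (ha : 1 ≤ a) (hb : 1 ≤ b) :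
    Summable (tf k δ a b) :=
  Summable.of_nonneg_of_le (tf_nonneg hk δ a b) (tf_le hk hδ ha hb) ((tf11_summable hk hδ).mul_left _)

lemma FS_ne {y : ℝ} {K n : ℕ} (h : n ∈ FS y K) : n ≠ 0 := L4.FS_ne h

/-- the truncated sum is a partial sum -/
lemma TDt_eq (k δ y : ℝ) (K : ℕ) {a b : ℕ} (ha : 1 ≤ a) (hb : 1 ≤ b) (hab : Nat.Coprime a b) :
    ∃ T : Finset ℕ, (∀ g, g ∈ T ↔ (a * g ∈ FS y K ∧ b * g ∈ FS y K)) ∧ TDt k δ y K a b = ∑ g ∈ T, tf k δ a b g := by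
  classical
  have ha0 : 0 < a := ha
  have hb0 : 0 < b := hb
  refine ⟨((FS y K ×ˢ FS y K).filter (fun q => q.1 * b = q.2 * a)).image (fun q => q.1 / a), ?_, ?_⟩
  · intro g
    rw [mem_image]
    constructor
    · rintro ⟨⟨m, n⟩, h1, h2⟩
      rw [mem_filter, mem_product] at h1
      obtain ⟨⟨hm, hn⟩, he⟩ := h1
      simp only at hm hn he h2
      have h3 : a ∣ m := by
        have : a ∣ m * b := ⟨n, by rw [he, mul_comm]⟩
        exact hab.dvd_of_dvd_mul_right this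
      obtain ⟨c, rfl⟩ := h3
      rw [Nat.mul_div_cancel_left _ ha0] at h2
      subst h2
      have h4 : n = b * c := by
        have : a * n = a * (b * c) := by
          rw [mul_comm a n, ← he]; ring
        exact Nat.eq_of_mul_eq_mul_left ha0 this
      subst h4
      exact ⟨hm, hn⟩
    · rintro ⟨h1, h2⟩
      refine ⟨(a * g, b * g), ?_, ?_⟩
      · rw [mem_filter, mem_product]
        exact ⟨⟨h1, h2⟩, by ring⟩
      · exact Nat.mul_div_cancel_left _ ha0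
  · unfold TDt
    rw [Finset.sum_image]
    · refine Finset.sum_congr rfl fun q hq => ?_
      obtain ⟨m, n⟩ := q
      rw [mem_filter, mem_product] at hq
      obtain ⟨⟨hm, hn⟩, he⟩ := hq
      simp only at hm hn he ⊢
      have h3 : a ∣ m := by
        have : a ∣ m * b := ⟨n, by rw [he, mul_comm]⟩
        exact hab.dvd_of_dvd_mul_right this
      obtain ⟨c, rfl⟩ := h3
      have h4 : n = b * c := by
        have : a * n = a * (b * c) := by
          rw [mul_comm a n, ← he]; ring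
        exact Nat.eq_of_mul_eq_mul_left ha0 this
      subst h4
      rw [Nat.mul_div_cancel_left _ ha0]
      rfl
    · rintro ⟨m, n⟩ h1 ⟨m', n'⟩ h2 h
      rw [mem_coe, mem_filter, mem_product] at h1 h2
      obtain ⟨⟨hm, hn⟩, he⟩ := h1
      obtain ⟨⟨hm', hn'⟩, he'⟩ := h2
      simp only at hm hn he hm' hn' he' h
      have h3 : a ∣ m := hab.dvd_of_dvd_mul_right ⟨n, by rw [he, mul_comm]⟩
      have h3' : a ∣ m' := hab.dvd_of_dvd_mul_right ⟨n', by rw [he', mul_comm]⟩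
      have h5 : m = m' := by
        rw [← Nat.mul_div_cancel' h3, ← Nat.mul_div_cancel' h3', h]
      subst h5
      have h6 : n * a = n' * a := by rw [← he, ← he']
      rw [Nat.eq_of_mul_eq_mul_right ha0 h6]

theorem t_tdb : S_TDB := by
  intro k δ hk hδ a b ha hb
  have hs := tf_summable hk hδ ha hb
  refine ⟨hs, ?_, tsum_nonneg (tf_nonneg hk δ a b), ?_, ?_⟩
  · have h1 := (tf11_summable hk hδ).le_tsum 1 fun g _ => tf_nonneg hk δ 1 1 g
    have h2 : tf k δ 1 1 1 = 1 := by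
      unfold tf
      rw [one_mul, dR_one, wN_one]
      norm_num
    rw [h2] at h1
    rw [TD_eq]
    linarith
  · rw [TD_eq, TD_eq, ← tsum_mul_left]
    exact hs.tsum_le_tsum (tf_le hk hδ ha hb) ((tf11_summable hk hδ).mul_left _)
  · intro y K hab
    obtain ⟨T, -, hT⟩ := TDt_eq k δ y K ha hb hab
    rw [hT]
    exact ⟨Finset.sum_nonneg fun g _ => tf_nonneg hk δ a b g,
      hs.sum_le_tsum T fun g _ => tf_nonneg hk δ a b g⟩

/-- (TD1) -/
theorem t_td1 : S_TD1 := by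
  intro k hk
  rw [Metric.tendsto_nhdsWithin_nhds]
  intro ε hε
  obtain ⟨δ0, hδ0, h⟩ := DIA2.main k hk.le (ε / 2) (by positivity)
  refine ⟨δ0, hδ0, fun δ hδ hd => ?_⟩
  have hδ' : 0 < δ := hδ
  rw [Real.dist_eq, sub_zero, abs_of_pos hδ'] at hd
  have h1 := h δ hδ' hd.le (k:ℂ) (by rw [Complex.norm_real, Real.norm_of_nonneg hk.le])
  have h2 : (∑' n : ℕ, dS (k:ℂ) n ^ 2 * (((n:ℝ) ^ (-(1 + 2 * δ)) : ℝ) : ℂ)) = ((TD k δ 1 1 : ℝ) : ℂ) := by
    rw [TD_eq, Complex.ofReal_tsum]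
    exact tsum_congr fun g => (tf_one_eq k hδ' g).symm
  have h3 : ((2 * δ : ℝ) : ℂ) ^ ((k:ℂ) ^ 2) = (((2 * δ) ^ (k ^ 2) : ℝ) : ℂ) := by
    rw [Complex.ofReal_cpow (by positivity)]
    push_cast
    rfl
  rw [h2, h3, ← Complex.ofReal_mul] at h1
  have h4 := (Complex.abs_re_le_norm _).trans h1
  rw [Complex.sub_re, Complex.ofReal_re] at h4
  rw [Real.dist_eq]
  linarith

end Run7.h310.SP
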