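import Pool.Agent.Run7.h310.SP.A1

set_option autoImplicit false

/-! # Project SP: truncation of the twisted sums, the Euler product, the limit -/

namespace Run7.h310.SP

open Finset Filter MeasureTheory Topology Complex
open Pool.Agent.N748.MG

/-! ### truncation -/

lemma norm_k {k : ℝ} (hk : 0 < k) : ‖(k:ℂ)‖ ≤ k := by rw [Complex.norm_real, Real.norm_of_nonneg hk.le]

lemma len_mul {a g : ℕ} (ha : a ≠ 0) (hg : g ≠ 0) :
    (a * g).primeFactorsList.length = a.primeFactorsList.length + g.primeFactorsList.length := by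
  have := ArithmeticFunction.cardFactors_mul ha hg
  simpa [ArithmeticFunction.cardFactors_apply] using this

lemma mem_FS_mul {y : ℝ} {K a g : ℕ} (hy : 2 ≤ y) (ha : a ≠ 0) (hay : (a:ℝ) ≤ y)
    (hl : a.primeFactorsList.length ≤ K)
    (hg : g ∈ FS y (K - a.primeFactorsList.length)) : a * g ∈ FS y K := by
  have hg0 : g ≠ 0 := FS_ne hg
  have h1 := (mem_filter.1 hg).2
  refine DIA1.mem_FS (mul_ne_zero ha hg0) ?_ ?_ hy
  · rw [Nat.primeFactors_mul ha hg0]
    refine Finset.union_subset (fun p hp => ?_) h1.2.1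
    have hpp := Nat.prime_of_mem_primeFactors hp
    have hpa : p ≤ a := Nat.le_of_dvd (Nat.pos_of_ne_zero ha) (Nat.dvd_of_mem_primeFactors hp)
    unfold PA
    rw [mem_filter, mem_Icc]
    refine ⟨⟨hpp.two_le, ?_⟩, hpp⟩
    rw [Nat.le_floor_iff (by linarith)]
    have : (p:ℝ) ≤ a := by exact_mod_cast hpa
    linarith
  · rw [len_mul ha hg0]
    omega

lemma FS_mono {y : ℝ} {K K' n : ℕ} (hy : 2 ≤ y) (h : K' ≤ K) (hn : n ∈ FS y K') : n ∈ FS y K := by
  have h1 := (mem_filter.1 hn).2
  exact DIA1.mem_FS h1.1 h1.2.1 (h1.2.2.trans h) hy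

/-- (TDT) -/
theorem t_tdt : S_TDT := by
  intro k D hk hD a b ha hb hab
  obtain ⟨C1, δ1, hC1, hδ1, h⟩ := DIA1.main k (D + 1) hk.le (by linarith)
  set M : ℝ := eM k a * eM k b with hM
  have hM0 : 0 ≤ M := by
    have hk1 : 0 < max k 1 := lt_max_of_lt_left hk
    rw [hM]
    unfold eM
    exact mul_nonneg (mul_nonneg (dR_pos hk1 _).le (Real.rpow_nonneg (Nat.cast_nonneg _) _))
      (mul_nonneg (dR_pos hk1 _).le (Real.rpow_nonneg (Nat.cast_nonneg _) _))
  have ha0 : a ≠ 0 := by omega
  have hb0 : b ≠ 0 := by omega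
  set Ω : ℕ := (a * b).primeFactorsList.length with hΩ
  have hΩe : Ω = a.primeFactorsList.length + b.primeFactorsList.length := by rw [hΩ]; exact len_mul ha0 hb0
  have hab1 : (1:ℝ) ≤ ((a * b : ℕ) : ℝ) := by exact_mod_cast Nat.mul_pos ha hb
  have hlab : 0 ≤ Real.log ((a * b : ℕ) : ℝ) := Real.log_nonneg hab1
  refine ⟨C1 + Ω + Real.log ((a * b : ℕ) : ℝ) + 1, min δ1 (min (1 / 16) (1 / (M + 1))), by positivity, by positivity,
    fun δ hδ hδ0 y K hy hy1 hK => ?_⟩
  have hδ1' : δ ≤ δ1 := hδ0.trans (min_le_left _ _)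
  have hδ16 : δ ≤ 1 / 16 := hδ0.trans ((min_le_right _ _).trans (min_le_left _ _))
  have hδM : δ ≤ 1 / (M + 1) := hδ0.trans ((min_le_right _ _).trans (min_le_right _ _))
  have hL1 := log_inv_ge hδ hδ16
  set L := Real.log (1 / δ) with hL
  have hL0 : 0 < L := by linarith
  have hΩL : (Ω:ℝ) ≤ Ω * L := le_mul_of_one_le_right (Nat.cast_nonneg _) hL1
  have hlL : Real.log ((a * b : ℕ) : ℝ) ≤ Real.log ((a * b : ℕ) : ℝ) * L := le_mul_of_one_le_right hlab hL1
  have hΩK : Ω ≤ K := by
    have : (Ω:ℝ) ≤ K := by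
      refine le_trans ?_ hK
      nlinarith [mul_pos hC1 hL0]
    exact_mod_cast this
  have hK' : C1 * L ≤ ((K - Ω : ℕ) : ℝ) := by
    rw [Nat.cast_sub hΩK]
    nlinarith
  have hy0 : 0 < y := by linarith
  have hly : 0 < Real.log y := Real.log_pos (by linarith)
  have hy1' : C1 * L ≤ δ * Real.log y := by
    refine le_trans ?_ hy1
    nlinarith
  have haby : ((a * b : ℕ) : ℝ) ≤ y := by
    rw [← Real.log_le_log_iff (by linarith) hy0]
    have h1 : δ * Real.log y ≤ Real.log y := by nlinarith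
    nlinarith [mul_pos hC1 hL0]
  have hay : (a:ℝ) ≤ y := by
    refine le_trans ?_ haby
    exact_mod_cast Nat.le_mul_of_pos_right a hb
  have hby : (b:ℝ) ≤ y := by
    refine le_trans ?_ haby
    exact_mod_cast Nat.le_mul_of_pos_left b ha
  -- the untwisted tail
  have h1 := h δ hδ hδ1' y (K - Ω) hy hy1' hK' (k:ℂ) (norm_k hk)
  have e1 : (∑ n ∈ FS y (K - Ω), dS (k:ℂ) n ^ 2 * (((n:ℝ) ^ (-(1 + 2 * δ)) : ℝ) : ℂ)) =
      ((∑ n ∈ FS y (K - Ω), tf k δ 1 1 n : ℝ) : ℂ) := by
    rw [Complex.ofReal_sum]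
    exact sum_congr rfl fun n _ => (tf_one_eq k hδ n).symm
  have e2 : (∑' n : ℕ, dS (k:ℂ) n ^ 2 * (((n:ℝ) ^ (-(1 + 2 * δ)) : ℝ) : ℂ)) = ((TD k δ 1 1 : ℝ) : ℂ) := by
    rw [TD_eq, Complex.ofReal_tsum]
    exact tsum_congr fun g => (tf_one_eq k hδ g).symm
  rw [e1, e2, ← Complex.ofReal_sub, Complex.norm_real, Real.norm_eq_abs] at h1
  have h2 : TD k δ 1 1 - ∑ n ∈ FS y (K - Ω), tf k δ 1 1 n ≤ δ ^ (D + 1) := by
    have := (abs_le.1 h1).1
    linarith
  -- the twisted tail
  have hs := tf_summable hk hδ ha hb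
  have h3 : M * ∑ n ∈ FS y (K - Ω), tf k δ 1 1 n - ∑ n ∈ FS y (K - Ω), tf k δ a b n ≤
      M * TD k δ 1 1 - TD k δ a b := by
    have hsu : Summable fun g => M * tf k δ 1 1 g - tf k δ a b g := ((tf11_summable hk hδ).mul_left M).sub hs
    have := hsu.sum_le_tsum (FS y (K - Ω)) fun g _ => sub_nonneg.2 (tf_le hk hδ ha hb g)
    rw [Finset.sum_sub_distrib, ← Finset.mul_sum, (((tf11_summable hk hδ).mul_left M).tsum_sub hs), tsum_mul_left] at this
    exact this
  obtain ⟨T, hT, hTe⟩ := TDt_eq k δ y K ha hb hab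
  have h4 : ∑ n ∈ FS y (K - Ω), tf k δ a b n ≤ TDt k δ y K a b := by
    rw [hTe]
    refine Finset.sum_le_sum_of_subset_of_nonneg (fun g hg => ?_) fun g _ _ => tf_nonneg hk δ a b g
    rw [hT]
    constructor
    · refine mem_FS_mul hy ha0 hay (by omega) (FS_mono hy (by omega) hg)
    · refine mem_FS_mul hy hb0 hby (by omega) (FS_mono hy (by omega) hg)
  have h5 := ((t_tdb k δ hk hδ a b ha hb).2.2.2.2 y K hab).2
  rw [abs_le]
  have h6 : M * δ ^ (D + 1) ≤ δ ^ D := by
    rw [Real.rpow_add hδ, Real.rpow_one]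
    have h7 : 0 < δ ^ D := Real.rpow_pos_of_pos hδ _
    have h8 : M * δ ≤ 1 := by
      rw [le_div_iff₀ (by positivity)] at hδM
      nlinarith
    nlinarith
  have h9 : M * (TD k δ 1 1 - ∑ n ∈ FS y (K - Ω), tf k δ 1 1 n) ≤ M * δ ^ (D + 1) :=
    mul_le_mul_of_nonneg_left h2 hM0
  have h10 : 0 < δ ^ D := Real.rpow_pos_of_pos hδ _
  constructor
  · linarith
  · linarith

/-! ### the Euler product -/

lemma lf_term (k δ : ℝ) (p u v m : ℕ) : CON.lR k (m + u) * CON.lR k (m + v) * (wN δ (p ^ (m + u)) * wN δ (p ^ (m + v))) =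
    CON.lR k (m + u) * CON.lR k (m + v) * (wN δ (p ^ u) * wN δ (p ^ v)) * (wN δ (p ^ m) * wN δ (p ^ m)) := by
  rw [pow_add, pow_add, wN_mul, wN_mul]
  ring

/-- the normalised terms -/
noncomputable def hh (k δ : ℝ) (a b g : ℕ) : ℝ := tf k δ a b g / tf k δ a b 1

lemma tf_at_one (k δ : ℝ) (a b : ℕ) : tf k δ a b 1 = dR k a * dR k b * (wN δ a * wN δ b) := by
  unfold tf
  rw [mul_one, mul_one]

lemma wN_pos (δ : ℝ) {n : ℕ} (hn : n ≠ 0) : 0 < wN δ n := by
  unfold wN
  exact Real.rpow_pos_of_pos (by exact_mod_cast Nat.pos_of_ne_zero hn) _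

lemma tf_one_pos {k : ℝ} (hk : 0 < k) (δ : ℝ) {a b : ℕ} (ha : a ≠ 0) (hb : b ≠ 0) : 0 < tf k δ a b 1 := by
  rw [tf_at_one]
  exact mul_pos (mul_pos (dR_pos hk _) (dR_pos hk _)) (mul_pos (wN_pos _ ha) (wN_pos _ hb))

/-- the shifted coefficients are multiplicative -/
lemma dR_shift {k : ℝ} {a m n : ℕ} (ha : a ≠ 0) (hm : m ≠ 0) (hn : n ≠ 0) (h : Nat.Coprime m n) :
    dR k (a * (m * n)) * dR k a = dR k (a * m) * dR k (a * n) := by
  set T := a.primeFactors ∪ (m.primeFactors ∪ n.primeFactors) with hT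
  have h1 : (a * (m * n)).primeFactors ⊆ T := by
    rw [Nat.primeFactors_mul ha (mul_ne_zero hm hn), Nat.primeFactors_mul hm hn]
  have h2 : a.primeFactors ⊆ T := Finset.subset_union_left
  have h3 : (a * m).primeFactors ⊆ T := by
    rw [Nat.primeFactors_mul ha hm]
    exact Finset.union_subset_union_right Finset.subset_union_left
  have h4 : (a * n).primeFactors ⊆ T := by
    rw [Nat.primeFactors_mul ha hn]
    exact Finset.union_subset_union_right Finset.subset_union_right
  rw [dR_eq k _ h1, dR_eq k _ h2, dR_eq k _ h3, dR_eq k _ h4, ← Finset.prod_mul_distrib, ← Finset.prod_mul_distrib]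
  refine Finset.prod_congr rfl fun p _ => ?_
  rw [Nat.factorization_mul ha (mul_ne_zero hm hn), Nat.factorization_mul hm hn, Nat.factorization_mul ha hm,
    Nat.factorization_mul ha hn]
  simp only [Finsupp.add_apply]
  have h5 : m.factorization p = 0 ∨ n.factorization p = 0 := by
    by_contra hc
    rw [not_or] at hc
    have h6 : p ∈ m.primeFactors := by
      rw [← Nat.support_factorization]; exact Finsupp.mem_support_iff.2 hc.1
    have h7 : p ∈ n.primeFactors := by
      rw [← Nat.support_factorization]; exact Finsupp.mem_support_iff.2 hc.2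
    exact Finset.disjoint_left.1 h.disjoint_primeFactors h6 h7
  rcases h5 with h5 | h5
  · rw [h5]; simp only [add_zero, zero_add]; ring
  · rw [h5]; simp only [add_zero]

lemma hh_mul {k : ℝ} (hk : 0 < k) {δ : ℝ} (hδ : 0 < δ) {a b : ℕ} (ha : a ≠ 0) (hb : b ≠ 0) {m n : ℕ}
    (h : Nat.Coprime m n) : hh k δ a b (m * n) = hh k δ a b m * hh k δ a b n := by
  have hp := tf_one_pos hk δ ha hb
  rcases eq_or_ne m 0 with rfl | hm
  · unfold hh
    rw [zero_mul, tf_zero k hδ]
    simp
  rcases eq_or_ne n 0 with rfl | hn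
  · unfold hh
    rw [mul_zero, tf_zero k hδ]
    simp
  unfold hh
  rw [div_mul_div_comm, div_eq_div_iff hp.ne' (mul_pos hp hp).ne']
  have h1 := dR_shift (k := k) ha hm hn h
  have h2 := dR_shift (k := k) hb hm hn h
  rw [tf_at_one]
  unfold tf
  rw [wN_mul δ a (m * n), wN_mul δ m n, wN_mul δ b (m * n), wN_mul δ m n, wN_mul δ a m, wN_mul δ b m, wN_mul δ a n,
    wN_mul δ b n]
  calc dR k (a * (m * n)) * dR k (b * (m * n)) *
        (wN δ a * (wN δ m * wN δ n) * (wN δ b * (wN δ m * wN δ n))) *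
        (dR k a * dR k b * (wN δ a * wN δ b) * (dR k a * dR k b * (wN δ a * wN δ b)))
      = (dR k (a * (m * n)) * dR k a) * (dR k (b * (m * n)) * dR k b) *
        (wN δ a * (wN δ m * wN δ n) * (wN δ b * (wN δ m * wN δ n))) *
        ((wN δ a * wN δ b) * (dR k a * dR k b * (wN δ a * wN δ b))) := by ring
    _ = _ := by rw [h1, h2]; ring

/-- the exact formula for the ratio -/
lemma ratio {k : ℝ} (hk : 0 < k) {δ : ℝ} (hδ : 0 < δ) {a b : ℕ} (ha : 1 ≤ a) (hb : 1 ≤ b) :
    TD k δ a b / TD k δ 1 1 =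
      ∏ p ∈ (a * b).primeFactors, LF k δ p (a.factorization p) (b.factorization p) / LF k δ p 0 0 := by
  have ha0 : a ≠ 0 := by omega
  have hb0 : b ≠ 0 := by omega
  -- Euler products
  have eul : ∀ a b : ℕ, 1 ≤ a → 1 ≤ b → HasProd (fun p : Nat.Primes => ∑' e : ℕ, hh k δ a b ((p:ℕ) ^ e))
      (TD k δ a b / tf k δ a b 1) := by
    intro a b ha hb
    have ha0 : a ≠ 0 := by omega
    have hb0 : b ≠ 0 := by omega
    have hp := tf_one_pos hk δ ha0 hb0
    have hs := (tf_summable hk hδ ha hb).div_const (tf k δ a b 1)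
    have h1 := EulerProduct.eulerProduct_hasProd (f := hh k δ a b) (by unfold hh; exact div_self hp.ne')
      (fun h => hh_mul hk hδ ha0 hb0 h)
      (hs.congr fun g => by
        unfold hh
        rw [Real.norm_of_nonneg (div_nonneg (tf_nonneg hk _ _ _ _) hp.le)])
      (by unfold hh; rw [tf_zero k hδ, zero_div])
    have h2 : ∑' n, hh k δ a b n = TD k δ a b / tf k δ a b 1 := by
      unfold hh
      rw [tsum_div_const, TD_eq]
    rw [h2] at h1
    exact h1
  -- the local factors
  have loc : ∀ (a b : ℕ), a ≠ 0 → b ≠ 0 → ∀ p : ℕ, p.Prime → ∑' e : ℕ, hh k δ a b (p ^ e) =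
      LF k δ p (a.factorization p) (b.factorization p) /
        (CON.lR k (a.factorization p) * CON.lR k (b.factorization p) *
          (wN δ (p ^ (a.factorization p)) * wN δ (p ^ (b.factorization p)))) := by
    intro a b ha0 hb0 p hp
    unfold LF
    rw [← tsum_div_const]
    refine tsum_congr fun e => ?_
    have hp0 : p ≠ 0 := hp.ne_zero
    have hpe : p ^ e ≠ 0 := pow_ne_zero _ hp0
    have key : ∀ a : ℕ, a ≠ 0 → dR k (a * p ^ e) * CON.lR k (a.factorization p) =
        dR k a * CON.lR k (e + a.factorization p) := by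
      intro a ha0
      have hsub : (a * p ^ e).primeFactors ⊆ insert p a.primeFactors := by
        rw [Nat.primeFactors_mul ha0 hpe]
        refine Finset.union_subset (Finset.subset_insert _ _) (fun q hq => ?_)
        have hq1 := Nat.prime_of_mem_primeFactors hq
        have hq2 := (Nat.prime_dvd_prime_iff_eq hq1 hp).1 (hq1.dvd_of_dvd_pow (Nat.dvd_of_mem_primeFactors hq))
        rw [hq2]
        exact Finset.mem_insert_self _ _
      rw [dR_eq k _ hsub, dR_eq k a (Finset.subset_insert p _),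
        ← Finset.mul_prod_erase _ _ (Finset.mem_insert_self p a.primeFactors),
        ← Finset.mul_prod_erase (insert p a.primeFactors) (fun q => CON.lR k (a.factorization q))
          (Finset.mem_insert_self p a.primeFactors)]
      have h1 : (a * p ^ e).factorization p = e + a.factorization p := by
        rw [Nat.factorization_mul ha0 hpe, Finsupp.add_apply, hp.factorization_pow]
        simp [add_comm]
      have h2 : ∀ q ∈ (insert p a.primeFactors).erase p, CON.lR k ((a * p ^ e).factorization q) =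
          CON.lR k (a.factorization q) := by
        intro q hq
        have hne : q ≠ p := (Finset.mem_erase.1 hq).1
        rw [Nat.factorization_mul ha0 hpe, Finsupp.add_apply, hp.factorization_pow,
          Finsupp.single_eq_of_ne hne, add_zero]
      rw [h1, Finset.prod_congr rfl h2]
      ring
    have hla := lR_pos hk (a.factorization p)
    have hlb := lR_pos hk (b.factorization p)
    have hwa := wN_pos δ (pow_ne_zero (a.factorization p) hp0)
    have hwb := wN_pos δ (pow_ne_zero (b.factorization p) hp0)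
    have hpos := tf_one_pos hk δ ha0 hb0
    unfold hh
    rw [lf_term, div_eq_div_iff hpos.ne' (by positivity), tf_at_one]
    unfold tf
    rw [wN_mul δ a, wN_mul δ b]
    have k1 := key a ha0
    have k2 := key b hb0
    calc dR k (a * p ^ e) * dR k (b * p ^ e) * (wN δ a * wN δ (p ^ e) * (wN δ b * wN δ (p ^ e))) *
          (CON.lR k (a.factorization p) * CON.lR k (b.factorization p) *
            (wN δ (p ^ a.factorization p) * wN δ (p ^ b.factorization p)))
        = (dR k (a * p ^ e) * CON.lR k (a.factorization p)) * (dR k (b * p ^ e) * CON.lR k (b.factorization p)) *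
          (wN δ a * wN δ (p ^ e) * (wN δ b * wN δ (p ^ e))) *
          (wN δ (p ^ a.factorization p) * wN δ (p ^ b.factorization p)) := by ring
      _ = _ := by rw [k1, k2]; ring
  have LFpos : ∀ p : ℕ, p.Prime → 0 < LF k δ p 0 0 := by
    intro p hp
    have h1 := loc 1 1 one_ne_zero one_ne_zero p hp
    have hs : Summable fun e : ℕ => hh k δ 1 1 (p ^ e) := by
      have h2 := (tf11_summable hk hδ).div_const (tf k δ 1 1 1)
      exact h2.comp_injective (Nat.pow_right_injective hp.two_le)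
    have hn : ∀ e, 0 ≤ hh k δ 1 1 (p ^ e) := fun e =>
      div_nonneg (tf_nonneg hk _ _ _ _) (tf_one_pos hk δ one_ne_zero one_ne_zero).le
    have h3 := hs.le_tsum 0 fun e _ => hn e
    have h4 : hh k δ 1 1 (p ^ 0) = 1 := by
      rw [pow_zero]
      exact div_self (tf_one_pos hk δ one_ne_zero one_ne_zero).ne'
    rw [h4, h1] at h3
    simp only [Nat.factorization_one, Finsupp.coe_zero, Pi.zero_apply, lR_zero, pow_zero, wN_one, mul_one,
      div_one] at h3
    linarith
  have e1 := eul a b ha hb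
  have e2 := eul 1 1 le_rfl le_rfl
  have hpos11 : 0 < TD k δ 1 1 := (t_tdb k δ hk hδ 1 1 le_rfl le_rfl).2.1
  have hone : tf k δ 1 1 1 = 1 := by rw [tf_at_one, dR_one, wN_one]; norm_num
  rw [hone, div_one] at e2
  have e3 := e1.div₀ e2 hpos11.ne'
  -- the quotient is a finite product
  have e4 : HasProd (fun p : Nat.Primes => (∑' e : ℕ, hh k δ a b ((p:ℕ) ^ e)) / ∑' e : ℕ, hh k δ 1 1 ((p:ℕ) ^ e))
      (∏ p ∈ (a * b).primeFactors, (∑' e : ℕ, hh k δ a b (p ^ e)) / ∑' e : ℕ, hh k δ 1 1 (p ^ e)) := by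
    set P : Finset Nat.Primes := (a * b).primeFactors.attach.map
      ⟨fun q => (⟨q.1, Nat.prime_of_mem_primeFactors q.2⟩ : Nat.Primes), fun q q' h => by
        have := congrArg (fun r : Nat.Primes => (r : ℕ)) h
        exact Subtype.ext this⟩ with hP
    have h1 : ∏ p ∈ (a * b).primeFactors, (∑' e : ℕ, hh k δ a b (p ^ e)) / ∑' e : ℕ, hh k δ 1 1 (p ^ e) =
        ∏ p ∈ P, (∑' e : ℕ, hh k δ a b ((p:ℕ) ^ e)) / ∑' e : ℕ, hh k δ 1 1 ((p:ℕ) ^ e) := by
      rw [hP, Finset.prod_map]
      exact (Finset.prod_attach (a * b).primeFactors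
        (fun p : ℕ => (∑' e : ℕ, hh k δ a b (p ^ e)) / ∑' e : ℕ, hh k δ 1 1 (p ^ e))).symm
    rw [h1]
    refine hasProd_prod_of_ne_finset_one fun p hp => ?_
    have hpn : (p:ℕ) ∉ (a * b).primeFactors := by
      intro hc
      refine hp ?_
      rw [hP, Finset.mem_map]
      exact ⟨⟨(p:ℕ), hc⟩, Finset.mem_attach _ _, rfl⟩
    have hpa : a.factorization p = 0 := by
      rw [← Finsupp.notMem_support_iff, Nat.support_factorization]
      intro hc
      exact hpn (by rw [Nat.primeFactors_mul ha0 hb0]; exact Finset.mem_union_left _ hc)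
    have hpb : b.factorization p = 0 := by
      rw [← Finsupp.notMem_support_iff, Nat.support_factorization]
      intro hc
      exact hpn (by rw [Nat.primeFactors_mul ha0 hb0]; exact Finset.mem_union_right _ hc)
    rw [loc a b ha0 hb0 p p.2, loc 1 1 one_ne_zero one_ne_zero p p.2, hpa, hpb]
    simp only [Nat.factorization_one, Finsupp.coe_zero, Pi.zero_apply, lR_zero, pow_zero, wN_one, mul_one, div_one]
    exact div_self (LFpos p p.2).ne'
  have e5 := e3.unique e4
  rw [div_div, div_eq_iff (mul_pos (tf_one_pos hk δ ha0 hb0) hpos11).ne'] at e5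
  rw [e5, mul_div_assoc]
  have e6 : tf k δ a b 1 * TD k δ 1 1 / TD k δ 1 1 = tf k δ a b 1 := by
    field_simp
  rw [e6, tf_at_one]
  -- the weights as products
  have hsa : a.primeFactors ⊆ (a * b).primeFactors := by
    rw [Nat.primeFactors_mul ha0 hb0]; exact Finset.subset_union_left
  have hsb : b.primeFactors ⊆ (a * b).primeFactors := by
    rw [Nat.primeFactors_mul ha0 hb0]; exact Finset.subset_union_right
  have hw : ∀ a : ℕ, a ≠ 0 → ∀ T : Finset ℕ, a.primeFactors ⊆ T → wN δ a = ∏ p ∈ T, wN δ (p ^ a.factorization p) := by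
    intro a ha0 T hT
    have h1 : ∏ p ∈ T, p ^ a.factorization p = a := by
      rw [← Finset.prod_subset hT]
      · exact Nat.prod_factorization_pow_eq_self ha0
      · intro p _ hp
        have : a.factorization p = 0 := by
          rw [← Finsupp.notMem_support_iff, Nat.support_factorization]
          exact hp
        rw [this, pow_zero]
    have h2 : ∀ (T : Finset ℕ) (f : ℕ → ℕ), wN δ (∏ p ∈ T, f p) = ∏ p ∈ T, wN δ (f p) := by
      intro T f
      classical
      induction T using Finset.induction_on with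
      | empty => simp [wN_one]
      | insert x s hx ih => rw [Finset.prod_insert hx, Finset.prod_insert hx, wN_mul, ih]
    rw [← h2, h1]
  rw [dR_eq k a hsa, dR_eq k b hsb, hw a ha0 _ hsa, hw b hb0 _ hsb, ← Finset.prod_mul_distrib,
    ← Finset.prod_mul_distrib, ← Finset.prod_mul_distrib, ← Finset.prod_mul_distrib]
  refine Finset.prod_congr rfl fun p hp => ?_
  have hpp := Nat.prime_of_mem_primeFactors hp
  rw [loc a b ha0 hb0 p hpp, loc 1 1 one_ne_zero one_ne_zero p hpp]
  simp only [Nat.factorization_one, Finsupp.coe_zero, Pi.zero_apply, lR_zero, pow_zero, wN_one, mul_one, div_one]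
  have hla := lR_pos hk (a.factorization p)
  have hlb := lR_pos hk (b.factorization p)
  have hwa := wN_pos δ (pow_ne_zero (a.factorization p) hpp.ne_zero)
  have hwb := wN_pos δ (pow_ne_zero (b.factorization p) hpp.ne_zero)
  have hLF := LFpos p hpp
  field_simp

end Run7.h310.SP
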