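import Pool.Agent.Run7.h310.SP.A2

set_option autoImplicit false

/-! # Project SP: the limit of the twisted sums -/

namespace Run7.h310.SP

open Finset Filter MeasureTheory Topology Complex
open Pool.Agent.N748.MG

lemma lR_poly {k : ℝ} (hk : 0 < k) : ∃ K : ℕ, ∀ m : ℕ, CON.lR k m ≤ ((m:ℝ) + 1) ^ K := by
  obtain ⟨K, hK⟩ := exists_nat_ge ‖(k:ℂ)‖
  refine ⟨K, fun m => ?_⟩
  have h := DIA1.lC_norm hK m
  rw [CON.lC_ofReal, Complex.norm_real, Real.norm_of_nonneg (lR_pos hk m).le] at h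
  exact h

/-- the terms of the local series at `δ = 0` -/
lemma LF_summable {k : ℝ} (hk : 0 < k) {p : ℕ} (hp : p.Prime) (u v : ℕ) :
    Summable fun m : ℕ => CON.lR k (m + u) * CON.lR k (m + v) * (wN 0 (p ^ (m + u)) * wN 0 (p ^ (m + v))) := by
  obtain ⟨K, hK⟩ := lR_poly hk
  have h1 : Summable (fun m : ℕ => (((m + (u + v + 1) : ℕ) : ℝ) ^ (2 * K) * (1 / 2 : ℝ) ^ (m + (u + v + 1)))) :=
    (summable_nat_add_iff (f := fun n : ℕ => (n : ℝ) ^ (2 * K) * (1 / 2 : ℝ) ^ n) (u + v + 1)).2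
      (summable_pow_mul_geometric_of_norm_lt_one (2 * K) (by norm_num))
  refine Summable.of_nonneg_of_le (fun m => ?_) (fun m => ?_) (h1.mul_left ((2:ℝ) ^ (u + v + 1)))
  · exact mul_nonneg (mul_nonneg (lR_pos hk _).le (lR_pos hk _).le) (mul_nonneg (wN_nonneg _ _) (wN_nonneg _ _))
  · rw [lf_term]
    have hp0 : p ≠ 0 := hp.ne_zero
    have h2 : CON.lR k (m + u) * CON.lR k (m + v) ≤ ((m + (u + v + 1) : ℕ) : ℝ) ^ (2 * K) := by
      have a1 := hK (m + u)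
      have a2 := hK (m + v)
      have b1 : ((((m + u : ℕ) : ℝ)) + 1) ^ K ≤ ((m + (u + v + 1) : ℕ) : ℝ) ^ K := by
        refine pow_le_pow_left₀ (by positivity) ?_ K
        push_cast
        have : (0:ℝ) ≤ v := Nat.cast_nonneg v
        linarith
      have b2 : ((((m + v : ℕ) : ℝ)) + 1) ^ K ≤ ((m + (u + v + 1) : ℕ) : ℝ) ^ K := by
        refine pow_le_pow_left₀ (by positivity) ?_ K
        push_cast
        have : (0:ℝ) ≤ u := Nat.cast_nonneg u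
        linarith
      rw [two_mul, pow_add]
      exact mul_le_mul (a1.trans b1) (a2.trans b2) (lR_pos hk _).le (by positivity)
    have h3 : wN 0 (p ^ m) * wN 0 (p ^ m) ≤ (1 / 2 : ℝ) ^ m := by
      rw [wN_sq 0 (pow_ne_zero _ hp0)]
      push_cast
      have e : -(1 + 2 * (0:ℝ)) = -1 := by norm_num
      rw [e, Real.rpow_neg_one, one_div, inv_pow]
      have h4 : (2:ℝ) ^ m ≤ (p:ℝ) ^ m := pow_le_pow_left₀ (by norm_num) (by exact_mod_cast hp.two_le) m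
      exact inv_anti₀ (by positivity) h4
    have h5 : ∀ e : ℕ, wN 0 (p ^ e) ≤ 1 := by
      intro e
      unfold wN
      refine Real.rpow_le_one_of_one_le_of_nonpos ?_ (by norm_num)
      exact_mod_cast Nat.one_le_iff_ne_zero.2 (pow_ne_zero e hp0)
    have h6 : wN 0 (p ^ u) * wN 0 (p ^ v) ≤ 1 := mul_le_one₀ (h5 u) (wN_nonneg _ _) (h5 v)
    have h7 : 0 ≤ CON.lR k (m + u) * CON.lR k (m + v) := mul_nonneg (lR_pos hk _).le (lR_pos hk _).le
    have h8 : (1 / 2 : ℝ) ^ m = (2:ℝ) ^ (u + v + 1) * (1 / 2 : ℝ) ^ (m + (u + v + 1)) := by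
      rw [pow_add (1 / 2 : ℝ) m, ← mul_assoc, mul_comm ((2:ℝ) ^ (u + v + 1)), mul_assoc, ← mul_pow]
      norm_num
    calc CON.lR k (m + u) * CON.lR k (m + v) * (wN 0 (p ^ u) * wN 0 (p ^ v)) * (wN 0 (p ^ m) * wN 0 (p ^ m))
        ≤ (((m + (u + v + 1) : ℕ) : ℝ) ^ (2 * K) * 1) * (1 / 2 : ℝ) ^ m := by
          refine mul_le_mul (mul_le_mul h2 h6 (mul_nonneg (wN_nonneg _ _) (wN_nonneg _ _)) (by positivity)) h3
            (mul_nonneg (wN_nonneg _ _) (wN_nonneg _ _)) (by positivity)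
      _ = _ := by rw [h8]; ring

lemma wN_anti {δ : ℝ} (hδ : 0 ≤ δ) {n : ℕ} (hn : n ≠ 0) : wN δ n ≤ wN 0 n := by
  unfold wN
  have : (1:ℝ) ≤ n := by exact_mod_cast Nat.one_le_iff_ne_zero.2 hn
  exact Real.rpow_le_rpow_of_exponent_le this (by linarith)

lemma wN_tendsto {n : ℕ} (hn : n ≠ 0) : Tendsto (fun δ : ℝ => wN δ n) (𝓝[>] 0) (𝓝 (wN 0 n)) := by
  unfold wN
  have h0 : (n:ℝ) ≠ 0 := by exact_mod_cast hn
  have h1 : Continuous fun δ : ℝ => (n:ℝ) ^ (-(1 / 2 + δ)) := by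
    refine Continuous.rpow continuous_const (by fun_prop) fun x => Or.inl h0
  exact (h1.tendsto 0).mono_left nhdsWithin_le_nhds

lemma LF_tendsto {k : ℝ} (hk : 0 < k) {p : ℕ} (hp : p.Prime) (u v : ℕ) :
    Tendsto (fun δ : ℝ => LF k δ p u v) (𝓝[>] 0) (𝓝 (LF k 0 p u v)) := by
  have hp0 : p ≠ 0 := hp.ne_zero
  unfold LF
  refine tendsto_tsum_of_dominated_convergence (LF_summable hk hp u v) (fun m => ?_) ?_
  · exact tendsto_const_nhds.mul ((wN_tendsto (pow_ne_zero _ hp0)).mul (wN_tendsto (pow_ne_zero _ hp0)))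
  · filter_upwards [self_mem_nhdsWithin] with δ hδ m
    have hδ' : (0:ℝ) < δ := hδ
    have h1 := lR_pos hk (m + u)
    have h2 := lR_pos hk (m + v)
    have h3 := wN_nonneg δ (p ^ (m + u))
    have h4 := wN_nonneg δ (p ^ (m + v))
    rw [Real.norm_of_nonneg (by positivity)]
    exact mul_le_mul_of_nonneg_left (mul_le_mul (wN_anti hδ'.le (pow_ne_zero _ hp0))
      (wN_anti hδ'.le (pow_ne_zero _ hp0)) h4 (wN_nonneg _ _)) (by positivity)

lemma LF_pos {k : ℝ} (hk : 0 < k) {p : ℕ} (hp : p.Prime) : 0 < LF k 0 p 0 0 := by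
  unfold LF
  have h1 := (LF_summable hk hp 0 0).le_tsum 0 fun m _ =>
    mul_nonneg (mul_nonneg (lR_pos hk _).le (lR_pos hk _).le) (mul_nonneg (wN_nonneg _ _) (wN_nonneg _ _))
  simp only [add_zero, pow_zero, lR_zero, wN_one, mul_one] at h1
  simp only [add_zero]
  linarith

/-- (TDL) -/
theorem t_tdl : S_TDL := by
  intro k hk a b ha hb _
  have h1 : Tendsto (fun δ : ℝ => ∏ p ∈ (a * b).primeFactors,
      LF k δ p (a.factorization p) (b.factorization p) / LF k δ p 0 0) (𝓝[>] 0) (𝓝 (tw k a b)) := by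
    unfold tw
    refine tendsto_finsetProd _ fun p hp => ?_
    have hpp := Nat.prime_of_mem_primeFactors hp
    exact (LF_tendsto hk hpp _ _).div (LF_tendsto hk hpp 0 0) (LF_pos hk hpp).ne'
  refine h1.congr' ?_
  filter_upwards [self_mem_nhdsWithin] with δ hδ
  exact (ratio hk hδ ha hb).symm

/-! ### the majorant -/

lemma eM_nonneg {k : ℝ} (hk : 0 < k) (n : ℕ) : 0 ≤ eM k n := by
  unfold eM
  exact mul_nonneg (dR_pos (lt_max_of_lt_left hk) _).le (Real.rpow_nonneg (Nat.cast_nonneg _) _)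

/-- (EMB) -/
theorem t_emb : S_EMB := by
  intro k hk
  set κ := max k 1 with hκ
  have hκ0 : 0 < κ := lt_max_of_lt_left hk
  obtain ⟨K, hK⟩ := lR_poly hκ0
  -- the function `(m+1)^K 2^(-m/4)` is bounded, and at most one for large primes
  obtain ⟨M, hM1, hM⟩ : ∃ M : ℝ, 1 ≤ M ∧ ∀ m : ℕ, ((m:ℝ) + 1) ^ K * ((2:ℝ) ^ (-(1 / 4 : ℝ))) ^ m ≤ M := by
    have hr : ‖(2:ℝ) ^ (-(1 / 4 : ℝ))‖ < 1 := by
      rw [Real.norm_of_nonneg (by positivity)]
      exact Real.rpow_lt_one_of_one_lt_of_neg (by norm_num) (by norm_num)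
    have h1 := (summable_pow_mul_geometric_of_norm_lt_one K hr)
    have h2 : Summable (fun m : ℕ => (((m + 1 : ℕ) : ℝ) ^ K * ((2:ℝ) ^ (-(1 / 4 : ℝ))) ^ (m + 1))) :=
      (summable_nat_add_iff (f := fun n : ℕ => (n : ℝ) ^ K * ((2:ℝ) ^ (-(1 / 4 : ℝ))) ^ n) 1).2 h1
    set S := ∑' m : ℕ, (((m + 1 : ℕ) : ℝ) ^ K * ((2:ℝ) ^ (-(1 / 4 : ℝ))) ^ (m + 1)) with hS
    have hpos : (0:ℝ) < (2:ℝ) ^ (-(1 / 4 : ℝ)) := by positivity
    refine ⟨max 1 (S / (2:ℝ) ^ (-(1 / 4 : ℝ))), le_max_left _ _, fun m => le_trans ?_ (le_max_right _ _)⟩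
    rw [le_div_iff₀ hpos]
    have h3 := h2.le_tsum m fun j _ => by positivity
    refine le_trans (le_of_eq ?_) h3
    push_cast
    rw [pow_succ]
    ring
  -- for `p ≥ P0`: `(m+1)^K ≤ p^(m/4)` for all `m`
  obtain ⟨P0, hP0⟩ : ∃ P0 : ℕ, ∀ p : ℕ, P0 ≤ p → ∀ m : ℕ, ((m:ℝ) + 1) ^ K ≤ ((p:ℝ) ^ ((1:ℝ) / 4)) ^ m := by
    refine ⟨(2 ^ K) ^ 4, fun p hp m => ?_⟩
    have h1 : ((2:ℝ) ^ K) ≤ (p:ℝ) ^ ((1:ℝ) / 4) := by
      have h2 : (((2:ℝ) ^ K) ^ (4:ℕ)) ^ ((1:ℝ) / 4) = (2:ℝ) ^ K := by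
        rw [← Real.rpow_natCast, ← Real.rpow_mul (by positivity)]
        norm_num
      rw [← h2]
      refine Real.rpow_le_rpow (by positivity) ?_ (by norm_num)
      exact_mod_cast hp
    calc ((m:ℝ) + 1) ^ K ≤ ((2:ℝ) ^ m) ^ K := by
          refine pow_le_pow_left₀ (by positivity) ?_ K
          have : m + 1 ≤ 2 ^ m := Nat.lt_two_pow_self
          exact_mod_cast this
      _ = ((2:ℝ) ^ K) ^ m := by rw [← pow_mul, ← pow_mul, mul_comm]
      _ ≤ _ := pow_le_pow_left₀ (by positivity) h1 m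
  refine ⟨M ^ P0, by positivity, fun n hn => ?_⟩
  have hn0 : n ≠ 0 := by omega
  have hnR : (0:ℝ) < n := by exact_mod_cast hn
  -- local inequality
  have hloc : ∀ p ∈ n.primeFactors, CON.lR κ (n.factorization p) ≤
      (if p < P0 then M else 1) * (((p ^ n.factorization p : ℕ) : ℝ)) ^ ((1:ℝ) / 4) := by
    intro p hp
    have hpp := Nat.prime_of_mem_primeFactors hp
    set m := n.factorization p with hm
    have e1 : ((p ^ m : ℕ) : ℝ) ^ ((1:ℝ) / 4) = ((p:ℝ) ^ ((1:ℝ) / 4)) ^ m := by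
      push_cast
      rw [← Real.rpow_natCast, ← Real.rpow_natCast, ← Real.rpow_mul (Nat.cast_nonneg _),
        ← Real.rpow_mul (Nat.cast_nonneg _), mul_comm]
    rw [e1]
    by_cases h : p < P0
    · rw [if_pos h]
      have h1 := hM m
      have h2 : (2:ℝ) ^ ((1:ℝ) / 4) ≤ (p:ℝ) ^ ((1:ℝ) / 4) :=
        Real.rpow_le_rpow (by norm_num) (by exact_mod_cast hpp.two_le) (by norm_num)
      have h3 : ((2:ℝ) ^ ((1:ℝ) / 4)) ^ m ≤ ((p:ℝ) ^ ((1:ℝ) / 4)) ^ m := pow_le_pow_left₀ (by positivity) h2 m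
      have h4 : ((2:ℝ) ^ (-(1 / 4 : ℝ))) ^ m * ((2:ℝ) ^ ((1:ℝ) / 4)) ^ m = 1 := by
        rw [← mul_pow, ← Real.rpow_add (by norm_num)]
        norm_num
      have h5 : (0:ℝ) < ((2:ℝ) ^ ((1:ℝ) / 4)) ^ m := by positivity
      calc CON.lR κ m ≤ ((m:ℝ) + 1) ^ K := hK m
        _ = (((m:ℝ) + 1) ^ K * ((2:ℝ) ^ (-(1 / 4 : ℝ))) ^ m) * ((2:ℝ) ^ ((1:ℝ) / 4)) ^ m := by
            rw [mul_assoc, h4, mul_one]
        _ ≤ M * ((p:ℝ) ^ ((1:ℝ) / 4)) ^ m := mul_le_mul h1 h3 h5.le (by linarith)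
    · rw [if_neg h, one_mul]
      exact (hK m).trans (hP0 p (not_lt.1 h) m)
  have h1 : dR κ n ≤ M ^ P0 * (n:ℝ) ^ ((1:ℝ) / 4) := by
    unfold dR
    refine (Finset.prod_le_prod (fun p _ => (lR_pos hκ0 _).le) hloc).trans ?_
    rw [Finset.prod_mul_distrib]
    have h2 : ∏ p ∈ n.primeFactors, (if p < P0 then M else 1) ≤ M ^ P0 := by
      rw [← Finset.prod_filter, Finset.prod_const]
      refine pow_le_pow_right₀ hM1 ?_
      calc (n.primeFactors.filter (fun p => p < P0)).card ≤ (range P0).card := by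
            refine Finset.card_le_card fun p hp => ?_
            rw [Finset.mem_filter] at hp
            exact Finset.mem_range.2 hp.2
        _ = P0 := Finset.card_range P0
    have h3 : ∏ p ∈ n.primeFactors, (((p ^ n.factorization p : ℕ) : ℝ)) ^ ((1:ℝ) / 4) = (n:ℝ) ^ ((1:ℝ) / 4) := by
      rw [Real.finsetProd_rpow _ _ fun p _ => Nat.cast_nonneg _]
      congr 1
      rw [← Nat.cast_prod]
      congr 1
      exact Nat.prod_factorization_pow_eq_self hn0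
    rw [h3]
    exact mul_le_mul_of_nonneg_right h2 (by positivity)
  unfold eM
  calc dR κ n * (n:ℝ) ^ (-(1 / 2 : ℝ)) ≤ (M ^ P0 * (n:ℝ) ^ ((1:ℝ) / 4)) * (n:ℝ) ^ (-(1 / 2 : ℝ)) :=
        mul_le_mul_of_nonneg_right h1 (by positivity)
    _ = M ^ P0 * (n:ℝ) ^ (-(1 / 4 : ℝ)) := by
        rw [mul_assoc, ← Real.rpow_add hnR]
        norm_num

end Run7.h310.SP
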