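import Pool.Agent.Run7.h310.SP.A4
import Pool.Agent.N748.MG.Stm2

set_option autoImplicit false

/-! # Project SP: twisted moments with truncation -/

namespace Run7.h310.SP

open Finset Filter MeasureTheory Topology Complex
open Pool.Agent.N748.MG

/-- the twisted moment over the points where `|ζ| ≤ c` -/
noncomputable def MLt (k c δ T : ℝ) (a b : ℕ) : ℂ :=
  ((1 / T : ℝ) : ℂ) * ∫ t in {t : ℝ | t ∈ Set.Icc 0 T ∧ mz δ t ≤ c}, ((mz δ t ^ (2 * k) : ℝ) : ℂ) * ph a b t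

/-- comparing two sets of integration -/
lemma two_sets {T ε c : ℝ} (hε : 0 ≤ ε) (hc : 0 ≤ c) (M N : Set ℝ) (hM : MeasurableSet M) (hN : MeasurableSet N)
    (hMT : M ⊆ Set.Icc 0 T) (hv : volume (Set.Icc 0 T \ N) ≤ ENNReal.ofReal ε) (f : ℝ → ℝ) (hf : Measurable f)
    (hf0 : ∀ t, 0 ≤ f t) (hfM : ∀ t ∈ M, f t ≤ c) (hfN : IntegrableOn f N) (g : ℝ → ℂ) (hg : Measurable g)
    (hg1 : ∀ t, ‖g t‖ = 1) :
    ‖(∫ t in M, (f t : ℂ) * g t) - ∫ t in N, (f t : ℂ) * g t‖ ≤ |(∫ t in N, f t) - ∫ t in M, f t| + 2 * (c * ε) := by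
  have hfin : volume M < ⊤ := (measure_mono hMT).trans_lt (by rw [Real.volume_Icc]; exact ENNReal.ofReal_lt_top)
  have hfMi : IntegrableOn f M :=
    Measure.integrableOn_of_bounded (M := c) hfin.ne hf.aestronglyMeasurable
      ((ae_restrict_iff' hM).2 (Eventually.of_forall fun t ht => by
        rw [Real.norm_eq_abs, abs_of_nonneg (hf0 t)]; exact hfM t ht))
  have hmul : ∀ S : Set ℝ, IntegrableOn f S → IntegrableOn (fun t => (f t : ℂ) * g t) S := by
    intro S hS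
    have h1 : IntegrableOn (fun t => (f t : ℂ)) S := hS.ofReal
    refine h1.mul_bdd (c := 1) hg.aestronglyMeasurable (Eventually.of_forall fun t => (hg1 t).le)
  have e1 := integral_inter_add_sdiff hN (hmul M hfMi)
  have e2 := integral_inter_add_sdiff hM (hmul N hfN)
  have e3 := integral_inter_add_sdiff hN hfMi
  have e4 := integral_inter_add_sdiff hM hfN
  rw [Set.inter_comm N M] at e2 e4
  have hvd : volume.real (M \ N) ≤ ε := by
    rw [Measure.real]
    refine ENNReal.toReal_le_of_le_ofReal hε ((measure_mono ?_).trans hv)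
    exact Set.sdiff_subset_sdiff_left hMT
  have hvdf : volume (M \ N) < ⊤ := (measure_mono Set.sdiff_subset).trans_lt hfin
  have b1 : ‖∫ t in M \ N, (f t : ℂ) * g t‖ ≤ c * ε := by
    refine (norm_setIntegral_le_of_norm_le_const (C := c) hvdf fun t ht => ?_).trans ?_
    · rw [norm_mul, hg1, mul_one, Complex.norm_real, Real.norm_eq_abs, abs_of_nonneg (hf0 t)]
      exact hfM t ht.1
    · exact mul_le_mul_of_nonneg_left hvd hc
  have b2 : ‖∫ t in M \ N, f t‖ ≤ c * ε := by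
    refine (norm_setIntegral_le_of_norm_le_const (C := c) hvdf fun t ht => ?_).trans ?_
    · rw [Real.norm_eq_abs, abs_of_nonneg (hf0 t)]
      exact hfM t ht.1
    · exact mul_le_mul_of_nonneg_left hvd hc
  have b3 : ‖∫ t in N \ M, (f t : ℂ) * g t‖ ≤ ∫ t in N \ M, f t := by
    refine (norm_integral_le_integral_norm _).trans (le_of_eq ?_)
    refine integral_congr_ae (Eventually.of_forall fun t => ?_)
    simp only [norm_mul, hg1, mul_one, Complex.norm_real, Real.norm_eq_abs, abs_of_nonneg (hf0 t)]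
  have b4 : ∫ t in N \ M, f t = ((∫ t in N, f t) - ∫ t in M, f t) + ∫ t in M \ N, f t := by linarith
  have b5 := le_abs_self ((∫ t in N, f t) - ∫ t in M, f t)
  have b6 := (le_abs_self _).trans (Real.norm_eq_abs (∫ t in M \ N, f t) ▸ b2)
  have e : (∫ t in M, (f t : ℂ) * g t) - ∫ t in N, (f t : ℂ) * g t =
      (∫ t in M \ N, (f t : ℂ) * g t) - ∫ t in N \ M, (f t : ℂ) * g t := by
    rw [← e1, ← e2]; ring
  rw [e]
  have b7 := norm_sub_le (∫ t in M \ N, (f t : ℂ) * g t) (∫ t in N \ M, (f t : ℂ) * g t)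
  linarith

lemma ph_one (t : ℝ) : ph 1 1 t = 1 := by
  unfold ph
  simp

lemma mz_measurable {δ : ℝ} (h : δ < 1 / 2) : Measurable (mz δ) := by
  have hc : Continuous (fun t : ℝ => riemannZeta (pw δ t)) := by
    rw [continuous_iff_continuousAt]
    intro t
    have hne : pw δ t ≠ 1 := by
      intro h'
      have := congrArg Complex.re h'
      simp [pw] at this
      linarith
    have hcp : Continuous (pw δ) := by unfold pw; fun_prop
    exact ContinuousAt.comp (g := riemannZeta) (f := fun t : ℝ => pw δ t)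
      (differentiableAt_riemannZeta hne).continuousAt hcp.continuousAt
  exact hc.norm.measurable

theorem tw_fin (h1 : S_TWR) (h2 : S_TM1) (d : ℝ → ℝ) (hd : Ad d) (k V : ℝ) (hk : 0 < k) (hV : k < V) (a b : ℕ)
    (ha : 1 ≤ a) (hb : 1 ≤ b) (hab : Nat.Coprime a b) :
    Tendsto (fun T : ℝ => (((2 * d T) ^ (k ^ 2) : ℝ) : ℂ) * MLt k ((2 * d T) ^ (-V)) (d T) T a b) atTop
      (𝓝 (((aC k).re * tw k a b : ℝ) : ℂ)) := by
  obtain ⟨D, hD⟩ : ∃ D, D = 2 * k * V + 1 := ⟨_, rfl⟩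
  have hkV : 0 < k * V := mul_pos hk (hk.trans hV)
  have hD0 : 0 < D := by rw [hD]; nlinarith
  obtain ⟨C1, δ1, hC1, hδ1, hT1⟩ := t_tdt k D hk hD0 a b ha hb hab
  obtain ⟨C2, δ2, hC2, hδ2, hT2⟩ := t_tdt k D hk hD0 1 1 le_rfl le_rfl (Nat.coprime_one_left 1)
  have hdn : Tendsto d atTop (𝓝[>] 0) := tendsto_nhdsWithin_iff.2 ⟨hd.t0, hd.pos⟩
  have l1 : Tendsto (fun T => (2 * d T) ^ (k ^ 2) * TD k (d T) 1 1) atTop (𝓝 (aC k).re) := (t_td1 k hk).comp hdn
  have l2 : Tendsto (fun T => TD k (d T) a b / TD k (d T) 1 1) atTop (𝓝 (tw k a b)) := (t_tdl k hk a b ha hb hab).comp hdn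
  have l3 : Tendsto (fun T => (2 * d T) ^ (k ^ 2) * TD k (d T) a b) atTop (𝓝 ((aC k).re * tw k a b)) := by
    refine (l1.mul l2).congr' ?_
    filter_upwards [hd.pos] with T hT
    have h0 : 0 < TD k (d T) 1 1 := (t_tdb k (d T) hk hT a b ha hb).2.1
    field_simp
  have l4 := h2 d hd k V hk hV
  have l5 : Tendsto (fun T => |(2 * d T) ^ (k ^ 2) * TD k (d T) 1 1 -
      (2 * d T) ^ (k ^ 2) * ML k ((2 * d T) ^ (-V)) (d T) T|) atTop (𝓝 0) := by
    have := (l1.sub l4).abs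
    rwa [sub_self, abs_zero] at this
  have l6 : Tendsto (fun T => (a * b + 5 : ℝ) * d T) atTop (𝓝 0) := by
    simpa using hd.t0.const_mul (a * b + 5 : ℝ)
  have l7 : Tendsto (fun T => |(2 * d T) ^ (k ^ 2) * TD k (d T) 1 1 -
      (2 * d T) ^ (k ^ 2) * ML k ((2 * d T) ^ (-V)) (d T) T| + (a * b + 5 : ℝ) * d T) atTop (𝓝 0) := by
    simpa using l5.add l6
  have hEv := Ev.app ((h1 k D (max C1 C2) hk hD0 (lt_max_of_lt_left hC1)).and
    ((Ev.of_le hδ1).and (Ev.of_le hδ2))) hd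
  have key : ∀ᶠ T in atTop, ‖(((2 * d T) ^ (k ^ 2) : ℝ) : ℂ) * MLt k ((2 * d T) ^ (-V)) (d T) T a b -
      (((2 * d T) ^ (k ^ 2) * TD k (d T) a b : ℝ) : ℂ)‖ ≤ |(2 * d T) ^ (k ^ 2) * TD k (d T) 1 1 -
      (2 * d T) ^ (k ^ 2) * ML k ((2 * d T) ^ (-V)) (d T) T| + (a * b + 5 : ℝ) * d T := by
    have hlt : ∀ᶠ T in atTop, d T ≤ 1 / 16 := hd.t0.eventually_le_const (by norm_num)
    filter_upwards [hEv, hd.pos, hlt, eventually_ge_atTop 1] with T hE h0 h16 hT1'
    obtain ⟨⟨y, K, N, hy, hy1, hK1, hNm, hNX, hNv, hNz, hint, hJ⟩, hs1, hs2⟩ := hE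
    obtain ⟨δ, hδ⟩ : ∃ δ, δ = d T := ⟨_, rfl⟩
    rw [← hδ] at hy1 hK1 hNv hNz hint hJ hs1 hs2 h0 h16 ⊢
    have hL1 : 1 ≤ Real.log (1 / δ) := log_inv_ge h0 h16
    have hT0 : 0 < T := by linarith
    have q1 := hT1 δ h0 hs1 y K hy ((mul_le_mul_of_nonneg_right (le_max_left _ _) (by linarith)).trans hy1)
      ((mul_le_mul_of_nonneg_right (le_max_left _ _) (by linarith)).trans hK1)
    have q2 := hT2 δ h0 hs2 y K hy ((mul_le_mul_of_nonneg_right (le_max_right _ _) (by linarith)).trans hy1)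
      ((mul_le_mul_of_nonneg_right (le_max_right _ _) (by linarith)).trans hK1)
    obtain ⟨M, hM⟩ : ∃ M : Set ℝ, M = {t : ℝ | t ∈ Set.Icc 0 T ∧ mz δ t ≤ (2 * δ) ^ (-V)} := ⟨_, rfl⟩
    have hMm : MeasurableSet M := by
      rw [hM]
      exact measurableSet_Icc.inter (measurableSet_le (mz_measurable (by linarith)) measurable_const)
    have hMT : M ⊆ Set.Icc 0 T := by rw [hM]; exact fun t ht => ht.1
    have hc0 : 0 ≤ (2 * δ) ^ (-(2 * k * V)) := Real.rpow_nonneg (by linarith) _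
    have hfM : ∀ t ∈ M, mz δ t ^ (2 * k) ≤ (2 * δ) ^ (-(2 * k * V)) := by
      intro t ht
      rw [hM] at ht
      have := Real.rpow_le_rpow (norm_nonneg _) ht.2 (by linarith : 0 ≤ 2 * k)
      rw [← Real.rpow_mul (by linarith)] at this
      refine this.trans (le_of_eq ?_)
      congr 1
      ring
    have hfm : Measurable fun t => mz δ t ^ (2 * k) := (mz_measurable (by linarith)).pow_const _
    have hDT : 0 ≤ δ ^ D * T := by positivity
    have g1 := two_sets hDT hc0 M N hMm hNm hMT hNv (fun t => mz δ t ^ (2 * k)) hfm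
      (fun t => Real.rpow_nonneg (norm_nonneg _) _) hfM hint (ph a b) (ph_cont a b).measurable (ph_norm a b)
    have g2 := hJ a b ha hb
    have g3 := hJ 1 1 le_rfl le_rfl
    have g4 : (∫ t in N, ((mz δ t ^ (2 * k) : ℝ) : ℂ) * ph 1 1 t) = ((∫ t in N, mz δ t ^ (2 * k) : ℝ) : ℂ) := by
      simp only [ph_one, mul_one]
      exact integral_complex_ofReal
    rw [g4, ← Complex.ofReal_mul, ← Complex.ofReal_sub, Complex.norm_real, Real.norm_eq_abs] at g3
    push_cast at g3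
    obtain ⟨A, hA⟩ : ∃ A : ℝ, A = ∫ t in N, mz δ t ^ (2 * k) := ⟨_, rfl⟩
    obtain ⟨B, hB⟩ : ∃ B : ℝ, B = ∫ t in M, mz δ t ^ (2 * k) := ⟨_, rfl⟩
    obtain ⟨Z, hZ⟩ : ∃ Z : ℂ, Z = ∫ t in N, ((mz δ t ^ (2 * k) : ℝ) : ℂ) * ph a b t := ⟨_, rfl⟩
    obtain ⟨W, hW⟩ : ∃ W : ℂ, W = ∫ t in M, ((mz δ t ^ (2 * k) : ℝ) : ℂ) * ph a b t := ⟨_, rfl⟩
    have eML : ML k ((2 * δ) ^ (-V)) δ T = 1 / T * B := by rw [hB, hM]; rfl
    have eMLt : MLt k ((2 * δ) ^ (-V)) δ T a b = ((1 / T : ℝ) : ℂ) * W := by rw [hW, hM]; rfl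
    rw [← hA, ← hB, ← hZ, ← hW] at g1
    rw [← hZ] at g2
    rw [← hA] at g3
    rw [eML, eMLt]
    -- the powers of δ
    have p1 : (2 * δ) ^ (-(2 * k * V)) * δ ^ D ≤ δ := by
      have e1 : (2 * δ) ^ (-(2 * k * V)) ≤ δ ^ (-(2 * k * V)) :=
        Real.rpow_le_rpow_of_nonpos h0 (by linarith) (by nlinarith)
      calc (2 * δ) ^ (-(2 * k * V)) * δ ^ D ≤ δ ^ (-(2 * k * V)) * δ ^ D :=
            mul_le_mul_of_nonneg_right e1 (by positivity)
        _ = δ := by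
          rw [← Real.rpow_add h0, hD]
          have : -(2 * k * V) + (2 * k * V + 1) = 1 := by ring
          rw [this, Real.rpow_one]
    have p2 : δ ^ D ≤ δ := by
      have := Real.rpow_le_rpow_of_exponent_ge h0 (by linarith) (by rw [hD]; nlinarith : (1:ℝ) ≤ D)
      rwa [Real.rpow_one] at this
    have p3 : (2 * δ) ^ (k ^ 2) ≤ 1 := Real.rpow_le_one (by linarith) (by linarith) (by positivity)
    have p4 : 0 < (2 * δ) ^ (k ^ 2) := Real.rpow_pos_of_pos (by linarith) _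
    have hab0 : (0:ℝ) ≤ a * b := by positivity
    -- bounds
    have s1 : ‖W - (T * TD k δ a b : ℝ)‖ ≤ |T * TD k δ 1 1 - B| + T * ((a * b + 5) * δ) := by
      have t1 : ‖W - (T * TD k δ a b : ℝ)‖ ≤ ‖W - Z‖ + ‖Z - T * ((TDt k δ y K a b : ℝ) : ℂ)‖ +
          ‖((T * (TDt k δ y K a b - TD k δ a b) : ℝ) : ℂ)‖ := by
        have e : W - ((T * TD k δ a b : ℝ) : ℂ) = (W - Z) + (Z - T * ((TDt k δ y K a b : ℝ) : ℂ)) +
            ((T * (TDt k δ y K a b - TD k δ a b) : ℝ) : ℂ) := by push_cast; ring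
        rw [e]
        exact (norm_add_le _ _).trans (add_le_add_left (norm_add_le _ _) _)
      rw [Complex.norm_real, Real.norm_eq_abs, abs_mul, abs_of_pos hT0] at t1
      have t2 : |A - B| ≤ |T * TD k δ 1 1 - B| + 2 * (T * δ) := by
        have e : A - B = (T * TD k δ 1 1 - B) + (A - T * TDt k δ y K 1 1) + T * (TDt k δ y K 1 1 - TD k δ 1 1) := by ring
        rw [e]
        refine (abs_add_le _ _).trans ?_
        have := abs_add_le (T * TD k δ 1 1 - B) (A - T * TDt k δ y K 1 1)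
        rw [abs_mul, abs_of_pos hT0]
        have u1 : T * |TDt k δ y K 1 1 - TD k δ 1 1| ≤ T * δ := mul_le_mul_of_nonneg_left (q2.trans p2) hT0.le
        have u2 : δ ^ D * T * (1 * 1) ≤ T * δ := by
          rw [mul_one, mul_one, mul_comm]
          exact mul_le_mul_of_nonneg_left p2 hT0.le
        linarith
      have t3 : (2 * δ) ^ (-(2 * k * V)) * (δ ^ D * T) ≤ T * δ := by
        rw [← mul_assoc, mul_comm T]
        exact mul_le_mul_of_nonneg_right p1 hT0.le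
      have t4 : δ ^ D * T * (a * b) ≤ T * δ * (a * b) := by
        refine mul_le_mul_of_nonneg_right ?_ hab0
        rw [mul_comm]
        exact mul_le_mul_of_nonneg_left p2 hT0.le
      have t5 : T * |TDt k δ y K a b - TD k δ a b| ≤ T * δ := mul_le_mul_of_nonneg_left (q1.trans p2) hT0.le
      nlinarith
    have e1 : (((2 * δ) ^ (k ^ 2) : ℝ) : ℂ) * (((1 / T : ℝ) : ℂ) * W) - (((2 * δ) ^ (k ^ 2) * TD k δ a b : ℝ) : ℂ) =
        (((2 * δ) ^ (k ^ 2) * (1 / T) : ℝ) : ℂ) * (W - (T * TD k δ a b : ℝ)) := by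
      have hTc : (T:ℂ) ≠ 0 := by exact_mod_cast hT0.ne'
      push_cast
      field_simp
    rw [e1, norm_mul, Complex.norm_real, Real.norm_eq_abs, abs_of_pos (by positivity)]
    have e2 : |(2 * δ) ^ (k ^ 2) * TD k δ 1 1 - (2 * δ) ^ (k ^ 2) * (1 / T * B)| =
        (2 * δ) ^ (k ^ 2) * (1 / T) * |T * TD k δ 1 1 - B| := by
      have c0 : 0 < (2 * δ) ^ (k ^ 2) * (1 / T) := by positivity
      have c1 : (2 * δ) ^ (k ^ 2) * TD k δ 1 1 - (2 * δ) ^ (k ^ 2) * (1 / T * B) =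
          ((2 * δ) ^ (k ^ 2) * (1 / T)) * (T * TD k δ 1 1 - B) := by
        field_simp
      rw [c1, abs_mul, abs_of_pos c0]
    rw [e2]
    refine (mul_le_mul_of_nonneg_left s1 (by positivity)).trans ?_
    rw [mul_add]
    refine add_le_add_right ?_ _
    have e3 : (2 * δ) ^ (k ^ 2) * (1 / T) * (T * ((a * b + 5) * δ)) = (2 * δ) ^ (k ^ 2) * ((a * b + 5) * δ) := by
      field_simp
    rw [e3]
    exact mul_le_of_le_one_left (by positivity) p3
  have l8 := squeeze_zero_norm' (key.mono fun T h => h) l7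
  have l9 : Tendsto (fun T => (((2 * d T) ^ (k ^ 2) * TD k (d T) a b : ℝ) : ℂ)) atTop
      (𝓝 (((aC k).re * tw k a b : ℝ) : ℂ)) := (Complex.continuous_ofReal.tendsto _).comp l3
  have l10 := l8.add l9
  simpa using l10

end Run7.h310.SP
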