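import Pool.Agent.Run7.h310.SP.A5
import Mathlib.Analysis.Fourier.AddCircleMulti

set_option autoImplicit false

/-! # Project SP: the local densities and their Fourier coefficients -/

namespace Run7.h310.SP

open Finset Filter MeasureTheory Topology Complex
open Pool.Agent.N748.MG

/-- orthogonality on the circle -/
lemma int_fourier (r : ℤ) : ∫ x : UnitAddCircle, (fourier r x : ℂ) ∂AddCircle.haarAddCircle = if r = 0 then 1 else 0 := by
  split_ifs with h
  · subst h
    simp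
  · exact integral_eq_zero_of_add_right_eq_neg (μ := AddCircle.haarAddCircle)
      (fourier_add_half_inv_index h (Fact.out : (0:ℝ) < 1))

/-- the coefficients of `(1 - x/√p)^(-k)` -/
noncomputable def cm (k : ℝ) (p m : ℕ) : ℝ := CON.lR k m * wN 0 (p ^ m)

lemma wN_zero_pow (p m : ℕ) : wN 0 (p ^ m) = (wN 0 p) ^ m := by
  induction m with
  | zero => rw [pow_zero, pow_zero, wN_one]
  | succ m ih => rw [pow_succ, wN_mul, ih, pow_succ]

lemma wN_lt_one {p : ℕ} (hp : 2 ≤ p) : wN 0 p < 1 := by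
  unfold wN
  have : (1:ℝ) < p := by exact_mod_cast (by omega : 1 < p)
  exact Real.rpow_lt_one_of_one_lt_of_neg this (by norm_num)

lemma fourier_pow (m : ℕ) (x : UnitAddCircle) : (fourier (m:ℤ) x : ℂ) = (fourier 1 x : ℂ) ^ m := by
  induction m with
  | zero => simp
  | succ m ih =>
    push_cast
    rw [fourier_add, ih, pow_succ]

lemma fourier_norm_apply (n : ℤ) (x : UnitAddCircle) : ‖(fourier n x : ℂ)‖ = 1 := Circle.norm_coe _

lemma norm_qz {p : ℕ} (hp : 2 ≤ p) (x : UnitAddCircle) : ‖((wN 0 p : ℝ) : ℂ) * fourier 1 x‖ < 1 := by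
  rw [norm_mul, fourier_norm_apply, mul_one, Complex.norm_real, Real.norm_of_nonneg (wN_nonneg _ _)]
  exact wN_lt_one hp

lemma term_eq (k : ℝ) (p m : ℕ) (x : UnitAddCircle) :
    lC (k:ℂ) m * (((wN 0 p : ℝ) : ℂ) * fourier 1 x) ^ m = ((cm k p m : ℝ) : ℂ) * fourier (m:ℤ) x := by
  unfold cm
  rw [CON.lC_ofReal, mul_pow, wN_zero_pow, fourier_pow]
  push_cast
  ring

lemma G_hasSum (k : ℝ) {p : ℕ} (hp : 2 ≤ p) (x : UnitAddCircle) :
    HasSum (fun m : ℕ => ((cm k p m : ℝ) : ℂ) * fourier (m:ℤ) x) ((1 - ((wN 0 p : ℝ) : ℂ) * fourier 1 x) ^ (-(k:ℂ))) := by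
  have h := (EUL.hasSum_lC (k:ℂ) _ (norm_qz hp x)).1
  simp only [term_eq] at h
  exact h

lemma cm_summable {k : ℝ} (hk : 0 < k) {p : ℕ} (hp : 2 ≤ p) : Summable fun m : ℕ => cm k p m := by
  have h := (EUL.hasSum_lC (k:ℂ) _ (norm_qz hp (0 : UnitAddCircle))).2
  refine h.congr fun m => ?_
  rw [term_eq, norm_mul, fourier_norm_apply, mul_one, Complex.norm_real, Real.norm_of_nonneg]
  exact mul_nonneg (lR_pos hk m).le (wN_nonneg _ _)

lemma cm_nonneg {k : ℝ} (hk : 0 < k) (p m : ℕ) : 0 ≤ cm k p m := mul_nonneg (lR_pos hk m).le (wN_nonneg _ _)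

/-- the density before normalisation -/
noncomputable def rho (k : ℝ) (p : ℕ) (x : UnitAddCircle) : ℝ := ‖1 - ((wN 0 p : ℝ) : ℂ) * fourier 1 x‖ ^ (-(2 * k))

lemma one_sub_ne {p : ℕ} (hp : 2 ≤ p) (x : UnitAddCircle) : 1 - ((wN 0 p : ℝ) : ℂ) * fourier 1 x ≠ 0 := by
  intro h
  have h1 := norm_qz hp x
  rw [← sub_eq_zero.1 h, norm_one] at h1
  exact lt_irrefl _ h1

lemma rho_eq (k : ℝ) {p : ℕ} (hp : 2 ≤ p) (x : UnitAddCircle) : ((rho k p x : ℝ) : ℂ) =
    ((1 - ((wN 0 p : ℝ) : ℂ) * fourier 1 x) ^ (-(k:ℂ))) *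
      (starRingEnd ℂ) ((1 - ((wN 0 p : ℝ) : ℂ) * fourier 1 x) ^ (-(k:ℂ))) := by
  have h0 := one_sub_ne hp x
  rw [Complex.mul_conj', ← Complex.ofReal_pow]
  congr 1
  have h1 : ‖(1 - ((wN 0 p : ℝ) : ℂ) * fourier 1 x) ^ (-(k:ℂ))‖ = ‖1 - ((wN 0 p : ℝ) : ℂ) * fourier 1 x‖ ^ (-k) := by
    rw [Complex.norm_cpow_of_ne_zero h0]
    simp
  rw [h1]
  unfold rho
  rw [← Real.rpow_natCast, ← Real.rpow_mul (norm_nonneg _)]
  congr 1
  push_cast
  ring

lemma rho_cont (k : ℝ) {p : ℕ} (hp : 2 ≤ p) : Continuous (rho k p) := by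
  unfold rho
  have h1 : Continuous fun x : UnitAddCircle => ‖1 - ((wN 0 p : ℝ) : ℂ) * fourier 1 x‖ := by fun_prop
  exact h1.rpow_const fun x => Or.inl (norm_ne_zero_iff.2 (one_sub_ne hp x))

lemma rho_nonneg (k : ℝ) (p : ℕ) (x : UnitAddCircle) : 0 ≤ rho k p x := Real.rpow_nonneg (norm_nonneg _) _

/-- the conjugate series against a monomial -/
lemma int_conj {k : ℝ} (hk : 0 < k) {p : ℕ} (hp : 2 ≤ p) (r : ℤ) :
    ∫ x : UnitAddCircle, (fourier r x : ℂ) * (starRingEnd ℂ) ((1 - ((wN 0 p : ℝ) : ℂ) * fourier 1 x) ^ (-(k:ℂ)))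
      ∂AddCircle.haarAddCircle = if 0 ≤ r then ((cm k p r.toNat : ℝ) : ℂ) else 0 := by
  have h1 : ∀ x : UnitAddCircle, (fourier r x : ℂ) * (starRingEnd ℂ) ((1 - ((wN 0 p : ℝ) : ℂ) * fourier 1 x) ^ (-(k:ℂ))) =
      ∑' m : ℕ, ((cm k p m : ℝ) : ℂ) * fourier (r - m) x := by
    intro x
    have h2 := ((G_hasSum k hp x).map (starRingEnd ℂ) Complex.continuous_conj).mul_left (fourier r x : ℂ)
    have h3 : ∀ m : ℕ, (fourier r x : ℂ) * ((⇑(starRingEnd ℂ) ∘ fun m : ℕ => ((cm k p m : ℝ) : ℂ) * fourier (m:ℤ) x) m) =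
        ((cm k p m : ℝ) : ℂ) * fourier (r - m) x := by
      intro m
      simp only [Function.comp, map_mul, Complex.conj_ofReal]
      rw [← fourier_neg, sub_eq_add_neg, fourier_add]
      ring
    simp only [h3] at h2
    exact h2.tsum_eq.symm
  simp only [h1]
  have hint : ∀ m : ℕ, Integrable (fun x : UnitAddCircle => ((cm k p m : ℝ) : ℂ) * (fourier (r - m) x : ℂ)) AddCircle.haarAddCircle :=
    fun m => (Continuous.integrable_of_hasCompactSupport (by fun_prop) (HasCompactSupport.of_compactSpace _))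
  rw [← integral_tsum_of_summable_integral_norm hint ?_]
  · simp only [integral_const_mul, int_fourier]
    split_ifs with hr
    · rw [tsum_eq_single r.toNat]
      · rw [if_pos (by rw [Int.toNat_of_nonneg hr, sub_self]), mul_one]
      · intro m hm
        rw [if_neg, mul_zero]
        intro h0
        apply hm
        omega
    · have h0 : ∀ m : ℕ, ((cm k p m : ℝ) : ℂ) * (if r - (m:ℤ) = 0 then (1:ℂ) else 0) = 0 := fun m => by
        rw [if_neg (by omega), mul_zero]
      simp only [h0, tsum_zero]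
  · have : ∀ m : ℕ, ∫ x : UnitAddCircle, ‖((cm k p m : ℝ) : ℂ) * (fourier (r - m) x : ℂ)‖ ∂AddCircle.haarAddCircle = cm k p m := by
      intro m
      simp only [norm_mul, fourier_norm_apply, mul_one, Complex.norm_real, Real.norm_of_nonneg (cm_nonneg hk p m)]
      simp
    simp only [this]
    exact cm_summable hk hp

/-- the Fourier coefficients of the density -/
lemma int_rho {k : ℝ} (hk : 0 < k) {p : ℕ} (hp : 2 ≤ p) (n : ℤ) :
    ∫ x : UnitAddCircle, (fourier n x : ℂ) * ((rho k p x : ℝ) : ℂ) ∂AddCircle.haarAddCircle =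
      ((LF k 0 p n.toNat (-n).toNat : ℝ) : ℂ) := by
  have hGc : Continuous fun x : UnitAddCircle => (1 - ((wN 0 p : ℝ) : ℂ) * fourier 1 x) ^ (-(k:ℂ)) := by
    refine Continuous.cpow (by fun_prop) continuous_const fun x => ?_
    rw [Complex.mem_slitPlane_iff]
    left
    have h1 := norm_qz hp x
    have h2 := (Complex.re_le_norm (((wN 0 p : ℝ) : ℂ) * fourier 1 x))
    rw [Complex.sub_re, Complex.one_re]
    linarith
  have h1 : ∀ x : UnitAddCircle, (fourier n x : ℂ) * ((rho k p x : ℝ) : ℂ) =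
      ∑' m : ℕ, ((cm k p m : ℝ) : ℂ) * ((fourier (n + m) x : ℂ) *
        (starRingEnd ℂ) ((1 - ((wN 0 p : ℝ) : ℂ) * fourier 1 x) ^ (-(k:ℂ)))) := by
    intro x
    rw [rho_eq k hp]
    have h2 := ((G_hasSum k hp x).mul_right ((starRingEnd ℂ) ((1 - ((wN 0 p : ℝ) : ℂ) * fourier 1 x) ^ (-(k:ℂ))))).mul_left
      (fourier n x : ℂ)
    rw [← h2.tsum_eq]
    refine tsum_congr fun m => ?_
    rw [fourier_add]
    ring
  simp only [h1]
  have hint : ∀ m : ℕ, Integrable (fun x : UnitAddCircle => ((cm k p m : ℝ) : ℂ) * ((fourier (n + m) x : ℂ) *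
        (starRingEnd ℂ) ((1 - ((wN 0 p : ℝ) : ℂ) * fourier 1 x) ^ (-(k:ℂ))))) AddCircle.haarAddCircle := by
    intro m
    refine Continuous.integrable_of_hasCompactSupport ?_ (HasCompactSupport.of_compactSpace _)
    exact continuous_const.mul ((by fun_prop : Continuous fun x : UnitAddCircle => (fourier (n + m) x : ℂ)).mul
      (Complex.continuous_conj.comp hGc))
  -- a bound for the function
  obtain ⟨B, hB⟩ : ∃ B : ℝ, ∀ x : UnitAddCircle, ‖(1 - ((wN 0 p : ℝ) : ℂ) * fourier 1 x) ^ (-(k:ℂ))‖ ≤ B := by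
    obtain ⟨B, hB⟩ := (isCompact_univ.image hGc.norm).bddAbove
    exact ⟨B, fun x => hB ⟨x, trivial, rfl⟩⟩
  have hB0 : 0 ≤ B := (norm_nonneg _).trans (hB 0)
  rw [← integral_tsum_of_summable_integral_norm hint ?_]
  · simp only [integral_const_mul, int_conj hk hp]
    unfold LF
    rcases le_or_gt 0 n with hn | hn
    · -- n = u
      obtain ⟨u, rfl⟩ := Int.eq_ofNat_of_zero_le hn
      rw [Complex.ofReal_tsum]
      refine tsum_congr fun m => ?_
      rw [if_pos (by omega)]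
      have e1 : ((u:ℤ) + m).toNat = m + u := by omega
      have e2 : ((u:ℤ)).toNat = u := by omega
      have e3 : (-(u:ℤ)).toNat = 0 := by omega
      rw [e1, e2, e3]
      unfold cm
      push_cast
      rw [add_zero]
      ring
    · -- n = -v
      obtain ⟨v, hv⟩ : ∃ v : ℕ, n = -(v:ℤ) := ⟨(-n).toNat, by omega⟩
      subst hv
      have e2 : (-(v:ℤ)).toNat = 0 := by omega
      have e3 : (-(-(v:ℤ))).toNat = v := by omega
      rw [e2, e3]
      obtain ⟨f, hf⟩ : ∃ f : ℕ → ℂ, f = fun m : ℕ => ((cm k p m : ℝ) : ℂ) *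
        (if 0 ≤ -(v:ℤ) + m then ((cm k p (-(v:ℤ) + m).toNat : ℝ) : ℂ) else 0) := ⟨_, rfl⟩
      have hfs : Summable f := by
        refine Summable.of_norm_bounded ((cm_summable hk hp).mul_right (∑' m, cm k p m)) fun m => ?_
        rw [hf]
        simp only [norm_mul, Complex.norm_real, Real.norm_of_nonneg (cm_nonneg hk p m)]
        refine mul_le_mul_of_nonneg_left ?_ (cm_nonneg hk p m)
        split_ifs
        · rw [Complex.norm_real, Real.norm_of_nonneg (cm_nonneg hk p _)]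
          exact (cm_summable hk hp).le_tsum _ fun j _ => cm_nonneg hk p j
        · rw [norm_zero]
          exact tsum_nonneg fun j => cm_nonneg hk p j
      have h2 := hfs.sum_add_tsum_nat_add v
      have h3 : ∑ i ∈ Finset.range v, f i = 0 := by
        refine Finset.sum_eq_zero fun i hi => ?_
        rw [Finset.mem_range] at hi
        rw [hf]
        simp only
        rw [if_neg (by omega), mul_zero]
      rw [h3, zero_add] at h2
      rw [hf] at h2
      rw [← h2, Complex.ofReal_tsum]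
      refine tsum_congr fun m => ?_
      simp only
      rw [if_pos (by push_cast; omega)]
      have e4 : (-(v:ℤ) + ((m + v : ℕ) : ℤ)).toNat = m := by push_cast; omega
      rw [e4]
      unfold cm
      push_cast
      rw [add_zero]
      ring
  · refine Summable.of_nonneg_of_le (fun m => integral_nonneg fun x => norm_nonneg _) (fun m => ?_)
      ((cm_summable hk hp).mul_right B)
    calc ∫ x : UnitAddCircle, ‖((cm k p m : ℝ) : ℂ) * ((fourier (n + m) x : ℂ) *
        (starRingEnd ℂ) ((1 - ((wN 0 p : ℝ) : ℂ) * fourier 1 x) ^ (-(k:ℂ))))‖ ∂AddCircle.haarAddCircle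
        ≤ ∫ _x : UnitAddCircle, cm k p m * B ∂AddCircle.haarAddCircle := by
          refine integral_mono (hint m).norm (integrable_const _) fun x => ?_
          simp only [norm_mul, fourier_norm_apply, one_mul, Complex.norm_real, Real.norm_of_nonneg (cm_nonneg hk p m),
            RCLike.norm_conj]
          exact mul_le_mul_of_nonneg_left (hB x) (cm_nonneg hk p m)
      _ = cm k p m * B := by simp

end Run7.h310.SP
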