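import Pool.Agent.Run7.h310.SP.A5

set_option autoImplicit false

/-! # Project SP: sampling, the general scheme -/

namespace Run7.h310.SP

open Finset Filter MeasureTheory Topology Complex
open Pool.Agent.N748.MG

/-- admissible heights and distances -/
structure AdN (X δ : ℕ → ℝ) : Prop where
  pos : ∀ᶠ n in atTop, 0 < δ n
  t0 : Tendsto δ atTop (𝓝 0)
  X0 : Tendsto X atTop atTop
  tL : Tendsto (fun n => δ n * Real.log (X n) / Real.log (1 / δ n) ^ 2) atTop atTop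

lemma AdN.app {P : ℝ → ℝ → Prop} (h : Ev P) {X δ : ℕ → ℝ} (hd : AdN X δ) : ∀ᶠ n in atTop, P (X n) (δ n) := by
  obtain ⟨lam, δ0, h1, h2, h3, h4⟩ := h
  filter_upwards [hd.X0.eventually h4, hd.pos, hd.t0.eventually_le_const h2, hd.tL.eventually_ge_atTop lam] with T g1 g2 g3 g4
  refine g1 (δ T) g2 g3 ?_
  have hl : 1 ≤ Real.log (1 / δ T) := log_inv_ge g2 (g3.trans h3)
  have : 0 < Real.log (1 / δ T) ^ 2 := by positivity
  rwa [le_div_iff₀ this] at g4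

/-- the asymptotics of the mean of the polynomials over the sample points -/
def QF (X δ : ℕ → ℝ) (S : ℕ → Finset ℝ) (κ l : ℝ) : Prop := ∃ C : ℝ, 0 < C ∧ ∀ (y : ℕ → ℝ) (K : ℕ → ℕ),
  (∀ᶠ n in atTop, 2 ≤ y n ∧ C * Real.log (1 / δ n) ≤ δ n * Real.log (y n) ∧ C * Real.log (1 / δ n) ≤ K n ∧
    C * ((K n + 1) * Real.log (y n)) ≤ Real.log (X n)) →
  Tendsto (fun n => (2 * δ n) ^ (κ ^ 2) * ((1 / (S n).card) * ∑ s ∈ S n, ‖AS (κ:ℂ) (y n) (K n) (pw (δ n) s)‖ ^ 2)) atTop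
    (𝓝 l)

/-- the truncated moment over the sample points -/
noncomputable def MS (k c δ : ℝ) (S : Finset ℝ) : ℝ := by
  classical
  exact (1 / (S.card : ℝ)) * ∑ s ∈ S.filter (fun s => mz δ s ≤ c), mz δ s ^ (2 * k)

theorem samp_fin (hR : S_RED) {X δ : ℕ → ℝ} (hd : AdN X δ) {c : ℝ} (hc : 0 < c) {S : ℕ → Finset ℝ}
    (hS : ∀ᶠ n in atTop, Sep c (X n) (S n)) {D' : ℝ} (hcard : ∀ᶠ n in atTop, δ n ^ D' * X n ≤ (S n).card)
    {k V l : ℝ} (hk : 0 < k) (hV : k < V) (hq : QF X δ S k l) (hq2 : ∀ κ : ℝ, 0 < κ → ∃ l' : ℝ, QF X δ S κ l') :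
    Tendsto (fun n => (2 * δ n) ^ (k ^ 2) * MS k ((2 * δ n) ^ (-V)) (δ n) (S n)) atTop (𝓝 l) := by
  classical
  obtain ⟨η, hη⟩ : ∃ η : ℝ, η = min 1 (V - k) := ⟨_, rfl⟩
  have hη0 : 0 < η := by rw [hη]; exact lt_min one_pos (by linarith)
  have hη1 : η ≤ 1 := by rw [hη]; exact min_le_left _ _
  have hηV : η ≤ V - k := by rw [hη]; exact min_le_right _ _
  have hV0 : 0 < V := hk.trans hV
  obtain ⟨C1, hC1, h1⟩ := hq
  obtain ⟨l', C2, hC2, h2⟩ := hq2 (k + η) (by linarith)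
  obtain ⟨D, hD⟩ : ∃ D : ℝ, D = |D'| + 2 * k * V + 1 := ⟨_, rfl⟩
  have hkV : 0 < k * V := mul_pos hk hV0
  have hD0 : 0 < D := by rw [hD]; have := abs_nonneg D'; nlinarith
  have hEv := AdN.app (hR c (k + 1) D hc (by linarith) hD0 (max C1 C2) (lt_max_of_lt_left hC1)) hd
  have hlt : ∀ᶠ n in atTop, δ n ≤ 1 / 16 := hd.t0.eventually_le_const (by norm_num)
  have hX1 : ∀ᶠ n in atTop, 1 ≤ X n := hd.X0.eventually_ge_atTop 1
  -- choice of the parameters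
  have hch : ∀ n, ∃ (y : ℝ) (K : ℕ) (G : Finset ℝ), (0 < δ n ∧ δ n ≤ 1 / 16 ∧ Sep c (X n) (S n) ∧ (∃ (y : ℝ) (K : ℕ), 2 ≤ y ∧
      max C1 C2 * Real.log (1 / δ n) ≤ δ n * Real.log y ∧ max C1 C2 * Real.log (1 / δ n) ≤ K ∧
      max C1 C2 * ((K + 1) * Real.log y) ≤ Real.log (X n) ∧
      ∀ S : Finset ℝ, Sep c (X n) S → ∃ G : Finset ℝ, G ⊆ S ∧ ((S \ G).card : ℝ) ≤ δ n ^ D * X n ∧
        (∀ s ∈ G, riemannZeta (pw (δ n) s) ≠ 0) ∧
        ∀ k' : ℝ, 0 ≤ k' → k' ≤ k + 1 →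
          |∑ s ∈ G, mz (δ n) s ^ (2 * k') - ∑ s ∈ S, ‖AS (k':ℂ) y K (pw (δ n) s)‖ ^ 2| ≤ δ n ^ D * X n)) →
      2 ≤ y ∧ max C1 C2 * Real.log (1 / δ n) ≤ δ n * Real.log y ∧ max C1 C2 * Real.log (1 / δ n) ≤ K ∧
      max C1 C2 * ((K + 1) * Real.log y) ≤ Real.log (X n) ∧ G ⊆ S n ∧ ((S n \ G).card : ℝ) ≤ δ n ^ D * X n ∧
        ∀ k' : ℝ, 0 ≤ k' → k' ≤ k + 1 →
          |∑ s ∈ G, mz (δ n) s ^ (2 * k') - ∑ s ∈ S n, ‖AS (k':ℂ) y K (pw (δ n) s)‖ ^ 2| ≤ δ n ^ D * X n := by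
    intro n
    by_cases h : (0 < δ n ∧ δ n ≤ 1 / 16 ∧ Sep c (X n) (S n) ∧ (∃ (y : ℝ) (K : ℕ), 2 ≤ y ∧
      max C1 C2 * Real.log (1 / δ n) ≤ δ n * Real.log y ∧ max C1 C2 * Real.log (1 / δ n) ≤ K ∧
      max C1 C2 * ((K + 1) * Real.log y) ≤ Real.log (X n) ∧
      ∀ S : Finset ℝ, Sep c (X n) S → ∃ G : Finset ℝ, G ⊆ S ∧ ((S \ G).card : ℝ) ≤ δ n ^ D * X n ∧
        (∀ s ∈ G, riemannZeta (pw (δ n) s) ≠ 0) ∧
        ∀ k' : ℝ, 0 ≤ k' → k' ≤ k + 1 →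
          |∑ s ∈ G, mz (δ n) s ^ (2 * k') - ∑ s ∈ S, ‖AS (k':ℂ) y K (pw (δ n) s)‖ ^ 2| ≤ δ n ^ D * X n))
    · obtain ⟨-, -, hs, y, K, a1, a2, a3, a4, a5⟩ := h
      obtain ⟨G, b1, b2, b3, b4⟩ := a5 (S n) hs
      exact ⟨y, K, G, fun _ => ⟨a1, a2, a3, a4, b1, b2, b4⟩⟩
    · exact ⟨0, 0, ∅, fun h' => absurd h' h⟩
  choose y K G hyKG using hch
  have hall : ∀ᶠ n in atTop, 2 ≤ y n ∧ max C1 C2 * Real.log (1 / δ n) ≤ δ n * Real.log (y n) ∧
      max C1 C2 * Real.log (1 / δ n) ≤ K n ∧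
      max C1 C2 * ((K n + 1) * Real.log (y n)) ≤ Real.log (X n) ∧ G n ⊆ S n ∧ ((S n \ G n).card : ℝ) ≤ δ n ^ D * X n ∧
        ∀ k' : ℝ, 0 ≤ k' → k' ≤ k + 1 →
          |∑ s ∈ G n, mz (δ n) s ^ (2 * k') - ∑ s ∈ S n, ‖AS (k':ℂ) (y n) (K n) (pw (δ n) s)‖ ^ 2| ≤ δ n ^ D * X n := by
    filter_upwards [hd.pos, hlt, hS, hEv] with n a1 a2 a3 a4
    exact hyKG n ⟨a1, a2, a3, a4⟩
  have hA1 := h1 y K (by
    filter_upwards [hall, hd.pos, hlt] with n ⟨a1, a2, a3, a4, _⟩ a5 a6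
    have hL := log_inv_ge a5 a6
    have hly : 0 ≤ Real.log (y n) := Real.log_nonneg (by linarith)
    refine ⟨a1, (mul_le_mul_of_nonneg_right (le_max_left _ _) (by linarith)).trans a2,
      (mul_le_mul_of_nonneg_right (le_max_left _ _) (by linarith)).trans a3,
      (mul_le_mul_of_nonneg_right (le_max_left _ _) (by positivity)).trans a4⟩)
  have hA2 := h2 y K (by
    filter_upwards [hall, hd.pos, hlt] with n ⟨a1, a2, a3, a4, _⟩ a5 a6
    have hL := log_inv_ge a5 a6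
    have hly : 0 ≤ Real.log (y n) := Real.log_nonneg (by linarith)
    refine ⟨a1, (mul_le_mul_of_nonneg_right (le_max_right _ _) (by linarith)).trans a2,
      (mul_le_mul_of_nonneg_right (le_max_right _ _) (by linarith)).trans a3,
      (mul_le_mul_of_nonneg_right (le_max_right _ _) (by positivity)).trans a4⟩)
  -- the error term
  have hxc : ∀ᶠ n in atTop, δ n ^ D * X n / (S n).card ≤ (2 * δ n) ^ (2 * k * V) * δ n := by
    filter_upwards [hcard, hd.pos, hlt, hX1] with n a1 a2 a3 a4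
    have hX0 : 0 < X n := by linarith
    have h3 : 0 < δ n ^ D' * X n := by positivity
    have h4 : (0:ℝ) < (S n).card := h3.trans_le a1
    rw [div_le_iff₀ h4]
    have h5 : δ n ^ D = δ n ^ (2 * k * V) * δ n * δ n ^ |D'| := by
      rw [hD, Real.rpow_add a2, Real.rpow_add a2, Real.rpow_one]
      ring
    have h6 : δ n ^ |D'| ≤ δ n ^ D' := Real.rpow_le_rpow_of_exponent_ge a2 (by linarith) (le_abs_self _)
    have h7 : δ n ^ (2 * k * V) ≤ (2 * δ n) ^ (2 * k * V) := Real.rpow_le_rpow a2.le (by linarith) (by nlinarith)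
    have h8 : 0 < δ n ^ (2 * k * V) := Real.rpow_pos_of_pos a2 _
    calc δ n ^ D * X n = (δ n ^ (2 * k * V) * δ n) * (δ n ^ |D'| * X n) := by rw [h5]; ring
      _ ≤ ((2 * δ n) ^ (2 * k * V) * δ n) * (δ n ^ D' * X n) := by gcongr
      _ ≤ ((2 * δ n) ^ (2 * k * V) * δ n) * (S n).card := by gcongr
  have hq3 : ∀ κ lk : ℝ, 0 < κ → κ ≤ k + 1 → Tendsto (fun n => (2 * δ n) ^ (κ ^ 2) * ((1 / (S n).card) *
      ∑ s ∈ S n, ‖AS (κ:ℂ) (y n) (K n) (pw (δ n) s)‖ ^ 2)) atTop (𝓝 lk) →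
      Tendsto (fun n => (2 * δ n) ^ (κ ^ 2) * ((1 / ((S n).card : ℝ)) * ∑ s ∈ G n, mz (δ n) s ^ (2 * κ))) atTop (𝓝 lk) := by
    intro κ lk hκ hκ1 hA
    have hz : Tendsto (fun n => (2 * δ n) ^ (κ ^ 2) * ((1 / ((S n).card : ℝ)) * ∑ s ∈ G n, mz (δ n) s ^ (2 * κ)) -
        (2 * δ n) ^ (κ ^ 2) * ((1 / (S n).card) *
      ∑ s ∈ S n, ‖AS (κ:ℂ) (y n) (K n) (pw (δ n) s)‖ ^ 2)) atTop (𝓝 0) := by
      refine squeeze_zero_norm' ?_ hd.t0
      filter_upwards [hall, hd.pos, hlt, hxc] with n ⟨_, _, _, _, _, _, a6⟩ a2 a3 a4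
      rw [← mul_sub, ← mul_sub, Real.norm_eq_abs, abs_mul, abs_mul, abs_of_nonneg (by positivity),
        abs_of_nonneg (by positivity)]
      have h3 := a6 κ hκ.le hκ1
      have h4 : (2 * δ n) ^ (κ ^ 2) ≤ 1 := Real.rpow_le_one (by linarith) (by linarith) (by positivity)
      have h5 : (2 * δ n) ^ (2 * k * V) ≤ 1 := Real.rpow_le_one (by linarith) (by linarith) (by nlinarith)
      have h6 : 0 ≤ (2 * δ n) ^ (2 * k * V) := Real.rpow_nonneg (by linarith) _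
      calc (2 * δ n) ^ (κ ^ 2) * (1 / ((S n).card : ℝ) * |∑ s ∈ G n, mz (δ n) s ^ (2 * κ) -
            ∑ s ∈ S n, ‖AS (κ:ℂ) (y n) (K n) (pw (δ n) s)‖ ^ 2|)
          ≤ 1 * (1 / ((S n).card : ℝ) * (δ n ^ D * X n)) := by gcongr
        _ = δ n ^ D * X n / (S n).card := by ring
        _ ≤ (2 * δ n) ^ (2 * k * V) * δ n := a4
        _ ≤ δ n := mul_le_of_le_one_left a2.le h5
    have := hz.add hA
    simpa using this
  have hB1 := hq3 k l hk (by linarith) hA1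
  have hB2 := hq3 (k + η) l' (by linarith) (by linarith) (by exact_mod_cast hA2)
  -- the difference
  have hexp : 0 < 2 * V * η + k ^ 2 - (k + η) ^ 2 := by nlinarith
  have hz2 : Tendsto (fun n => (2 * δ n) ^ (2 * V * η + k ^ 2 - (k + η) ^ 2) *
      ((2 * δ n) ^ ((k + η) ^ 2) * ((1 / ((S n).card : ℝ)) * ∑ s ∈ G n, mz (δ n) s ^ (2 * (k + η)))) + δ n) atTop (𝓝 0) := by
    have h3 : Tendsto (fun n => (2 * δ n) ^ (2 * V * η + k ^ 2 - (k + η) ^ 2)) atTop (𝓝 0) := by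
      have h4 : Tendsto (fun n => 2 * δ n) atTop (𝓝 0) := by simpa using hd.t0.const_mul 2
      have h5 := (Real.continuousAt_rpow_const 0 (2 * V * η + k ^ 2 - (k + η) ^ 2) (Or.inr hexp.le)).tendsto.comp h4
      rwa [Real.zero_rpow hexp.ne'] at h5
    have := (h3.mul hB2).add hd.t0
    simpa using this
  have hz3 : Tendsto (fun n => (2 * δ n) ^ (k ^ 2) * MS k ((2 * δ n) ^ (-V)) (δ n) (S n) -
      (2 * δ n) ^ (k ^ 2) * ((1 / ((S n).card : ℝ)) * ∑ s ∈ G n, mz (δ n) s ^ (2 * k))) atTop (𝓝 0) := by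
    refine squeeze_zero_norm' ?_ hz2
    filter_upwards [hall, hd.pos, hlt, hxc] with n ⟨_, _, _, _, a5, a6, _⟩ a2 a3 a4
    obtain ⟨cc, hcc⟩ : ∃ cc : ℝ, cc = (2 * δ n) ^ (-V) := ⟨_, rfl⟩
    have h2δ : 0 < 2 * δ n := by linarith
    have hcc0 : 0 < cc := by rw [hcc]; exact Real.rpow_pos_of_pos h2δ _
    unfold MS
    rw [← hcc, ← mul_sub, ← mul_sub, Real.norm_eq_abs, abs_mul, abs_mul, abs_of_nonneg (by positivity),
      abs_of_nonneg (by positivity)]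
    have hm0 : ∀ (s e : ℝ), 0 ≤ mz (δ n) s ^ e := fun s e => Real.rpow_nonneg (norm_nonneg _) _
    -- split
    have e1 : ∑ s ∈ (S n).filter (fun s => mz (δ n) s ≤ cc), mz (δ n) s ^ (2 * k) =
        ∑ s ∈ (G n).filter (fun s => mz (δ n) s ≤ cc), mz (δ n) s ^ (2 * k) +
        ∑ s ∈ (S n \ G n).filter (fun s => mz (δ n) s ≤ cc), mz (δ n) s ^ (2 * k) := by
      rw [← Finset.sum_union]
      · congr 1
        rw [← Finset.filter_union, Finset.union_sdiff_of_subset a5]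
      · exact Finset.disjoint_filter_filter Finset.disjoint_sdiff
    have e2 : ∑ s ∈ G n, mz (δ n) s ^ (2 * k) =
        ∑ s ∈ (G n).filter (fun s => mz (δ n) s ≤ cc), mz (δ n) s ^ (2 * k) +
        ∑ s ∈ (G n).filter (fun s => ¬ mz (δ n) s ≤ cc), mz (δ n) s ^ (2 * k) :=
      (Finset.sum_filter_add_sum_filter_not _ _ _).symm
    have e3 : 0 ≤ ∑ s ∈ (S n \ G n).filter (fun s => mz (δ n) s ≤ cc), mz (δ n) s ^ (2 * k) :=
      Finset.sum_nonneg fun s _ => hm0 s _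
    have e4 : 0 ≤ ∑ s ∈ (G n).filter (fun s => ¬ mz (δ n) s ≤ cc), mz (δ n) s ^ (2 * k) :=
      Finset.sum_nonneg fun s _ => hm0 s _
    have e5 : ∑ s ∈ (S n \ G n).filter (fun s => mz (δ n) s ≤ cc), mz (δ n) s ^ (2 * k) ≤ cc ^ (2 * k) * (δ n ^ D * X n) := by
      calc _ ≤ ∑ _s ∈ (S n \ G n).filter (fun s => mz (δ n) s ≤ cc), cc ^ (2 * k) :=
            Finset.sum_le_sum fun s hs => Real.rpow_le_rpow (norm_nonneg _) (Finset.mem_filter.1 hs).2 (by linarith)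
        _ = (((S n \ G n).filter (fun s => mz (δ n) s ≤ cc)).card : ℝ) * cc ^ (2 * k) := by
            rw [Finset.sum_const, nsmul_eq_mul]
        _ ≤ (δ n ^ D * X n) * cc ^ (2 * k) := by
            refine mul_le_mul_of_nonneg_right (le_trans ?_ a6) (by positivity)
            exact_mod_cast Finset.card_filter_le _ _
        _ = _ := mul_comm _ _
    have e6 : ∑ s ∈ (G n).filter (fun s => ¬ mz (δ n) s ≤ cc), mz (δ n) s ^ (2 * k) ≤
        cc ^ (-(2 * η)) * ∑ s ∈ G n, mz (δ n) s ^ (2 * (k + η)) := by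
      rw [Finset.mul_sum]
      refine (Finset.sum_le_sum (g := fun s => cc ^ (-(2 * η)) * mz (δ n) s ^ (2 * (k + η))) fun s hs => ?_).trans
        (Finset.sum_le_sum_of_subset_of_nonneg (Finset.filter_subset _ _) fun s _ _ => mul_nonneg (by positivity) (hm0 s _))
      have hs2 : cc < mz (δ n) s := not_le.1 (Finset.mem_filter.1 hs).2
      have hs0 : 0 < mz (δ n) s := hcc0.trans hs2
      have h3 : mz (δ n) s ^ (2 * (k + η)) = mz (δ n) s ^ (2 * k) * mz (δ n) s ^ (2 * η) := by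
        rw [← Real.rpow_add hs0]
        congr 1
        ring
      have h4 : cc ^ (2 * η) ≤ mz (δ n) s ^ (2 * η) := Real.rpow_le_rpow hcc0.le hs2.le (by linarith)
      have h5 : cc ^ (-(2 * η)) * cc ^ (2 * η) = 1 := by
        rw [← Real.rpow_add hcc0]
        simp
      calc mz (δ n) s ^ (2 * k) = (cc ^ (-(2 * η)) * cc ^ (2 * η)) * mz (δ n) s ^ (2 * k) := by rw [h5, one_mul]
        _ ≤ (cc ^ (-(2 * η)) * mz (δ n) s ^ (2 * η)) * mz (δ n) s ^ (2 * k) := by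
            refine mul_le_mul_of_nonneg_right (mul_le_mul_of_nonneg_left h4 (by positivity)) (hm0 s _)
        _ = _ := by rw [h3]; ring
    have e7 : |∑ s ∈ (S n).filter (fun s => mz (δ n) s ≤ cc), mz (δ n) s ^ (2 * k) - ∑ s ∈ G n, mz (δ n) s ^ (2 * k)| ≤
        cc ^ (2 * k) * (δ n ^ D * X n) + cc ^ (-(2 * η)) * ∑ s ∈ G n, mz (δ n) s ^ (2 * (k + η)) := by
      rw [e1, e2, abs_le]
      constructor <;> linarith
    have p1 : cc ^ (2 * k) * (2 * δ n) ^ (2 * k * V) = 1 := by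
      rw [hcc, ← Real.rpow_mul h2δ.le, ← Real.rpow_add h2δ]
      have : -V * (2 * k) + 2 * k * V = 0 := by ring
      rw [this, Real.rpow_zero]
    have p2 : (2 * δ n) ^ (k ^ 2) * cc ^ (-(2 * η)) = (2 * δ n) ^ (2 * V * η + k ^ 2 - (k + η) ^ 2) * (2 * δ n) ^ ((k + η) ^ 2) := by
      rw [hcc, ← Real.rpow_mul h2δ.le, ← Real.rpow_add h2δ, ← Real.rpow_add h2δ]
      congr 1
      ring
    have p3 : (2 * δ n) ^ (k ^ 2) ≤ 1 := Real.rpow_le_one h2δ.le (by linarith) (by positivity)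
    have p4 : 0 ≤ (2 * δ n) ^ (k ^ 2) := Real.rpow_nonneg h2δ.le _
    have p5 : cc ^ (2 * k) * (δ n ^ D * X n / (S n).card) ≤ δ n := by
      calc cc ^ (2 * k) * (δ n ^ D * X n / (S n).card) ≤ cc ^ (2 * k) * ((2 * δ n) ^ (2 * k * V) * δ n) :=
            mul_le_mul_of_nonneg_left a4 (by positivity)
        _ = (cc ^ (2 * k) * (2 * δ n) ^ (2 * k * V)) * δ n := by ring
        _ = δ n := by rw [p1, one_mul]
    calc (2 * δ n) ^ (k ^ 2) * (1 / ((S n).card : ℝ) * |∑ s ∈ (S n).filter (fun s => mz (δ n) s ≤ cc), mz (δ n) s ^ (2 * k) -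
            ∑ s ∈ G n, mz (δ n) s ^ (2 * k)|)
        ≤ (2 * δ n) ^ (k ^ 2) * (1 / ((S n).card : ℝ) * (cc ^ (2 * k) * (δ n ^ D * X n) +
            cc ^ (-(2 * η)) * ∑ s ∈ G n, mz (δ n) s ^ (2 * (k + η)))) := by gcongr
      _ = (2 * δ n) ^ (k ^ 2) * (cc ^ (2 * k) * (δ n ^ D * X n / (S n).card)) +
          ((2 * δ n) ^ (k ^ 2) * cc ^ (-(2 * η))) * (1 / ((S n).card : ℝ) * ∑ s ∈ G n, mz (δ n) s ^ (2 * (k + η))) := by ring
      _ ≤ δ n + (2 * δ n) ^ (2 * V * η + k ^ 2 - (k + η) ^ 2) *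
          ((2 * δ n) ^ ((k + η) ^ 2) * ((1 / ((S n).card : ℝ)) * ∑ s ∈ G n, mz (δ n) s ^ (2 * (k + η)))) := by
          rw [p2, mul_assoc]
          refine add_le_add ?_ le_rfl
          calc (2 * δ n) ^ (k ^ 2) * (cc ^ (2 * k) * (δ n ^ D * X n / (S n).card)) ≤ (2 * δ n) ^ (k ^ 2) * δ n :=
                mul_le_mul_of_nonneg_left p5 p4
            _ ≤ δ n := mul_le_of_le_one_left a2.le p3
      _ = _ := add_comm _ _
  have := hz3.add hB1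
  simpa using this

end Run7.h310.SP
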