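import Pool.Agent.Run7.h310.SP.B1

set_option autoImplicit false

/-! # Project SP: uniform truncation, the quadratic form -/

namespace Run7.h310.SP

open Finset Filter MeasureTheory Topology Complex
open Pool.Agent.N748.MG

/-- (TDT) with a constant which does not depend on the twist -/
theorem t_tdt2 (k D : ℝ) (hk : 0 < k) (hD : 0 < D) : ∃ C : ℝ, 0 < C ∧ ∀ a b : ℕ, 1 ≤ a → 1 ≤ b → Nat.Coprime a b →
    ∃ δ0 : ℝ, 0 < δ0 ∧ ∀ δ : ℝ, 0 < δ → δ ≤ δ0 →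
    ∀ (y : ℝ) (K : ℕ), 2 ≤ y → C * Real.log (1 / δ) ≤ δ * Real.log y → C * Real.log (1 / δ) ≤ K →
    |TDt k δ y K a b - TD k δ a b| ≤ δ ^ D := by
  obtain ⟨C1, δ1, hC1, hδ1, h⟩ := DIA1.main k (D + 1) hk.le (by linarith)
  refine ⟨C1 + 2, by linarith, fun a b ha hb hab => ?_⟩
  set M : ℝ := eM k a * eM k b with hM
  have hM0 : 0 ≤ M := by
    have hk1 : 0 < max k 1 := lt_max_of_lt_left hk
    rw [hM]
    unfold eM
    exact mul_nonneg (mul_nonneg (dR_pos hk1 _).le (Real.rpow_nonneg (Nat.cast_nonneg _) _))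
      (mul_nonneg (dR_pos hk1 _).le (Real.rpow_nonneg (Nat.cast_nonneg _) _))
  have ha0 : a ≠ 0 := by omega
  have hb0 : b ≠ 0 := by omega
  set Ω : ℕ := (a * b).primeFactorsList.length with hΩ
  have hΩe : Ω = a.primeFactorsList.length + b.primeFactorsList.length := by rw [hΩ]; exact len_mul ha0 hb0
  have hab1 : (1:ℝ) ≤ ((a * b : ℕ) : ℝ) := by exact_mod_cast Nat.mul_pos ha hb
  have hlab : 0 ≤ Real.log ((a * b : ℕ) : ℝ) := Real.log_nonneg hab1
  refine ⟨min δ1 (min (1 / 16) (min (1 / (M + 1)) (Real.exp (-(Ω + Real.log ((a * b : ℕ) : ℝ)))))), by positivity,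
    fun δ hδ hδ0 y K hy hy1 hK => ?_⟩
  have hδ1' : δ ≤ δ1 := hδ0.trans (min_le_left _ _)
  have hδ16 : δ ≤ 1 / 16 := hδ0.trans ((min_le_right _ _).trans (min_le_left _ _))
  have hδM : δ ≤ 1 / (M + 1) := hδ0.trans ((min_le_right _ _).trans ((min_le_right _ _).trans (min_le_left _ _)))
  have hδe : δ ≤ Real.exp (-(Ω + Real.log ((a * b : ℕ) : ℝ))) :=
    hδ0.trans ((min_le_right _ _).trans ((min_le_right _ _).trans (min_le_right _ _)))
  have hLe : (Ω : ℝ) + Real.log ((a * b : ℕ) : ℝ) ≤ Real.log (1 / δ) := by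
    rw [one_div, Real.log_inv]
    have := Real.log_le_log hδ hδe
    rw [Real.log_exp] at this
    linarith
  have hL1 := log_inv_ge hδ hδ16
  set L := Real.log (1 / δ) with hL
  have hL0 : 0 < L := by linarith
  have hΩ0 : (0:ℝ) ≤ Ω := Nat.cast_nonneg _
  have hΩL : (Ω:ℝ) ≤ L := by linarith
  have hlL : Real.log ((a * b : ℕ) : ℝ) ≤ L := by linarith
  have hΩK : Ω ≤ K := by
    have : (Ω:ℝ) ≤ K := by
      refine le_trans ?_ hK
      nlinarith [mul_pos hC1 hL0]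
    exact_mod_cast this
  have hK' : C1 * L ≤ ((K - Ω : ℕ) : ℝ) := by
    rw [Nat.cast_sub hΩK]
    nlinarith
  have hy0 : 0 < y := by linarith
  have hly : 0 < Real.log y := Real.log_pos (by linarith)
  have hy1' : C1 * L ≤ δ * Real.log y := by
    refine le_trans ?_ hy1
    nlinarith
  have haby : ((a * b : ℕ) : ℝ) ≤ y := by
    rw [← Real.log_le_log_iff (by linarith) hy0]
    have h1 : δ * Real.log y ≤ Real.log y := by nlinarith
    nlinarith [mul_pos hC1 hL0]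
  have hay : (a:ℝ) ≤ y := by
    refine le_trans ?_ haby
    exact_mod_cast Nat.le_mul_of_pos_right a hb
  have hby : (b:ℝ) ≤ y := by
    refine le_trans ?_ haby
    exact_mod_cast Nat.le_mul_of_pos_left b ha
  -- the untwisted tail
  have h1 := h δ hδ hδ1' y (K - Ω) hy hy1' hK' (k:ℂ) (norm_k hk)
  have e1 : (∑ n ∈ FS y (K - Ω), dS (k:ℂ) n ^ 2 * (((n:ℝ) ^ (-(1 + 2 * δ)) : ℝ) : ℂ)) =
      ((∑ n ∈ FS y (K - Ω), tf k δ 1 1 n : ℝ) : ℂ) := by
    rw [Complex.ofReal_sum]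
    exact sum_congr rfl fun n _ => (tf_one_eq k hδ n).symm
  have e2 : (∑' n : ℕ, dS (k:ℂ) n ^ 2 * (((n:ℝ) ^ (-(1 + 2 * δ)) : ℝ) : ℂ)) = ((TD k δ 1 1 : ℝ) : ℂ) := by
    rw [TD_eq, Complex.ofReal_tsum]
    exact tsum_congr fun g => (tf_one_eq k hδ g).symm
  rw [e1, e2, ← Complex.ofReal_sub, Complex.norm_real, Real.norm_eq_abs] at h1
  have h2 : TD k δ 1 1 - ∑ n ∈ FS y (K - Ω), tf k δ 1 1 n ≤ δ ^ (D + 1) := by
    have := (abs_le.1 h1).1
    linarith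
  -- the twisted tail
  have hs := tf_summable hk hδ ha hb
  have h3 : M * ∑ n ∈ FS y (K - Ω), tf k δ 1 1 n - ∑ n ∈ FS y (K - Ω), tf k δ a b n ≤
      M * TD k δ 1 1 - TD k δ a b := by
    have hsu : Summable fun g => M * tf k δ 1 1 g - tf k δ a b g := ((tf11_summable hk hδ).mul_left M).sub hs
    have := hsu.sum_le_tsum (FS y (K - Ω)) fun g _ => sub_nonneg.2 (tf_le hk hδ ha hb g)
    rw [Finset.sum_sub_distrib, ← Finset.mul_sum, (((tf11_summable hk hδ).mul_left M).tsum_sub hs), tsum_mul_left] at this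
    exact this
  obtain ⟨T, hT, hTe⟩ := TDt_eq k δ y K ha hb hab
  have h4 : ∑ n ∈ FS y (K - Ω), tf k δ a b n ≤ TDt k δ y K a b := by
    rw [hTe]
    refine Finset.sum_le_sum_of_subset_of_nonneg (fun g hg => ?_) fun g _ _ => tf_nonneg hk δ a b g
    rw [hT]
    constructor
    · refine mem_FS_mul hy ha0 hay (by omega) (FS_mono hy (by omega) hg)
    · refine mem_FS_mul hy hb0 hby (by omega) (FS_mono hy (by omega) hg)
  have h5 := ((t_tdb k δ hk hδ a b ha hb).2.2.2.2 y K hab).2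
  rw [abs_le]
  have h6 : M * δ ^ (D + 1) ≤ δ ^ D := by
    rw [Real.rpow_add hδ, Real.rpow_one]
    have h7 : 0 < δ ^ D := Real.rpow_pos_of_pos hδ _
    have h8 : M * δ ≤ 1 := by
      rw [le_div_iff₀ (by positivity)] at hδM
      nlinarith
    nlinarith
  have h9 : M * (TD k δ 1 1 - ∑ n ∈ FS y (K - Ω), tf k δ 1 1 n) ≤ M * δ ^ (D + 1) :=
    mul_le_mul_of_nonneg_left h2 hM0
  have h10 : 0 < δ ^ D := Real.rpow_pos_of_pos hδ _
  constructor
  · linarith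
  · linarith

/-- the square of the modulus of a Dirichlet polynomial -/
lemma sq_eq (F : Finset ℕ) (d : ℕ → ℝ) (hF : ∀ n ∈ F, 1 ≤ n) (δ t : ℝ) :
    ‖∑ n ∈ F, (d n : ℂ) * (n:ℂ) ^ (-(pw δ t))‖ ^ 2 =
      ∑ q ∈ F ×ˢ F, d q.1 * d q.2 * (wN δ q.1 * wN δ q.2) * Real.cos (t * (Real.log q.2 - Real.log q.1)) := by
  have h1 : ((‖∑ n ∈ F, (d n : ℂ) * (n:ℂ) ^ (-(pw δ t))‖ ^ 2 : ℝ) : ℂ) =
      ∑ q ∈ F ×ˢ F, ((d q.1 * d q.2 * (wN δ q.1 * wN δ q.2) : ℝ) : ℂ) *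
        exp ((t * (Real.log q.2 - Real.log q.1) : ℝ) * I) := by
    rw [Complex.ofReal_pow, ← Complex.mul_conj', map_sum, Finset.sum_mul_sum, Finset.sum_product]
    refine Finset.sum_congr rfl fun n hn => ?_
    refine Finset.sum_congr rfl fun m hm => ?_
    simp only
    rw [map_mul, MVS.conj_cpow_eq δ t (hF m hm), MVS.cpow_eq δ t (hF n hn), Complex.conj_ofReal, wN_eq, wN_eq]
    have e : exp ((t * (Real.log m - Real.log n) : ℝ) * I) =
        exp (-(t * Real.log n : ℝ) * I) * exp ((t * Real.log m : ℝ) * I) := by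
      rw [← Complex.exp_add]
      congr 1
      push_cast
      ring
    rw [e]
    push_cast
    ring
  have h2 := congrArg Complex.re h1
  rw [Complex.ofReal_re, Complex.re_sum] at h2
  rw [h2]
  refine Finset.sum_congr rfl fun q _ => ?_
  rw [Complex.re_ofReal_mul, Complex.exp_ofReal_mul_I_re]

/-- the coefficients of the quadratic form -/
noncomputable def cq (k δ : ℝ) (q : ℕ × ℕ) : ℝ := dR k q.1 * dR k q.2 * (wN δ q.1 * wN δ q.2)

lemma cq_nonneg {k : ℝ} (hk : 0 < k) (δ : ℝ) (q : ℕ × ℕ) : 0 ≤ cq k δ q :=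
  mul_nonneg (mul_nonneg (dR_pos hk _).le (dR_pos hk _).le) (mul_nonneg (wN_nonneg _ _) (wN_nonneg _ _))

/-- the cosine sum over the sample points -/
noncomputable def Wc (S : Finset ℝ) (θ : ℝ) : ℝ := ∑ s ∈ S, Real.cos (s * θ)

lemma Wc_le (S : Finset ℝ) (θ : ℝ) : |Wc S θ| ≤ S.card := by
  unfold Wc
  refine (Finset.abs_sum_le_sum_abs _ _).trans ?_
  calc ∑ s ∈ S, |Real.cos (s * θ)| ≤ ∑ _s ∈ S, (1:ℝ) := Finset.sum_le_sum fun s _ => Real.abs_cos_le_one _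
    _ = S.card := by simp

lemma quad (k δ y : ℝ) (K : ℕ) (S : Finset ℝ) :
    ∑ s ∈ S, ‖AS (k:ℂ) y K (pw δ s)‖ ^ 2 = ∑ q ∈ FS y K ×ˢ FS y K, cq k δ q * Wc S (Real.log q.2 - Real.log q.1) := by
  have h1 : ∀ s : ℝ, ‖AS (k:ℂ) y K (pw δ s)‖ ^ 2 =
      ∑ q ∈ FS y K ×ˢ FS y K, cq k δ q * Real.cos (s * (Real.log q.2 - Real.log q.1)) := by
    intro s
    have h2 := sq_eq (FS y K) (dR k) (fun n hn => Nat.one_le_iff_ne_zero.2 (FS_ne hn)) δ s
    unfold AS cq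
    rw [← h2]
    simp only [dS_real]
  simp only [h1]
  rw [Finset.sum_comm]
  refine Finset.sum_congr rfl fun q _ => ?_
  unfold Wc
  rw [Finset.mul_sum]

end Run7.h310.SP
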