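import Pool.Agent.Run7.h310.SP.B2

set_option autoImplicit false

/-! # Project SP: resonances along arithmetic progressions -/

namespace Run7.h310.SP

open Finset Filter MeasureTheory Topology Complex
open Pool.Agent.N748.MG

/-- geometric cosine sums -/
lemma geo {x ρ : ℝ} (φ : ℝ) (hρ : 0 < ρ) (h : ∀ j : ℤ, ρ ≤ |x - 2 * Real.pi * j|) (i0 i1 : ℕ) :
    |∑ i ∈ Finset.Ico i0 i1, Real.cos (x * i + φ)| ≤ Real.pi / ρ := by
  have hπ := Real.pi_pos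
  rcases le_or_gt i1 i0 with hi | hi
  · rw [Finset.Ico_eq_empty_of_le hi, Finset.sum_empty, abs_zero]
    positivity
  obtain ⟨z, hz⟩ : ∃ z : ℂ, z = exp (I * x) := ⟨_, rfl⟩
  -- distance from 1
  have h1 : 2 * ρ / Real.pi ≤ ‖z - 1‖ := by
    rw [hz, Complex.norm_exp_I_mul_ofReal_sub_one]
    obtain ⟨r, hr⟩ : ∃ r : ℤ, r = round (x / (2 * Real.pi)) := ⟨_, rfl⟩
    have h2 : |x / (2 * Real.pi) - r| ≤ 1 / 2 := by rw [hr]; exact abs_sub_round _
    have h3 : x / 2 - r * Real.pi = Real.pi * (x / (2 * Real.pi) - r) := by field_simp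
    have h4 : |x / 2 - r * Real.pi| ≤ Real.pi / 2 := by
      rw [h3, abs_mul, abs_of_pos hπ]
      nlinarith
    have h5 := Real.mul_abs_le_abs_sin h4
    rw [Real.sin_sub_int_mul_pi, abs_mul, abs_zpow, abs_neg, abs_one, one_zpow, one_mul] at h5
    rw [Real.norm_eq_abs, abs_mul, abs_of_pos (by norm_num : (0:ℝ) < 2)]
    have h6 : ρ / 2 ≤ |x / 2 - r * Real.pi| := by
      have h7 := h r
      have h8 : x - 2 * Real.pi * r = 2 * (x / 2 - r * Real.pi) := by ring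
      rw [h8, abs_mul, abs_of_pos (by norm_num : (0:ℝ) < 2)] at h7
      linarith
    have h9 : 2 / Real.pi * (ρ / 2) ≤ 2 / Real.pi * |x / 2 - r * Real.pi| :=
      mul_le_mul_of_nonneg_left h6 (by positivity)
    calc 2 * ρ / Real.pi = 2 * (2 / Real.pi * (ρ / 2)) := by ring
      _ ≤ 2 * |Real.sin (x / 2)| := by linarith
  have hz1 : z ≠ 1 := by
    intro h0
    rw [h0, sub_self, norm_zero] at h1
    have : 0 < 2 * ρ / Real.pi := by positivity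
    linarith
  have hzn : ‖z‖ = 1 := by
    rw [hz, mul_comm]
    exact Complex.norm_exp_ofReal_mul_I x
  have h2 : ∑ i ∈ Finset.Ico i0 i1, Real.cos (x * i + φ) = (exp (φ * I) * ∑ i ∈ Finset.Ico i0 i1, z ^ i).re := by
    rw [Finset.mul_sum, Complex.re_sum]
    refine Finset.sum_congr rfl fun i _ => ?_
    have : exp (φ * I) * z ^ i = exp ((x * i + φ : ℝ) * I) := by
      rw [hz, ← Complex.exp_nat_mul, ← Complex.exp_add]
      congr 1
      push_cast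
      ring
    rw [this, Complex.exp_ofReal_mul_I_re]
  rw [h2]
  refine (Complex.abs_re_le_norm _).trans ?_
  rw [norm_mul, Complex.norm_exp_ofReal_mul_I, one_mul, geom_sum_Ico hz1 hi.le, norm_div]
  have h3 : ‖z ^ i1 - z ^ i0‖ ≤ 2 := by
    refine (norm_sub_le _ _).trans ?_
    rw [norm_pow, norm_pow, hzn, one_pow, one_pow]
    norm_num
  have h4 : 0 < ‖z - 1‖ := norm_pos_iff.2 (sub_ne_zero.2 hz1)
  rw [div_le_div_iff₀ h4 hρ]
  rw [div_le_iff₀ hπ] at h1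
  nlinarith

/-- the sample points -/
noncomputable def SA (α β : ℝ) (i0 i1 : ℕ) : Finset ℝ := (Finset.Ico i0 i1).image fun i : ℕ => α * i + β

lemma SA_inj {α : ℝ} (hα : 0 < α) (β : ℝ) : Function.Injective fun i : ℕ => α * i + β := by
  intro i j h
  simp only at h
  have : α * (i:ℝ) = α * j := by linarith
  exact_mod_cast mul_left_cancel₀ hα.ne' this

lemma SA_sum {α : ℝ} (hα : 0 < α) (β : ℝ) (i0 i1 : ℕ) (f : ℝ → ℝ) :
    ∑ s ∈ SA α β i0 i1, f s = ∑ i ∈ Finset.Ico i0 i1, f (α * i + β) := by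
  unfold SA
  rw [Finset.sum_image fun i _ j _ h => SA_inj hα β h]

lemma SA_card {α : ℝ} (hα : 0 < α) (β : ℝ) (i0 i1 : ℕ) : (SA α β i0 i1).card = i1 - i0 := by
  unfold SA
  rw [Finset.card_image_of_injective _ (SA_inj hα β), Nat.card_Ico]

lemma Wc_SA {α : ℝ} (hα : 0 < α) (β : ℝ) (i0 i1 : ℕ) (θ : ℝ) :
    Wc (SA α β i0 i1) θ = ∑ i ∈ Finset.Ico i0 i1, Real.cos (α * θ * i + β * θ) := by
  unfold Wc
  rw [SA_sum hα β i0 i1 fun s => Real.cos (s * θ)]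
  refine Finset.sum_congr rfl fun i _ => ?_
  congr 1
  ring

lemma Wc_far {α : ℝ} (hα : 0 < α) (β : ℝ) (i0 i1 : ℕ) {θ ρ : ℝ} (hρ : 0 < ρ)
    (h : ∀ j : ℤ, ρ ≤ |α * θ - 2 * Real.pi * j|) : |Wc (SA α β i0 i1) θ| ≤ Real.pi / ρ := by
  rw [Wc_SA hα]
  exact geo _ hρ h i0 i1

lemma Wc_res {α : ℝ} (hα : 0 < α) (β : ℝ) (i0 i1 : ℕ) {θ : ℝ} (j : ℤ) (h : α * θ = 2 * Real.pi * j) :
    Wc (SA α β i0 i1) θ = ((SA α β i0 i1).card : ℝ) * Real.cos (β * θ) := by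
  rw [Wc_SA hα, SA_card hα, h]
  have h1 : ∀ i ∈ Finset.Ico i0 i1, Real.cos (2 * Real.pi * j * i + β * θ) = Real.cos (β * θ) := by
    intro i _
    have : 2 * Real.pi * j * i + β * θ = β * θ + ((j * i : ℤ) : ℝ) * (2 * Real.pi) := by push_cast; ring
    rw [this, Real.cos_add_int_mul_two_pi]
  rw [Finset.sum_congr rfl h1, Finset.sum_const, Nat.card_Ico, nsmul_eq_mul]

/-- gaps between logarithms of integers -/
lemma log_gap {u v : ℕ} (hu : 0 < u) (hv : 0 < v) (h : u ≠ v) {M : ℝ} (hu' : (u:ℝ) ≤ M) (hv' : (v:ℝ) ≤ M) :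
    1 / M ≤ |Real.log u - Real.log v| := by
  have key : ∀ a b : ℕ, 0 < a → 0 < b → a < b → (b:ℝ) ≤ M → 1 / M ≤ Real.log b - Real.log a := by
    intro a b ha hb hab hbM
    have haR : (0:ℝ) < a := by exact_mod_cast ha
    have hbR : (0:ℝ) < b := by exact_mod_cast hb
    have h1 : (a:ℝ) + 1 ≤ b := by exact_mod_cast hab
    have h2 : Real.log a - Real.log b ≤ a / b - 1 := by
      rw [← Real.log_div haR.ne' hbR.ne']
      exact Real.log_le_sub_one_of_pos (by positivity)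
    have h3 : 1 / M ≤ 1 / b := one_div_le_one_div_of_le hbR hbM
    have h4 : 1 / (b:ℝ) ≤ 1 - a / b := by
      rw [div_le_iff₀ hbR]
      have : (1 - (a:ℝ) / b) * b = b - a := by field_simp
      rw [this]
      linarith
    linarith
  rcases lt_or_gt_of_ne h with h1 | h1
  · have := key u v hu hv h1 hv'
    rw [abs_sub_comm]
    exact this.trans (le_abs_self _)
  · exact (key v u hv hu h1 hu').trans (le_abs_self _)

/-- the frequency of a pair -/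
noncomputable def fr (α : ℝ) (q : ℕ × ℕ) : ℝ := α * (Real.log q.2 - Real.log q.1)

/-- near resonant pairs have the same ratio -/
lemma same_ratio {α ρ M : ℝ} (hα : 0 < α) (hM : 0 < M) (hρM : 2 * ρ * M ^ 2 < α) {q q' : ℕ × ℕ}
    (h1 : 0 < q.1 ∧ 0 < q.2) (h1' : 0 < q'.1 ∧ 0 < q'.2) (h2 : (q.1:ℝ) ≤ M ∧ (q.2:ℝ) ≤ M)
    (h2' : (q'.1:ℝ) ≤ M ∧ (q'.2:ℝ) ≤ M) (j : ℤ) (h3 : |fr α q - 2 * Real.pi * j| < ρ)
    (h3' : |fr α q' - 2 * Real.pi * j| < ρ) : q.1 * q'.2 = q.2 * q'.1 := by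
  by_contra hne
  have g1 := log_gap (u := q.1 * q'.2) (v := q.2 * q'.1) (M := M ^ 2) (Nat.mul_pos h1.1 h1'.2) (Nat.mul_pos h1.2 h1'.1) hne
    (by push_cast; rw [sq]; exact mul_le_mul h2.1 h2'.2 (Nat.cast_nonneg _) hM.le)
    (by push_cast; rw [sq]; exact mul_le_mul h2.2 h2'.1 (Nat.cast_nonneg _) hM.le)
  have p1 : (0:ℝ) < q.1 := by exact_mod_cast h1.1
  have p2 : (0:ℝ) < q.2 := by exact_mod_cast h1.2
  have p1' : (0:ℝ) < q'.1 := by exact_mod_cast h1'.1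
  have p2' : (0:ℝ) < q'.2 := by exact_mod_cast h1'.2
  push_cast at g1
  rw [Real.log_mul p1.ne' p2'.ne', Real.log_mul p2.ne' p1'.ne'] at g1
  have e : fr α q' - fr α q = α * (Real.log q.1 + Real.log q'.2 - (Real.log q.2 + Real.log q'.1)) := by
    unfold fr; ring
  have g2 : α * (1 / M ^ 2) ≤ |fr α q' - fr α q| := by
    rw [e, abs_mul, abs_of_pos hα]
    exact mul_le_mul_of_nonneg_left g1 hα.le
  have g3 : |fr α q' - fr α q| < 2 * ρ := by
    have : fr α q' - fr α q = (fr α q' - 2 * Real.pi * j) - (fr α q - 2 * Real.pi * j) := by ring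
    rw [this]
    refine (abs_sub _ _).trans_lt ?_
    linarith
  have g4 : α * (1 / M ^ 2) < 2 * ρ := g2.trans_lt g3
  rw [mul_one_div, div_lt_iff₀ (by positivity)] at g4
  linarith

/-- the near resonant pairs of index `j` -/
noncomputable def NR (α ρ : ℝ) (F : Finset ℕ) (j : ℤ) : Finset (ℕ × ℕ) := by
  classical
  exact (F ×ˢ F).filter fun q => |fr α q - 2 * Real.pi * j| < ρ ∧ round (fr α q / (2 * Real.pi)) = j

lemma mem_NR {α ρ : ℝ} {F : Finset ℕ} {j : ℤ} {q : ℕ × ℕ} : q ∈ NR α ρ F j ↔ (q.1 ∈ F ∧ q.2 ∈ F) ∧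
    |fr α q - 2 * Real.pi * j| < ρ ∧ round (fr α q / (2 * Real.pi)) = j := by
  unfold NR
  rw [Finset.mem_filter, Finset.mem_product]

/-- the far pairs -/
noncomputable def FP (α ρ : ℝ) (F : Finset ℕ) : Finset (ℕ × ℕ) := by
  classical
  exact (F ×ˢ F).filter fun q => ρ ≤ |fr α q - 2 * Real.pi * (round (fr α q / (2 * Real.pi)) : ℤ)|

lemma far_all {α ρ : ℝ} {F : Finset ℕ} {q : ℕ × ℕ} (hq : q ∈ FP α ρ F) (j : ℤ) : ρ ≤ |fr α q - 2 * Real.pi * j| := by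
  classical
  unfold FP at hq
  have h1 := (Finset.mem_filter.1 hq).2
  have hπ := Real.pi_pos
  have h2 := round_le (fr α q / (2 * Real.pi)) j
  have e : ∀ i : ℤ, fr α q - 2 * Real.pi * i = 2 * Real.pi * (fr α q / (2 * Real.pi) - i) := by
    intro i; field_simp
  rw [e, abs_mul, abs_of_pos (by positivity)] at h1 ⊢
  exact h1.trans (mul_le_mul_of_nonneg_left h2 (by positivity))

/-- splitting the quadratic form -/
lemma split (α ρ : ℝ) (F : Finset ℕ) (f : ℕ × ℕ → ℝ) :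
    ∑ q ∈ F ×ˢ F, f q = ∑ q ∈ FP α ρ F, f q + ∑' j : ℤ, ∑ q ∈ NR α ρ F j, f q := by
  classical
  obtain ⟨N, hN⟩ : ∃ N, N = (F ×ˢ F).filter fun q => ¬ ρ ≤ |fr α q - 2 * Real.pi * (round (fr α q / (2 * Real.pi)) : ℤ)| := ⟨_, rfl⟩
  have h1 : ∑ q ∈ F ×ˢ F, f q = ∑ q ∈ FP α ρ F, f q + ∑ q ∈ N, f q := by
    rw [hN]
    unfold FP
    exact (Finset.sum_filter_add_sum_filter_not _ _ _).symm
  rw [h1]
  congr 1
  have h2 : ∀ j : ℤ, NR α ρ F j = N.filter fun q => round (fr α q / (2 * Real.pi)) = j := by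
    intro j
    ext q
    rw [mem_NR, hN, Finset.mem_filter, Finset.mem_filter, Finset.mem_product, not_le]
    constructor
    · rintro ⟨a1, a2, a3⟩
      exact ⟨⟨a1, by rw [a3]; exact a2⟩, a3⟩
    · rintro ⟨⟨a1, a2⟩, a3⟩
      exact ⟨a1, by rw [a3] at a2; exact a2, a3⟩
  have h3 : ∑' j : ℤ, ∑ q ∈ NR α ρ F j, f q = ∑ j ∈ N.image fun q => round (fr α q / (2 * Real.pi)),
      ∑ q ∈ NR α ρ F j, f q := by
    refine tsum_eq_sum fun j hj => ?_
    rw [h2]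
    refine Finset.sum_eq_zero fun q hq => ?_
    exfalso
    rw [Finset.mem_filter] at hq
    exact hj (Finset.mem_image.2 ⟨q, hq.1, hq.2⟩)
  rw [h3]
  simp only [h2]
  exact (Finset.sum_fiberwise_of_maps_to (fun q hq => Finset.mem_image_of_mem _ hq) f).symm

/-- the reduced pair of a pair -/
lemma reduced {n m : ℕ} (hn : 0 < n) (hm : 0 < m) : ∃ a b g : ℕ, 1 ≤ a ∧ 1 ≤ b ∧ 1 ≤ g ∧ Nat.Coprime a b ∧
    n = a * g ∧ m = b * g := by
  have hg : 0 < Nat.gcd n m := Nat.gcd_pos_of_pos_left m hn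
  refine ⟨n / Nat.gcd n m, m / Nat.gcd n m, Nat.gcd n m, ?_, ?_, hg, Nat.coprime_div_gcd_div_gcd hg, ?_, ?_⟩
  · exact Nat.div_pos (Nat.gcd_le_left m hn) hg
  · exact Nat.div_pos (Nat.gcd_le_right n hm) hg
  · exact (Nat.div_mul_cancel (Nat.gcd_dvd_left n m)).symm
  · exact (Nat.div_mul_cancel (Nat.gcd_dvd_right n m)).symm

/-- the contribution of the near resonant pairs of index `j` -/
lemma near_le {k : ℝ} (hk : 0 < k) : ∃ C : ℝ, 0 < C ∧ ∀ (α ρ M δ y : ℝ) (K : ℕ) (j : ℤ), 0 < α → 0 < M → 0 < δ →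
    2 * ρ * M ^ 2 < α → (∀ n ∈ FS y K, 1 ≤ n ∧ (n:ℝ) ≤ M) →
    (NR α ρ (FS y K) j = ∅ ∨ ∃ a b : ℕ, 1 ≤ a ∧ 1 ≤ b ∧ Nat.Coprime a b ∧
      |α * (Real.log b - Real.log a) - 2 * Real.pi * j| < ρ ∧
      ∑ q ∈ NR α ρ (FS y K) j, cq k δ q ≤ C * ((a * b : ℕ) : ℝ) ^ (-(1 / 4 : ℝ)) * TD k δ 1 1) := by
  classical
  obtain ⟨C, hC, hCe⟩ := t_emb k hk
  refine ⟨C ^ 2, by positivity, fun α ρ M δ y K j hα hM hδ hρM hF => ?_⟩
  rcases Finset.eq_empty_or_nonempty (NR α ρ (FS y K) j) with h0 | ⟨q0, hq0⟩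
  · exact Or.inl h0
  right
  obtain ⟨⟨q1, q2⟩, q3, -⟩ := mem_NR.1 hq0
  obtain ⟨a, b, g, ha, hb, hg, hab, e1, e2⟩ := reduced (hF _ q1).1 (hF _ q2).1
  have haR : (0:ℝ) < a := by exact_mod_cast ha
  have hbR : (0:ℝ) < b := by exact_mod_cast hb
  have hgR : (0:ℝ) < g := by exact_mod_cast hg
  refine ⟨a, b, ha, hb, hab, ?_, ?_⟩
  · have : α * (Real.log b - Real.log a) = fr α q0 := by
      unfold fr
      rw [e1, e2]
      push_cast
      rw [Real.log_mul haR.ne' hgR.ne', Real.log_mul hbR.ne' hgR.ne']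
      ring
    rw [this]
    exact q3
  · have hsub : NR α ρ (FS y K) j ⊆ (FS y K ×ˢ FS y K).filter fun q => q.1 * b = q.2 * a := by
      intro q hq
      obtain ⟨⟨r1, r2⟩, r3, -⟩ := mem_NR.1 hq
      rw [Finset.mem_filter, Finset.mem_product]
      refine ⟨⟨r1, r2⟩, ?_⟩
      have h5 := same_ratio hα hM hρM ⟨(hF _ r1).1, (hF _ r2).1⟩ ⟨(hF _ q1).1, (hF _ q2).1⟩
        ⟨(hF _ r1).2, (hF _ r2).2⟩ ⟨(hF _ q1).2, (hF _ q2).2⟩ j r3 q3
      rw [e1, e2, ← mul_assoc, ← mul_assoc] at h5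
      exact Nat.eq_of_mul_eq_mul_right hg h5
    have h6 : ∑ q ∈ NR α ρ (FS y K) j, cq k δ q ≤ TDt k δ y K a b :=
      Finset.sum_le_sum_of_subset_of_nonneg hsub fun q _ _ => cq_nonneg hk δ q
    obtain ⟨-, t1, t2, t3, t4⟩ := t_tdb k δ hk hδ a b ha hb
    have h7 := (t4 y K hab).2
    have h8 : eM k a * eM k b ≤ C ^ 2 * ((a * b : ℕ) : ℝ) ^ (-(1 / 4 : ℝ)) := by
      have u1 := hCe a ha
      have u2 := hCe b hb
      have u3 : 0 ≤ eM k b := eM_nonneg hk b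
      push_cast
      rw [Real.mul_rpow haR.le hbR.le]
      calc eM k a * eM k b ≤ (C * (a:ℝ) ^ (-(1 / 4 : ℝ))) * (C * (b:ℝ) ^ (-(1 / 4 : ℝ))) :=
            mul_le_mul u1 u2 u3 (by positivity)
        _ = _ := by ring
    exact h6.trans (h7.trans (t3.trans (mul_le_mul_of_nonneg_right h8 t1.le)))

end Run7.h310.SP
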