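import Pool.Agent.Run7.h310.SP.B3

set_option autoImplicit false

/-! # Project SP: the quadratic form along arithmetic progressions -/

namespace Run7.h310.SP

open Finset Filter MeasureTheory Topology Complex
open Pool.Agent.N748.MG

lemma exp_abs_summable {c : ℝ} (hc : 0 < c) : Summable fun j : ℤ => Real.exp (-(c * |(j:ℝ)|)) := by
  have h1 : Summable fun n : ℕ => Real.exp (-c) ^ n :=
    summable_geometric_of_lt_one (Real.exp_pos _).le (by rw [Real.exp_lt_one_iff]; linarith)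
  have h2 : ∀ n : ℕ, Real.exp (-c) ^ n = Real.exp (-(c * |((n:ℤ):ℝ)|)) := by
    intro n
    rw [← Real.exp_nat_mul]
    congr 1
    have : |((n:ℤ):ℝ)| = n := by simp
    rw [this]
    ring
  have h3 : ∀ n : ℕ, Real.exp (-c) ^ n = Real.exp (-(c * |((-(n:ℤ) : ℤ):ℝ)|)) := by
    intro n
    rw [h2]
    congr 3
    push_cast
    rw [abs_neg]
  exact Summable.of_nat_of_neg (h1.congr h2) (h1.congr h3)

lemma ab_bound {α ρ : ℝ} (hα : 0 < α) (hρα : ρ ≤ α) {a b : ℕ} (ha : 1 ≤ a) (hb : 1 ≤ b) (j : ℤ)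
    (h : |α * (Real.log b - Real.log a) - 2 * Real.pi * j| < ρ) :
    ((a * b : ℕ) : ℝ) ^ (-(1 / 4 : ℝ)) ≤ Real.exp (1 / 4) * Real.exp (-(Real.pi / (2 * α) * |(j:ℝ)|)) := by
  have haR : (1:ℝ) ≤ a := by exact_mod_cast ha
  have hbR : (1:ℝ) ≤ b := by exact_mod_cast hb
  have hla := Real.log_nonneg haR
  have hlb := Real.log_nonneg hbR
  have hπ := Real.pi_pos
  have h0 : (0:ℝ) < a * b := by positivity
  push_cast
  rw [Real.rpow_def_of_pos h0, ← Real.exp_add, Real.log_mul (by linarith) (by linarith)]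
  apply Real.exp_le_exp.2
  have h1 : |Real.log b - Real.log a| ≤ Real.log a + Real.log b := by
    rw [abs_le]; constructor <;> linarith
  have h2 : 2 * Real.pi * |(j:ℝ)| ≤ α * |Real.log b - Real.log a| + ρ := by
    have e1 : 2 * Real.pi * |(j:ℝ)| = |2 * Real.pi * j| := by rw [abs_mul, abs_of_pos (by positivity : (0:ℝ) < 2 * Real.pi)]
    have e2 : α * |Real.log b - Real.log a| = |α * (Real.log b - Real.log a)| := by rw [abs_mul, abs_of_pos hα]
    rw [e1, e2]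
    have := abs_sub_abs_le_abs_sub (2 * Real.pi * j) (α * (Real.log b - Real.log a))
    rw [abs_sub_comm (2 * Real.pi * (j:ℝ))] at this
    linarith
  have h3 : 2 * Real.pi * |(j:ℝ)| ≤ α * (Real.log a + Real.log b + 1) := by nlinarith
  have h4 : Real.pi / (2 * α) * |(j:ℝ)| = (2 * Real.pi * |(j:ℝ)|) / (4 * α) := by field_simp; ring
  have h5 : (2 * Real.pi * |(j:ℝ)|) / (4 * α) ≤ (α * (Real.log a + Real.log b + 1)) / (4 * α) := by gcongr
  have h6 : (α * (Real.log a + Real.log b + 1)) / (4 * α) = (Real.log a + Real.log b + 1) / 4 := by field_simp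
  linarith

lemma TD_ge_one {k δ : ℝ} (hk : 0 < k) (hδ : 0 < δ) : 1 ≤ TD k δ 1 1 := by
  rw [TD_eq]
  have h1 := (tf11_summable hk hδ).le_tsum 1 fun g _ => tf_nonneg hk δ 1 1 g
  have h2 : tf k δ 1 1 1 = 1 := by
    unfold tf
    rw [mul_one, dR_one, wN_one]
    norm_num
  linarith

/-- the resonant coefficients -/
noncomputable def res (k α : ℝ) (j : ℤ) : ℝ := by
  classical
  exact if h : ∃ q : ℕ × ℕ, 1 ≤ q.1 ∧ 1 ≤ q.2 ∧ Nat.Coprime q.1 q.2 ∧
    α * (Real.log q.2 - Real.log q.1) = 2 * Real.pi * j then tw k h.choose.1 h.choose.2 else 0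

/-- the terms -/
noncomputable def ft (k α β δ ρ y : ℝ) (K i0 n : ℕ) (j : ℤ) : ℝ :=
  (∑ q ∈ NR α ρ (FS y K) j, cq k δ q * Wc (SA α β i0 n) (Real.log q.2 - Real.log q.1)) /
    ((SA α β i0 n).card * TD k δ 1 1)

lemma ft_le {k α β δ ρ y : ℝ} (hk : 0 < k) (hδ : 0 < δ) (K i0 n : ℕ) (j : ℤ) (hc : (0:ℝ) < (SA α β i0 n).card) :
    |ft k α β δ ρ y K i0 n j| ≤ (∑ q ∈ NR α ρ (FS y K) j, cq k δ q) / TD k δ 1 1 := by
  have hT : 0 < TD k δ 1 1 := by linarith [TD_ge_one hk hδ]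
  unfold ft
  rw [abs_div, abs_of_pos (mul_pos hc hT), div_le_div_iff₀ (mul_pos hc hT) hT]
  have h1 : |∑ q ∈ NR α ρ (FS y K) j, cq k δ q * Wc (SA α β i0 n) (Real.log q.2 - Real.log q.1)| ≤
      (∑ q ∈ NR α ρ (FS y K) j, cq k δ q) * (SA α β i0 n).card := by
    refine (Finset.abs_sum_le_sum_abs _ _).trans ?_
    rw [Finset.sum_mul]
    refine Finset.sum_le_sum fun q _ => ?_
    rw [abs_mul, abs_of_nonneg (cq_nonneg hk δ q)]
    exact mul_le_mul_of_nonneg_left (Wc_le _ _) (cq_nonneg hk δ q)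
  calc _ ≤ ((∑ q ∈ NR α ρ (FS y K) j, cq k δ q) * (SA α β i0 n).card) * TD k δ 1 1 :=
        mul_le_mul_of_nonneg_right h1 hT.le
    _ = _ := by ring

/-- the standing assumptions for the parameters at stage `n` -/
structure St (C0 α β : ℝ) (i0 n : ℕ) (X δ y : ℝ) (K : ℕ) : Prop where
  hX : 1 ≤ X
  hδ : 0 < δ
  hδ1 : δ ≤ 1 / 16
  hy : 2 ≤ y
  hM : Real.exp (K * Real.log y) ≤ X ^ (1 / 8 : ℝ)
  hM2 : Real.exp (C0 * ((K + 1) * Real.log y)) ^ 2 ≤ X ^ (1 / 8 : ℝ)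
  hF : ∀ m ∈ FS y K, 1 ≤ m ∧ (m:ℝ) ≤ Real.exp (K * Real.log y)
  hρ : 2 * X ^ (-(1 / 2) : ℝ) * Real.exp (K * Real.log y) ^ 2 < α
  hρ1 : X ^ (-(1 / 2) : ℝ) ≤ α
  hc : (0:ℝ) < (SA α β i0 n).card

lemma St.bound {k : ℝ} (hk : 0 < k) : ∃ C : ℝ, 0 < C ∧ ∀ (C0 α β : ℝ) (i0 n : ℕ) (X δ y : ℝ) (K : ℕ), 0 < α →
    St C0 α β i0 n X δ y K → ∀ j : ℤ,
    |ft k α β δ (X ^ (-(1 / 2) : ℝ)) y K i0 n j| ≤ C * Real.exp (-(Real.pi / (2 * α) * |(j:ℝ)|)) ∧
    (ft k α β δ (X ^ (-(1 / 2) : ℝ)) y K i0 n j = 0 ∨ ∃ a b : ℕ, 1 ≤ a ∧ 1 ≤ b ∧ Nat.Coprime a b ∧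
      |α * (Real.log b - Real.log a) - 2 * Real.pi * j| < X ^ (-(1 / 2) : ℝ) ∧
      |ft k α β δ (X ^ (-(1 / 2) : ℝ)) y K i0 n j| ≤ C * ((a * b : ℕ) : ℝ) ^ (-(1 / 4 : ℝ))) := by
  obtain ⟨C, hC, hn⟩ := near_le hk
  refine ⟨C * Real.exp (1 / 4) + C, by positivity, fun C0 α β i0 n X δ y K hα st j => ?_⟩
  have hT : 0 < TD k δ 1 1 := by linarith [TD_ge_one hk st.hδ]
  have hX0 : 0 < X := by linarith [st.hX]
  have h1 := ft_le (α := α) (β := β) (ρ := X ^ (-(1 / 2) : ℝ)) (y := y) hk st.hδ K i0 n j st.hc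
  have he : 0 < Real.exp (-(Real.pi / (2 * α) * |(j:ℝ)|)) := Real.exp_pos _
  rcases hn α (X ^ (-(1 / 2) : ℝ)) (Real.exp (K * Real.log y)) δ y K j hα (Real.exp_pos _) st.hδ st.hρ st.hF with
    h0 | ⟨a, b, ha, hb, hab, h2, h3⟩
  · have h4 : ft k α β δ (X ^ (-(1 / 2) : ℝ)) y K i0 n j = 0 := by
      unfold ft
      rw [h0]
      simp
    refine ⟨?_, Or.inl h4⟩
    rw [h4, abs_zero]
    positivity
  · have h4 : |ft k α β δ (X ^ (-(1 / 2) : ℝ)) y K i0 n j| ≤ C * ((a * b : ℕ) : ℝ) ^ (-(1 / 4 : ℝ)) := by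
      refine h1.trans ?_
      rw [div_le_iff₀ hT]
      exact h3
    have h5 := ab_bound hα st.hρ1 ha hb j h2
    have h6 : 0 ≤ ((a * b : ℕ) : ℝ) ^ (-(1 / 4 : ℝ)) := Real.rpow_nonneg (Nat.cast_nonneg _) _
    refine ⟨?_, Or.inr ⟨a, b, ha, hb, hab, h2, ?_⟩⟩
    · calc |ft k α β δ (X ^ (-(1 / 2) : ℝ)) y K i0 n j| ≤ C * ((a * b : ℕ) : ℝ) ^ (-(1 / 4 : ℝ)) := h4
        _ ≤ C * (Real.exp (1 / 4) * Real.exp (-(Real.pi / (2 * α) * |(j:ℝ)|))) := mul_le_mul_of_nonneg_left h5 hC.le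
        _ ≤ (C * Real.exp (1 / 4) + C) * Real.exp (-(Real.pi / (2 * α) * |(j:ℝ)|)) := by nlinarith [mul_pos hC he]
    · refine h4.trans (mul_le_mul_of_nonneg_right ?_ h6)
      have : 0 < C * Real.exp (1 / 4) := by positivity
      linarith

/-- the exactly resonant terms -/
lemma St.exact {k : ℝ} {C0 α β : ℝ} {i0 n : ℕ} {X δ y : ℝ} {K : ℕ} (hα : 0 < α) (st : St C0 α β i0 n X δ y K)
    {a b : ℕ} (ha : 1 ≤ a) (hb : 1 ≤ b) {j : ℤ} (hj : α * (Real.log b - Real.log a) = 2 * Real.pi * j)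
    (hX : X ^ (-(1 / 2) : ℝ) * (X ^ (1 / 8 : ℝ) * (a * b)) < α) :
    ft k α β δ (X ^ (-(1 / 2) : ℝ)) y K i0 n j = TDt k δ y K a b / TD k δ 1 1 * Real.cos (2 * Real.pi * j * β / α) := by
  classical
  have hX0 : 0 < X := by linarith [st.hX]
  have hρ0 : 0 < X ^ (-(1 / 2) : ℝ) := Real.rpow_pos_of_pos hX0 _
  have hX8 : 0 < X ^ (1 / 8 : ℝ) := Real.rpow_pos_of_pos hX0 _
  have haR : (1:ℝ) ≤ a := by exact_mod_cast ha
  have hbR : (1:ℝ) ≤ b := by exact_mod_cast hb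
  have hπ := Real.pi_pos
  have hset : NR α (X ^ (-(1 / 2) : ℝ)) (FS y K) j = (FS y K ×ˢ FS y K).filter fun q => q.1 * b = q.2 * a := by
    ext q
    rw [mem_NR, Finset.mem_filter, Finset.mem_product]
    refine and_congr_right fun hq => ?_
    have q1 := (st.hF _ hq.1).1
    have q2 := (st.hF _ hq.2).1
    have q1R : (1:ℝ) ≤ q.1 := by exact_mod_cast q1
    have q2R : (1:ℝ) ≤ q.2 := by exact_mod_cast q2
    constructor
    · rintro ⟨h1, -⟩
      by_contra hne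
      have g1 := log_gap (u := q.2 * a) (v := q.1 * b) (M := X ^ (1 / 8 : ℝ) * (a * b)) (Nat.mul_pos q2 ha)
        (Nat.mul_pos q1 hb) (fun h => hne h.symm)
        (by
          push_cast
          exact mul_le_mul ((st.hF _ hq.2).2.trans st.hM) (by nlinarith) (by linarith) hX8.le)
        (by
          push_cast
          exact mul_le_mul ((st.hF _ hq.1).2.trans st.hM) (by nlinarith) (by linarith) hX8.le)
      push_cast at g1
      rw [Real.log_mul (by linarith) (by linarith), Real.log_mul (by linarith) (by linarith)] at g1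
      have e : fr α q - 2 * Real.pi * j = α * (Real.log q.2 + Real.log a - (Real.log q.1 + Real.log b)) := by
        rw [← hj]
        unfold fr
        ring
      rw [e, abs_mul, abs_of_pos hα] at h1
      have g2 := (mul_le_mul_of_nonneg_left g1 hα.le).trans_lt h1
      rw [mul_one_div, div_lt_iff₀ (by positivity)] at g2
      linarith
    · intro h1
      have h2 : fr α q = 2 * Real.pi * j := by
        rw [← hj]
        unfold fr
        congr 1
        have h3 : Real.log ((q.1 * b : ℕ) : ℝ) = Real.log ((q.2 * a : ℕ) : ℝ) := by rw [h1]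
        push_cast at h3
        rw [Real.log_mul (by linarith) (by linarith), Real.log_mul (by linarith) (by linarith)] at h3
        linarith
      rw [h2, sub_self, abs_zero]
      refine ⟨hρ0, ?_⟩
      have : 2 * Real.pi * (j:ℝ) / (2 * Real.pi) = j := by field_simp
      rw [this, round_intCast]
  unfold ft
  rw [hset]
  have h2 : ∀ q ∈ (FS y K ×ˢ FS y K).filter fun q => q.1 * b = q.2 * a,
      cq k δ q * Wc (SA α β i0 n) (Real.log q.2 - Real.log q.1) =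
      cq k δ q * (((SA α β i0 n).card : ℝ) * Real.cos (2 * Real.pi * j * β / α)) := by
    intro q hq
    rw [← hset] at hq
    obtain ⟨hq0, h3, -⟩ := mem_NR.1 hq
    have hq1 := (Finset.mem_filter.1 (hset ▸ hq)).2
    have q1 := (st.hF _ hq0.1).1
    have q2 := (st.hF _ hq0.2).1
    have q1R : (1:ℝ) ≤ q.1 := by exact_mod_cast q1
    have q2R : (1:ℝ) ≤ q.2 := by exact_mod_cast q2
    have h4 : α * (Real.log q.2 - Real.log q.1) = 2 * Real.pi * j := by
      rw [← hj]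
      congr 1
      have h3 : Real.log ((q.1 * b : ℕ) : ℝ) = Real.log ((q.2 * a : ℕ) : ℝ) := by rw [hq1]
      push_cast at h3
      rw [Real.log_mul (by linarith) (by linarith), Real.log_mul (by linarith) (by linarith)] at h3
      linarith
    rw [Wc_res hα β i0 n j h4]
    congr 3
    rw [← h4]
    field_simp
  rw [Finset.sum_congr rfl h2, ← Finset.sum_mul]
  have h3 : ∑ q ∈ (FS y K ×ˢ FS y K).filter (fun q => q.1 * b = q.2 * a), cq k δ q = TDt k δ y K a b := rfl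
  rw [h3]
  have hc := st.hc
  have hT : 0 < TD k δ 1 1 ∨ True := Or.inr trivial
  by_cases hT0 : TD k δ 1 1 = 0
  · rw [hT0]; simp
  · field_simp

end Run7.h310.SP
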