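import Pool.Agent.Run7.h310.SP.B4

set_option autoImplicit false

/-! # Project SP: the asymptotics along arithmetic progressions -/

namespace Run7.h310.SP

open Finset Filter MeasureTheory Topology Complex
open Pool.Agent.N748.MG

lemma pow_small {X : ℕ → ℝ} (hX : Tendsto X atTop atTop) {e : ℝ} (he : 0 < e) :
    Tendsto (fun n => X n ^ (-e)) atTop (𝓝 0) := (tendsto_rpow_neg_atTop he).comp hX

/-- the parameters satisfy the standing assumptions -/
lemma ev_St {X δ : ℕ → ℝ} (hd : AdN X δ) {C0 : ℝ} (hC0 : 0 < C0)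
    (hF : ∀ y : ℝ, 2 ≤ y → ∀ K : ℕ, ∀ m ∈ FS y K, 1 ≤ m ∧ (m:ℝ) ≤ Real.exp (K * Real.log y))
    {α β : ℝ} (hα : 0 < α) (i0 : ℕ) {C : ℝ} (hC8 : 8 ≤ C) (hCC : 16 * C0 ≤ C)
    {y : ℕ → ℝ} {K : ℕ → ℕ} (hyK : ∀ᶠ n in atTop, 2 ≤ y n ∧ C * ((K n + 1) * Real.log (y n)) ≤ Real.log (X n)) :
    ∀ᶠ n in atTop, St C0 α β i0 n (X n) (δ n) (y n) (K n) := by
  have h1 : ∀ᶠ n in atTop, X n ^ (-(1 / 2) : ℝ) ≤ α := (pow_small hd.X0 (by norm_num)).eventually_le_const hα
  have h2 : ∀ᶠ n in atTop, 2 * X n ^ (-(1 / 4) : ℝ) < α := by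
    have := (pow_small hd.X0 (show (0:ℝ) < 1 / 4 by norm_num)).const_mul 2
    rw [mul_zero] at this
    exact this.eventually_lt_const hα
  have hlt : ∀ᶠ n in atTop, δ n ≤ 1 / 16 := hd.t0.eventually_le_const (by norm_num)
  filter_upwards [hyK, hd.pos, hlt, hd.X0.eventually_ge_atTop 1, h1, h2, eventually_gt_atTop i0] with n ⟨a1, a2⟩ a3 a4 a5 a6 a7 a8
  have hX0 : 0 < X n := by linarith
  have hly : 0 < Real.log (y n) := Real.log_pos (by linarith)
  have hK0 : (0:ℝ) ≤ K n := Nat.cast_nonneg _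
  have hM : Real.exp (K n * Real.log (y n)) ≤ X n ^ (1 / 8 : ℝ) := by
    rw [Real.rpow_def_of_pos hX0]
    apply Real.exp_le_exp.2
    nlinarith [mul_nonneg hK0 hly.le]
  refine ⟨a5, a3, a4, a1, hM, ?_, hF _ a1 _, ?_, a6, ?_⟩
  · rw [Real.rpow_def_of_pos hX0, ← Real.exp_nat_mul]
    apply Real.exp_le_exp.2
    push_cast
    have : 0 ≤ (K n + 1) * Real.log (y n) := by positivity
    nlinarith
  · have hM2 : Real.exp (K n * Real.log (y n)) ^ 2 ≤ X n ^ (1 / 4 : ℝ) := by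
      calc Real.exp (K n * Real.log (y n)) ^ 2 ≤ (X n ^ (1 / 8 : ℝ)) ^ 2 := pow_le_pow_left₀ (Real.exp_pos _).le hM 2
        _ = X n ^ (1 / 4 : ℝ) := by
          rw [← Real.rpow_natCast, ← Real.rpow_mul hX0.le]
          norm_num
    have hρ0 : 0 < X n ^ (-(1 / 2) : ℝ) := Real.rpow_pos_of_pos hX0 _
    calc 2 * X n ^ (-(1 / 2) : ℝ) * Real.exp (K n * Real.log (y n)) ^ 2 ≤ 2 * X n ^ (-(1 / 2) : ℝ) * X n ^ (1 / 4 : ℝ) :=
          mul_le_mul_of_nonneg_left hM2 (by positivity)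
      _ = 2 * X n ^ (-(1 / 4) : ℝ) := by
          rw [mul_assoc, ← Real.rpow_add hX0]
          norm_num
      _ < α := a7
  · rw [SA_card hα]
    exact_mod_cast Nat.sub_pos_of_lt a8

/-- the limits of the terms -/
lemma ft_lim {k : ℝ} (hk : 0 < k) {X δ : ℕ → ℝ} (hd : AdN X δ) {C0 : ℝ}
    {α : ℝ} (hα : 0 < α) (β : ℝ) (i0 : ℕ) : ∃ C : ℝ, 0 < C ∧
    ∀ {y : ℕ → ℝ} {K : ℕ → ℕ}, (∀ᶠ n in atTop, 2 ≤ y n ∧ C * Real.log (1 / δ n) ≤ δ n * Real.log (y n) ∧
      C * Real.log (1 / δ n) ≤ K n) → (∀ᶠ n in atTop, St C0 α β i0 n (X n) (δ n) (y n) (K n)) → ∀ j : ℤ,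
    Tendsto (fun n => ft k α β (δ n) (X n ^ (-(1 / 2) : ℝ)) (y n) (K n) i0 n j) atTop
      (𝓝 (res k α j * Real.cos (2 * Real.pi * j * β / α))) := by
  classical
  obtain ⟨C, hC, hT⟩ := t_tdt2 k 1 hk one_pos
  refine ⟨C, hC, ?_⟩
  intro y K hyK hSt j
  by_cases h : ∃ q : ℕ × ℕ, 1 ≤ q.1 ∧ 1 ≤ q.2 ∧ Nat.Coprime q.1 q.2 ∧
    α * (Real.log q.2 - Real.log q.1) = 2 * Real.pi * j
  · obtain ⟨ha, hb, hab, hj⟩ := h.choose_spec
    obtain ⟨a, ha'⟩ : ∃ a, a = h.choose.1 := ⟨_, rfl⟩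
    obtain ⟨b, hb'⟩ : ∃ b, b = h.choose.2 := ⟨_, rfl⟩
    have hres : res k α j = tw k a b := by
      unfold res
      rw [dif_pos h, ha', hb']
    rw [← ha'] at ha hab hj
    rw [← hb'] at hb hab hj
    rw [hres]
    have haR : (1:ℝ) ≤ a := by exact_mod_cast ha
    have hbR : (1:ℝ) ≤ b := by exact_mod_cast hb
    obtain ⟨δ0, hδ0, hT2⟩ := hT a b ha hb hab
    have h1 : ∀ᶠ n in atTop, X n ^ (-(1 / 2) : ℝ) * (X n ^ (1 / 8 : ℝ) * (a * b)) < α := by
      have h2 := (pow_small hd.X0 (show (0:ℝ) < 3 / 8 by norm_num)).mul_const ((a:ℝ) * b)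
      rw [zero_mul] at h2
      filter_upwards [h2.eventually_lt_const hα, hd.X0.eventually_ge_atTop 1] with n h3 h4
      have : X n ^ (-(1 / 2) : ℝ) * (X n ^ (1 / 8 : ℝ) * (a * b)) = X n ^ (-(3 / 8) : ℝ) * (a * b) := by
        rw [← mul_assoc, ← Real.rpow_add (by linarith)]
        norm_num
      rw [this]
      exact h3
    have hdn : Tendsto δ atTop (𝓝[>] 0) := tendsto_nhdsWithin_iff.2 ⟨hd.t0, hd.pos⟩
    have l2 : Tendsto (fun n => TD k (δ n) a b / TD k (δ n) 1 1) atTop (𝓝 (tw k a b)) :=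
      (t_tdl k hk a b ha hb hab).comp hdn
    have l3 : Tendsto (fun n => TDt k (δ n) (y n) (K n) a b / TD k (δ n) 1 1 - TD k (δ n) a b / TD k (δ n) 1 1) atTop (𝓝 0) := by
      refine squeeze_zero_norm' ?_ hd.t0
      filter_upwards [hyK, hd.pos, hd.t0.eventually_le_const hδ0] with n ⟨a1, a2, a3⟩ a4 a5
      have g1 := hT2 (δ n) a4 a5 (y n) (K n) a1 a2 a3
      rw [Real.rpow_one] at g1
      have g2 := TD_ge_one hk a4
      rw [← sub_div, Real.norm_eq_abs, abs_div, abs_of_pos (by linarith : 0 < TD k (δ n) 1 1)]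
      rw [div_le_iff₀ (by linarith)]
      nlinarith
    have l4 := (l3.add l2).mul_const (Real.cos (2 * Real.pi * j * β / α))
    rw [zero_add] at l4
    refine l4.congr' ?_
    filter_upwards [hSt, h1] with n a1 a2
    rw [a1.exact hα ha hb hj a2]
    ring
  · have hres : res k α j = 0 := by
      unfold res
      rw [dif_neg h]
    rw [hres, zero_mul]
    obtain ⟨Ck, hCk, hb⟩ := St.bound hk
    rw [Metric.tendsto_atTop']
    intro ε hε
    -- choose B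
    obtain ⟨B, hB⟩ : ∃ B : ℕ, ∀ m : ℕ, B < m → Ck * (m:ℝ) ^ (-(1 / 4 : ℝ)) < ε := by
      have h1 : Tendsto (fun m : ℕ => Ck * (m:ℝ) ^ (-(1 / 4 : ℝ))) atTop (𝓝 (Ck * 0)) :=
        ((tendsto_rpow_neg_atTop (by norm_num : (0:ℝ) < 1 / 4)).comp tendsto_natCast_atTop_atTop).const_mul Ck
      rw [mul_zero] at h1
      obtain ⟨B, hB⟩ := eventually_atTop.1 (h1.eventually_lt_const hε)
      exact ⟨B, fun m hm => hB m hm.le⟩
    have hfin : ∀ᶠ n in atTop, ∀ q ∈ (Finset.Icc 1 B) ×ˢ (Finset.Icc 1 B), Nat.Coprime q.1 q.2 →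
        X n ^ (-(1 / 2) : ℝ) ≤ |α * (Real.log q.2 - Real.log q.1) - 2 * Real.pi * j| := by
      rw [Filter.eventually_all_finset]
      intro q hq
      rw [Finset.mem_product, Finset.mem_Icc, Finset.mem_Icc] at hq
      by_cases hc : Nat.Coprime q.1 q.2
      · have hne : 0 < |α * (Real.log q.2 - Real.log q.1) - 2 * Real.pi * j| := by
          rw [abs_pos, sub_ne_zero]
          intro h0
          exact h ⟨q, hq.1.1, hq.2.1, hc, h0⟩
        filter_upwards [(pow_small hd.X0 (show (0:ℝ) < 1 / 2 by norm_num)).eventually_le_const hne] with n hn _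
        exact hn
      · exact Eventually.of_forall fun n hc' => absurd hc' hc
    obtain ⟨N, hN⟩ := eventually_atTop.1 (hfin.and hSt)
    refine ⟨N, fun n hn => ?_⟩
    obtain ⟨g1, st⟩ := hN n hn.le
    rw [Real.dist_eq, sub_zero]
    rcases (hb C0 α β i0 n (X n) (δ n) (y n) (K n) hα st j).2 with h0 | ⟨a, b, ha, hb', hab, h2, h3⟩
    · rw [h0, abs_zero]
      exact hε
    · refine h3.trans_lt (hB _ ?_)
      by_contra hle
      push Not at hle
      have haB : a ≤ B := le_trans (Nat.le_mul_of_pos_right a hb') hle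
      have hbB : b ≤ B := le_trans (Nat.le_mul_of_pos_left b ha) hle
      have := g1 (a, b) (Finset.mem_product.2 ⟨Finset.mem_Icc.2 ⟨ha, haB⟩, Finset.mem_Icc.2 ⟨hb', hbB⟩⟩) hab
      simp only at this
      linarith

/-- the constant of the arithmetic progression -/
noncomputable def cAP (k α β : ℝ) : ℝ := ∑' j : ℤ, res k α j * Real.cos (2 * Real.pi * j * β / α)

/-- the mean of the polynomials along an arithmetic progression -/
theorem qf_ap {X δ : ℕ → ℝ} (hd : AdN X δ) {α : ℝ} (hα : 0 < α) (β : ℝ) (i0 : ℕ) {c1 : ℝ} (hc1 : 0 < c1)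
    (hcard : ∀ᶠ n in atTop, c1 * X n ≤ (SA α β i0 n).card) {k : ℝ} (hk : 0 < k) :
    QF X δ (fun n => SA α β i0 n) k ((aC k).re * cAP k α β) := by
  classical
  obtain ⟨C0, hC00, hC0⟩ := SIZ.main k hk.le
  obtain ⟨C1, hC1, hlim⟩ := ft_lim (C0 := C0) hk hd hα β i0
  obtain ⟨Ck, hCk, hb⟩ := St.bound hk
  refine ⟨max C1 (8 + 16 * C0), lt_max_of_lt_left hC1, fun y K hyK => ?_⟩
  have hlt : ∀ᶠ n in atTop, δ n ≤ 1 / 16 := hd.t0.eventually_le_const (by norm_num)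
  have hSt : ∀ᶠ n in atTop, St C0 α β i0 n (X n) (δ n) (y n) (K n) := by
    refine ev_St hd hC00 (fun y hy K => (hC0 y hy K).1) hα i0 (C := 8 + 16 * C0) (by linarith) (by linarith) ?_
    filter_upwards [hyK] with n ⟨a1, _, _, a4⟩
    have hly : 0 ≤ Real.log (y n) := Real.log_nonneg (by linarith)
    exact ⟨a1, (mul_le_mul_of_nonneg_right (le_max_right _ _) (by positivity)).trans a4⟩
  have hj := hlim (y := y) (K := K) (by
    filter_upwards [hyK, hd.pos, hlt] with n ⟨a1, a2, a3, _⟩ a5 a6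
    have hL := log_inv_ge a5 a6
    exact ⟨a1, (mul_le_mul_of_nonneg_right (le_max_left _ _) (by linarith)).trans a2,
      (mul_le_mul_of_nonneg_right (le_max_left _ _) (by linarith)).trans a3⟩) hSt
  -- Tannery
  have hsum : Summable fun j : ℤ => Ck * Real.exp (-(Real.pi / (2 * α) * |(j:ℝ)|)) :=
    (exp_abs_summable (div_pos Real.pi_pos (by linarith))).mul_left Ck
  have hT : Tendsto (fun n => ∑' j : ℤ, ft k α β (δ n) (X n ^ (-(1 / 2) : ℝ)) (y n) (K n) i0 n j) atTop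
      (𝓝 (cAP k α β)) := by
    unfold cAP
    refine tendsto_tsum_of_dominated_convergence hsum hj ?_
    filter_upwards [hSt] with n st j
    exact (hb C0 α β i0 n (X n) (δ n) (y n) (K n) hα st j).1
  -- the far part
  have hfar : Tendsto (fun n => (∑ q ∈ FP α (X n ^ (-(1 / 2) : ℝ)) (FS (y n) (K n)), cq k (δ n) q *
      Wc (SA α β i0 n) (Real.log q.2 - Real.log q.1)) / ((SA α β i0 n).card * TD k (δ n) 1 1)) atTop (𝓝 0) := by
    have h1 : Tendsto (fun n => Real.pi / c1 * X n ^ (-(3 / 8) : ℝ)) atTop (𝓝 0) := by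
      have := (pow_small hd.X0 (show (0:ℝ) < 3 / 8 by norm_num)).const_mul (Real.pi / c1)
      rwa [mul_zero] at this
    refine squeeze_zero_norm' ?_ h1
    filter_upwards [hSt, hcard] with n st hcn
    have hX0 : 0 < X n := by linarith [st.hX]
    have hρ0 : 0 < X n ^ (-(1 / 2) : ℝ) := Real.rpow_pos_of_pos hX0 _
    have hπ := Real.pi_pos
    have hT1 := TD_ge_one hk st.hδ
    have h2 : |∑ q ∈ FP α (X n ^ (-(1 / 2) : ℝ)) (FS (y n) (K n)), cq k (δ n) q *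
        Wc (SA α β i0 n) (Real.log q.2 - Real.log q.1)| ≤ (Real.pi / X n ^ (-(1 / 2) : ℝ)) * X n ^ (1 / 8 : ℝ) := by
      calc _ ≤ ∑ q ∈ FP α (X n ^ (-(1 / 2) : ℝ)) (FS (y n) (K n)), |cq k (δ n) q *
              Wc (SA α β i0 n) (Real.log q.2 - Real.log q.1)| := Finset.abs_sum_le_sum_abs _ _
        _ ≤ ∑ q ∈ FP α (X n ^ (-(1 / 2) : ℝ)) (FS (y n) (K n)), cq k (δ n) q * (Real.pi / X n ^ (-(1 / 2) : ℝ)) := by
            refine Finset.sum_le_sum fun q hq => ?_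
            rw [abs_mul, abs_of_nonneg (cq_nonneg hk _ q)]
            exact mul_le_mul_of_nonneg_left (Wc_far hα β i0 n hρ0 (far_all hq)) (cq_nonneg hk _ q)
        _ ≤ ∑ q ∈ FS (y n) (K n) ×ˢ FS (y n) (K n), cq k (δ n) q * (Real.pi / X n ^ (-(1 / 2) : ℝ)) :=
            Finset.sum_le_sum_of_subset_of_nonneg (Finset.filter_subset _ _) fun q _ _ =>
              mul_nonneg (cq_nonneg hk _ q) (by positivity)
        _ = (Real.pi / X n ^ (-(1 / 2) : ℝ)) * ∑ q ∈ FS (y n) (K n) ×ˢ FS (y n) (K n), cq k (δ n) q := by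
            rw [← Finset.sum_mul, mul_comm]
        _ ≤ (Real.pi / X n ^ (-(1 / 2) : ℝ)) * (∑ m ∈ FS (y n) (K n), |dR k m|) ^ 2 := by
            refine mul_le_mul_of_nonneg_left ?_ (by positivity)
            rw [sq, Finset.sum_mul_sum, Finset.sum_product]
            refine Finset.sum_le_sum fun m hm => Finset.sum_le_sum fun l hl => ?_
            unfold cq
            simp only
            have w1 : wN (δ n) m ≤ 1 := MVS.cc_le_one st.hδ.le (st.hF m hm).1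
            have w2 : wN (δ n) l ≤ 1 := MVS.cc_le_one st.hδ.le (st.hF l hl).1
            have w3 : wN (δ n) m * wN (δ n) l ≤ 1 := mul_le_one₀ w1 (wN_nonneg _ _) w2
            rw [abs_of_pos (dR_pos hk m), abs_of_pos (dR_pos hk l)]
            exact mul_le_of_le_one_right (mul_nonneg (dR_pos hk _).le (dR_pos hk _).le) w3
        _ ≤ (Real.pi / X n ^ (-(1 / 2) : ℝ)) * X n ^ (1 / 8 : ℝ) := by
            refine mul_le_mul_of_nonneg_left ?_ (by positivity)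
            rw [sum_abs_dR hk]
            exact (pow_le_pow_left₀ (Finset.sum_nonneg fun _ _ => norm_nonneg _)
              ((hC0 (y n) st.hy (K n)).2 (k:ℂ) (norm_k hk)) 2).trans st.hM2
    rw [Real.norm_eq_abs, abs_div, abs_of_pos (mul_pos st.hc (by linarith : 0 < TD k (δ n) 1 1))]
    rw [div_le_iff₀ (mul_pos st.hc (by linarith))]
    have h3 : c1 * X n ≤ (SA α β i0 n).card * TD k (δ n) 1 1 := by
      have := st.hc
      nlinarith
    have h4 : (Real.pi / X n ^ (-(1 / 2) : ℝ)) * X n ^ (1 / 8 : ℝ) = Real.pi / c1 * X n ^ (-(3 / 8) : ℝ) * (c1 * X n) := by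
      rw [Real.rpow_neg hX0.le, div_inv_eq_mul]
      have h5 : X n ^ (-(3 / 8) : ℝ) * X n = X n ^ (1 / 2 : ℝ) * X n ^ (1 / 8 : ℝ) := by
        rw [← Real.rpow_add hX0, ← Real.rpow_add_one hX0.ne']
        norm_num
      calc Real.pi * X n ^ (1 / 2 : ℝ) * X n ^ (1 / 8 : ℝ) = Real.pi * (X n ^ (1 / 2 : ℝ) * X n ^ (1 / 8 : ℝ)) := by ring
        _ = Real.pi * (X n ^ (-(3 / 8) : ℝ) * X n) := by rw [h5]
        _ = _ := by field_simp
    refine h2.trans (h4.le.trans ?_)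
    exact mul_le_mul_of_nonneg_left h3 (by positivity)
  have hdn : Tendsto δ atTop (𝓝[>] 0) := tendsto_nhdsWithin_iff.2 ⟨hd.t0, hd.pos⟩
  have l1 : Tendsto (fun n => (2 * δ n) ^ (k ^ 2) * TD k (δ n) 1 1) atTop (𝓝 (aC k).re) := (t_td1 k hk).comp hdn
  have l2 := l1.mul (hfar.add hT)
  rw [zero_add] at l2
  refine l2.congr' ?_
  filter_upwards [hSt] with n st
  have hT1 := TD_ge_one hk st.hδ
  have hT0 : TD k (δ n) 1 1 ≠ 0 := by linarith
  have hc0 := st.hc.ne'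
  have e1 := quad k (δ n) (y n) (K n) (SA α β i0 n)
  rw [split α (X n ^ (-(1 / 2) : ℝ))] at e1
  rw [e1]
  have e2 : ∑' j : ℤ, ft k α β (δ n) (X n ^ (-(1 / 2) : ℝ)) (y n) (K n) i0 n j =
      (∑' j : ℤ, ∑ q ∈ NR α (X n ^ (-(1 / 2) : ℝ)) (FS (y n) (K n)) j, cq k (δ n) q *
        Wc (SA α β i0 n) (Real.log q.2 - Real.log q.1)) / ((SA α β i0 n).card * TD k (δ n) 1 1) := by
    rw [← tsum_div_const]
    rfl
  rw [e2]
  field_simp

end Run7.h310.SP
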