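import Pool.Agent.Run7.h310.SP.B5

set_option autoImplicit false

/-! # Project SP: the truncated moments along arithmetic progressions -/

namespace Run7.h310.SP

open Finset Filter MeasureTheory Topology Complex
open Pool.Agent.N748.MG

/-- admissibility for a sequence of heights comparable with `n` -/
lemma adN_of {d X : ℕ → ℝ} (hd0 : ∀ᶠ n in atTop, 0 < d n) (hd : Tendsto d atTop (𝓝 0))
    (hdL : Tendsto (fun n : ℕ => d n * Real.log n / Real.log (1 / d n) ^ 2) atTop atTop) {a : ℝ} (ha : 0 < a)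
    (hX : ∀ᶠ n : ℕ in atTop, a * n ≤ X n) : AdN X d := by
  have hn : Tendsto (fun n : ℕ => (n:ℝ)) atTop atTop := tendsto_natCast_atTop_atTop
  have hX0 : Tendsto X atTop atTop := tendsto_atTop_mono' _ hX (hn.const_mul_atTop ha)
  refine ⟨hd0, hd, hX0, ?_⟩
  have h1 : ∀ᶠ n : ℕ in atTop, (1 / 2) * Real.log n ≤ Real.log (X n) := by
    have h2 : ∀ᶠ n : ℕ in atTop, -(2 * Real.log a) ≤ Real.log n := (Real.tendsto_log_atTop.comp hn).eventually_ge_atTop _
    filter_upwards [h2, hX, eventually_ge_atTop 1] with n a1 a2 a3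
    have hnR : (1:ℝ) ≤ n := by exact_mod_cast a3
    have h3 := Real.log_le_log (by positivity : (0:ℝ) < a * n) a2
    rw [Real.log_mul ha.ne' (by linarith)] at h3
    linarith
  have h2 : Tendsto (fun n : ℕ => (1 / 2) * (d n * Real.log n / Real.log (1 / d n) ^ 2)) atTop atTop :=
    hdL.const_mul_atTop (by norm_num)
  refine tendsto_atTop_mono' _ ?_ h2
  filter_upwards [h1, hd0] with n a1 a2
  have h3 : 0 ≤ Real.log (1 / d n) ^ 2 := sq_nonneg _
  calc (1 / 2) * (d n * Real.log n / Real.log (1 / d n) ^ 2) = d n * ((1 / 2) * Real.log n) / Real.log (1 / d n) ^ 2 := by ring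
    _ ≤ d n * Real.log (X n) / Real.log (1 / d n) ^ 2 := by gcongr

/-- the truncated moment of the first `n` points of a sequence -/
noncomputable def MI (k c δ : ℝ) (x : ℕ → ℝ) (n : ℕ) : ℝ := by
  classical
  exact (1 / (n : ℝ)) * ∑ i ∈ (Finset.range n).filter (fun i => mz δ (x i) ≤ c), mz δ (x i) ^ (2 * k)

/-- from the sample sets to the sequence: finitely many points may be left out -/
lemma MI_of {x : ℕ → ℝ} (hx : Function.Injective x) {X δ : ℕ → ℝ} (hd : AdN X δ) {E : ℕ} {I : ℕ → Finset ℕ}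
    (hI : ∀ n, I n ⊆ Finset.range n) (hE : ∀ n, (Finset.range n \ I n).card ≤ E) {D' : ℝ}
    (hX : ∀ᶠ n : ℕ in atTop, X n ≤ n * δ n ^ (-D')) {k V l : ℝ} (hk : 0 < k) (hV : 0 < V)
    (h : Tendsto (fun n => (2 * δ n) ^ (k ^ 2) * MS k ((2 * δ n) ^ (-V)) (δ n) ((I n).image x)) atTop (𝓝 l)) :
    Tendsto (fun n => (2 * δ n) ^ (k ^ 2) * MI k ((2 * δ n) ^ (-V)) (δ n) x n) atTop (𝓝 l) := by
  classical
  have hkV : 0 < k * V := mul_pos hk hV
  have hlt : ∀ᶠ n in atTop, δ n ≤ 1 / 16 := hd.t0.eventually_le_const (by norm_num)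
  -- n is large
  have hnX : ∀ᶠ n : ℕ in atTop, X n ^ (1 / 2 : ℝ) ≤ n := by
    have h1 := AdN.app (Ev.win (D := |D'|) (c := 1) (e := 1 / 2) one_pos (by norm_num)) hd
    filter_upwards [h1, hX, hd.pos, hlt, hd.X0.eventually_ge_atTop 1, eventually_ge_atTop 1] with n a1 a2 a3 a4 a5 a6
    have hX0 : 0 < X n := by linarith
    have h2 : δ n ^ (-D') ≤ X n ^ (1 / 2 : ℝ) := by
      refine le_trans ?_ (a1.trans (le_of_eq (one_mul _)))
      exact Real.rpow_le_rpow_of_exponent_ge a3 (by linarith) (neg_le_neg (le_abs_self _))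
    have h3 : X n ≤ n * X n ^ (1 / 2 : ℝ) := a2.trans (mul_le_mul_of_nonneg_left h2 (Nat.cast_nonneg _))
    have h4 : X n = X n ^ (1 / 2 : ℝ) * X n ^ (1 / 2 : ℝ) := by
      rw [← Real.rpow_add hX0]; norm_num
    have h5 : 0 < X n ^ (1 / 2 : ℝ) := Real.rpow_pos_of_pos hX0 _
    by_contra hcon
    push Not at hcon
    have h6 := mul_lt_mul_of_pos_right hcon h5
    linarith
  have hcardI : ∀ n : ℕ, (n:ℝ) - E ≤ ((I n).card : ℝ) ∧ ((I n).card : ℝ) ≤ n := by
    intro n
    have h1 := Finset.card_sdiff_add_card_eq_card (hI n)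
    rw [Finset.card_range] at h1
    have h2 := hE n
    constructor
    · have : (n:ℝ) ≤ (I n).card + E := by exact_mod_cast (by omega : n ≤ (I n).card + E)
      linarith
    · exact_mod_cast (by omega : (I n).card ≤ n)
  have hn : Tendsto (fun n : ℕ => (n:ℝ)) atTop atTop := tendsto_natCast_atTop_atTop
  have hrat : Tendsto (fun n : ℕ => ((I n).card : ℝ) / n) atTop (𝓝 1) := by
    have h1 : Tendsto (fun n : ℕ => 1 - (E:ℝ) / n) atTop (𝓝 1) := by
      have := (tendsto_const_nhds (x := (1:ℝ))).sub ((tendsto_const_nhds (x := (E:ℝ))).div_atTop hn)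
      simpa using this
    refine tendsto_of_tendsto_of_tendsto_of_le_of_le' h1 tendsto_const_nhds ?_ ?_
    · filter_upwards [eventually_ge_atTop 1] with n hn1
      have hnR : (0:ℝ) < n := by exact_mod_cast hn1
      rw [le_div_iff₀ hnR]
      have : (1 - (E:ℝ) / n) * n = n - E := by field_simp
      rw [this]
      exact (hcardI n).1
    · filter_upwards [eventually_ge_atTop 1] with n hn1
      have hnR : (0:ℝ) < n := by exact_mod_cast hn1
      rw [div_le_one hnR]
      exact (hcardI n).2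
  -- the difference
  have hz : Tendsto (fun n => (2 * δ n) ^ (k ^ 2) * MI k ((2 * δ n) ^ (-V)) (δ n) x n -
      ((I n).card : ℝ) / n * ((2 * δ n) ^ (k ^ 2) * MS k ((2 * δ n) ^ (-V)) (δ n) ((I n).image x))) atTop (𝓝 0) := by
    have h1 : Tendsto (fun n => (E:ℝ) * X n ^ (-(1 / 4) : ℝ)) atTop (𝓝 0) := by
      have := (pow_small hd.X0 (show (0:ℝ) < 1 / 4 by norm_num)).const_mul (E:ℝ)
      rwa [mul_zero] at this
    refine squeeze_zero_norm' ?_ h1
    have h2 := AdN.app (Ev.win (D := 2 * k * V) (c := 1) (e := 1 / 4) one_pos (by norm_num)) hd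
    have hcpos : ∀ᶠ n : ℕ in atTop, (E:ℝ) < n := hn.eventually_gt_atTop _
    filter_upwards [h2, hnX, hd.pos, hlt, hd.X0.eventually_ge_atTop 1, eventually_ge_atTop 1, hcpos] with n a1 a2 a3 a4 a5 a6 a7
    have hX0 : 0 < X n := by linarith
    have hnR : (0:ℝ) < n := by exact_mod_cast a6
    have h2δ : 0 < 2 * δ n := by linarith
    obtain ⟨cc, hcc⟩ : ∃ cc : ℝ, cc = (2 * δ n) ^ (-V) := ⟨_, rfl⟩
    have hcc0 : 0 < cc := by rw [hcc]; exact Real.rpow_pos_of_pos h2δ _
    have hIc : (0:ℝ) < (I n).card := by linarith [(hcardI n).1]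
    have hm0 : ∀ (s e : ℝ), 0 ≤ mz (δ n) s ^ e := fun s e => Real.rpow_nonneg (norm_nonneg _) _
    have e1 : MS k cc (δ n) ((I n).image x) = (1 / ((I n).card : ℝ)) *
        ∑ i ∈ (I n).filter (fun i => mz (δ n) (x i) ≤ cc), mz (δ n) (x i) ^ (2 * k) := by
      unfold MS
      rw [Finset.card_image_of_injective _ hx, Finset.filter_image, Finset.sum_image fun i _ j _ h => hx h]
    have e2 : MI k cc (δ n) x n = (1 / (n:ℝ)) *
        (∑ i ∈ (I n).filter (fun i => mz (δ n) (x i) ≤ cc), mz (δ n) (x i) ^ (2 * k) +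
        ∑ i ∈ (Finset.range n \ I n).filter (fun i => mz (δ n) (x i) ≤ cc), mz (δ n) (x i) ^ (2 * k)) := by
      unfold MI
      rw [← Finset.sum_union (Finset.disjoint_filter_filter Finset.disjoint_sdiff), ← Finset.filter_union,
        Finset.union_sdiff_of_subset (hI n)]
    have e3 : 0 ≤ ∑ i ∈ (Finset.range n \ I n).filter (fun i => mz (δ n) (x i) ≤ cc), mz (δ n) (x i) ^ (2 * k) :=
      Finset.sum_nonneg fun s _ => hm0 _ _
    have e4 : ∑ i ∈ (Finset.range n \ I n).filter (fun i => mz (δ n) (x i) ≤ cc), mz (δ n) (x i) ^ (2 * k) ≤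
        E * cc ^ (2 * k) := by
      calc _ ≤ ∑ _i ∈ (Finset.range n \ I n).filter (fun i => mz (δ n) (x i) ≤ cc), cc ^ (2 * k) :=
            Finset.sum_le_sum fun s hs => Real.rpow_le_rpow (norm_nonneg _) (Finset.mem_filter.1 hs).2 (by linarith)
        _ = (((Finset.range n \ I n).filter (fun i => mz (δ n) (x i) ≤ cc)).card : ℝ) * cc ^ (2 * k) := by
            rw [Finset.sum_const, nsmul_eq_mul]
        _ ≤ E * cc ^ (2 * k) := by
            refine mul_le_mul_of_nonneg_right ?_ (by positivity)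
            exact_mod_cast (Finset.card_filter_le _ _).trans (hE n)
    rw [← hcc, e1, e2]
    have e5 : (2 * δ n) ^ (k ^ 2) * (1 / (n:ℝ) *
        (∑ i ∈ (I n).filter (fun i => mz (δ n) (x i) ≤ cc), mz (δ n) (x i) ^ (2 * k) +
        ∑ i ∈ (Finset.range n \ I n).filter (fun i => mz (δ n) (x i) ≤ cc), mz (δ n) (x i) ^ (2 * k))) -
        ((I n).card : ℝ) / n * ((2 * δ n) ^ (k ^ 2) * (1 / ((I n).card : ℝ) *
        ∑ i ∈ (I n).filter (fun i => mz (δ n) (x i) ≤ cc), mz (δ n) (x i) ^ (2 * k))) =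
        (2 * δ n) ^ (k ^ 2) * ((∑ i ∈ (Finset.range n \ I n).filter (fun i => mz (δ n) (x i) ≤ cc),
          mz (δ n) (x i) ^ (2 * k)) / n) := by
      field_simp
      ring
    rw [e5, Real.norm_eq_abs, abs_of_nonneg (mul_nonneg (Real.rpow_nonneg h2δ.le _) (div_nonneg e3 hnR.le))]
    have p1 : (2 * δ n) ^ (k ^ 2) ≤ 1 := Real.rpow_le_one h2δ.le (by linarith) (by positivity)
    have p2 : cc ^ (2 * k) ≤ X n ^ (1 / 4 : ℝ) := by
      rw [hcc, ← Real.rpow_mul h2δ.le]
      refine le_trans ?_ (a1.trans (le_of_eq (one_mul _)))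
      have : -V * (2 * k) = -(2 * k * V) := by ring
      rw [this]
      exact Real.rpow_le_rpow_of_nonpos a3 (by linarith) (by nlinarith)
    have hX2 : 0 < X n ^ (1 / 2 : ℝ) := Real.rpow_pos_of_pos hX0 _
    calc (2 * δ n) ^ (k ^ 2) * ((∑ i ∈ (Finset.range n \ I n).filter (fun i => mz (δ n) (x i) ≤ cc),
          mz (δ n) (x i) ^ (2 * k)) / n) ≤ 1 * ((E * X n ^ (1 / 4 : ℝ)) / X n ^ (1 / 2 : ℝ)) := by
          refine mul_le_mul p1 ?_ (div_nonneg e3 hnR.le) zero_le_one
          refine div_le_div₀ (by positivity) (e4.trans (mul_le_mul_of_nonneg_left p2 (Nat.cast_nonneg _))) hX2 a2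
      _ = E * X n ^ (-(1 / 4) : ℝ) := by
          rw [one_mul, mul_div_assoc, ← Real.rpow_sub hX0]
          norm_num
  have h3 := hz.add (hrat.mul h)
  simpa using h3

/-- truncated moments along every vertical arithmetic progression -/
theorem ap_fin (hR : S_RED) {α : ℝ} (hα : 0 < α) (β : ℝ) {d : ℕ → ℝ} (hd0 : ∀ᶠ n in atTop, 0 < d n)
    (hd : Tendsto d atTop (𝓝 0))
    (hdL : Tendsto (fun n : ℕ => d n * Real.log n / Real.log (1 / d n) ^ 2) atTop atTop) {k V : ℝ} (hk : 0 < k)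
    (hV : k < V) :
    Tendsto (fun n => (2 * d n) ^ (k ^ 2) * MI k ((2 * d n) ^ (-V)) (d n) (fun i => α * i + β) n) atTop
      (𝓝 ((aC k).re * cAP k α β)) := by
  obtain ⟨i0, hi0⟩ := exists_nat_ge ((1 - β) / α)
  rw [div_le_iff₀ hα] at hi0
  obtain ⟨X, hX⟩ : ∃ X : ℕ → ℝ, X = fun n : ℕ => α * n + |β| + 1 := ⟨_, rfl⟩
  have hn : Tendsto (fun n : ℕ => (n:ℝ)) atTop atTop := tendsto_natCast_atTop_atTop
  have hAd : AdN X d := by
    refine adN_of hd0 hd hdL hα (Eventually.of_forall fun n => ?_)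
    rw [hX]
    simp only
    have := abs_nonneg β
    linarith
  have hlt : ∀ᶠ n in atTop, d n ≤ 1 / 16 := hd.eventually_le_const (by norm_num)
  have hXn : ∀ᶠ n : ℕ in atTop, X n ≤ 2 * α * n := by
    filter_upwards [hn.eventually_ge_atTop ((|β| + 1) / α)] with n h1
    rw [div_le_iff₀ hα] at h1
    rw [hX]
    simp only
    linarith
  have hcard : ∀ᶠ n in atTop, 1 / (4 * α) * X n ≤ (SA α β i0 n).card := by
    filter_upwards [hXn, eventually_ge_atTop (2 * i0)] with n h1 h2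
    rw [SA_card hα, Nat.cast_sub (by omega)]
    have h3 : (2:ℝ) * i0 ≤ n := by exact_mod_cast h2
    calc 1 / (4 * α) * X n ≤ 1 / (4 * α) * (2 * α * n) := mul_le_mul_of_nonneg_left h1 (by positivity)
      _ = n / 2 := by field_simp; norm_num
      _ ≤ n - i0 := by linarith
  have hS : ∀ᶠ n in atTop, Sep α (X n) (SA α β i0 n) := by
    refine Eventually.of_forall fun n => ⟨?_, ?_, ?_⟩
    · intro s hs
      obtain ⟨i, hi, rfl⟩ := Finset.mem_image.1 hs
      rw [Finset.mem_Ico] at hi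
      have : (i0:ℝ) ≤ i := by exact_mod_cast hi.1
      nlinarith
    · intro s hs
      obtain ⟨i, hi, rfl⟩ := Finset.mem_image.1 hs
      rw [Finset.mem_Ico] at hi
      have h1 : (i:ℝ) ≤ n := by exact_mod_cast hi.2.le
      have h2 := le_abs_self β
      rw [hX]
      simp only
      nlinarith
    · intro s hs s' hs' hne
      obtain ⟨i, hi, rfl⟩ := Finset.mem_image.1 hs
      obtain ⟨i', hi', rfl⟩ := Finset.mem_image.1 hs'
      have hii : (i:ℤ) ≠ i' := by
        intro h0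
        apply hne
        have : i = i' := by exact_mod_cast h0
        rw [this]
      have h1 : (1:ℝ) ≤ |(i:ℝ) - i'| := by
        have : (1:ℤ) ≤ |(i:ℤ) - i'| := Int.one_le_abs (sub_ne_zero.2 hii)
        exact_mod_cast this
      have e : α * (i:ℝ) + β - (α * i' + β) = α * (i - i') := by ring
      rw [e, abs_mul, abs_of_pos hα]
      nlinarith
  have hcard2 : ∀ᶠ n in atTop, d n ^ (1:ℝ) * X n ≤ (SA α β i0 n).card := by
    filter_upwards [hcard, hd.eventually_le_const (show (0:ℝ) < 1 / (4 * α) by positivity),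
      hAd.X0.eventually_ge_atTop 0] with n h1 h2 h3
    rw [Real.rpow_one]
    exact (mul_le_mul_of_nonneg_right h2 h3).trans h1
  have hq : ∀ κ : ℝ, 0 < κ → QF X d (fun n => SA α β i0 n) κ ((aC κ).re * cAP κ α β) := fun κ hκ =>
    qf_ap hAd hα β i0 (by positivity) hcard hκ
  have key := samp_fin hR hAd hα hS hcard2 hk hV (hq k hk) fun κ hκ => ⟨_, hq κ hκ⟩
  refine MI_of (SA_inj hα β) hAd (E := i0) (I := fun n => Finset.Ico i0 n) ?_ ?_ (D' := 1) ?_ hk (hk.trans hV) key
  · intro n i hi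
    rw [Finset.mem_Ico] at hi
    exact Finset.mem_range.2 hi.2
  · intro n
    refine (Finset.card_le_card (t := Finset.range i0) ?_).trans (by rw [Finset.card_range])
    intro i hi
    rw [Finset.mem_sdiff, Finset.mem_range, Finset.mem_Ico, not_and] at hi
    rw [Finset.mem_range]
    by_contra hcon
    exact hi.2 (not_lt.1 hcon) hi.1
  · have h1 : ∀ᶠ n in atTop, d n ≤ 1 / (2 * α) := hd.eventually_le_const (by positivity)
    filter_upwards [hXn, h1, hd0] with n a1 a2 a3
    rw [Real.rpow_neg a3.le, Real.rpow_one]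
    refine a1.trans ?_
    rw [le_div_iff₀ (by positivity)] at a2
    have h2 : 2 * α ≤ (d n)⁻¹ := by
      rw [← one_div, le_div_iff₀ a3]
      linarith
    calc 2 * α * n = n * (2 * α) := by ring
      _ ≤ n * (d n)⁻¹ := mul_le_mul_of_nonneg_left h2 (Nat.cast_nonneg _)

end Run7.h310.SP
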