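import Mathlib

set_option autoImplicit false

/-! # Project SP: exponential sums with random dilation -/

namespace Run7.h310.SP

open Finset Filter MeasureTheory Topology Complex ProbabilityTheory

/-- the exponential sum of the dilated sequence -/
noncomputable def We (x : ℕ → ℝ) (n : ℕ) (α θ : ℝ) : ℂ := ∑ i ∈ Finset.range n, exp ((θ * (α * x i) : ℝ) * I)

lemma We_sq (x : ℕ → ℝ) (n : ℕ) (α θ : ℝ) : ‖We x n α θ‖ ^ 2 =
    ∑ i ∈ Finset.range n, ∑ j ∈ Finset.range n, Real.cos ((θ * (x i - x j)) * α) := by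
  have h1 : ((‖We x n α θ‖ ^ 2 : ℝ) : ℂ) = ∑ i ∈ Finset.range n, ∑ j ∈ Finset.range n,
      exp ((((θ * (x i - x j)) * α : ℝ)) * I) := by
    rw [Complex.ofReal_pow, ← Complex.mul_conj']
    unfold We
    rw [map_sum, Finset.sum_mul_sum]
    refine Finset.sum_congr rfl fun i _ => Finset.sum_congr rfl fun j _ => ?_
    rw [← Complex.exp_conj, ← Complex.exp_add, map_mul, Complex.conj_ofReal, Complex.conj_I]
    congr 1
    push_cast
    ring
  have h2 := congrArg Complex.re h1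
  rw [Complex.ofReal_re, Complex.re_sum] at h2
  rw [h2]
  refine Finset.sum_congr rfl fun i _ => ?_
  rw [Complex.re_sum]
  refine Finset.sum_congr rfl fun j _ => ?_
  rw [Complex.exp_ofReal_mul_I_re]

lemma cos_integrable (t : ℝ) : Integrable (fun a : ℝ => Real.cos (t * a)) (gaussianReal 0 1) := by
  refine Integrable.of_bound (C := 1) (by fun_prop) (Eventually.of_forall fun a => ?_)
  rw [Real.norm_eq_abs]
  exact Real.abs_cos_le_one _

lemma cos_int (t : ℝ) : ∫ a, Real.cos (t * a) ∂(gaussianReal 0 1) = Real.exp (-(t ^ 2 / 2)) := by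
  have h1 : ∫ a, exp (t * a * I) ∂(gaussianReal 0 1) = exp (-(t ^ 2 / 2 : ℝ)) := by
    rw [← charFun_apply_real, charFun_gaussianReal]
    congr 1
    push_cast
    simp
  have hi : Integrable (fun a : ℝ => exp (t * a * I)) (gaussianReal 0 1) := by
    refine Integrable.of_bound (C := 1) (by fun_prop) (Eventually.of_forall fun a => ?_)
    rw [← Complex.ofReal_mul, Complex.norm_exp_ofReal_mul_I]
  have h2 := integral_re hi
  have h3 : ∀ a : ℝ, RCLike.re (exp (t * a * I)) = Real.cos (t * a) := by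
    intro a
    rw [← Complex.ofReal_mul]
    exact Complex.exp_ofReal_mul_I_re _
  simp only [h3] at h2
  rw [h2, h1, ← Complex.ofReal_neg, ← Complex.ofReal_exp]
  exact Complex.ofReal_re _

/-- the sums of the inverse squares of the distances -/
lemma sep_sum {c : ℝ} (hc : 0 < c) : ∃ Z : ℝ, 0 < Z ∧ ∀ x : ℕ → ℝ, (∀ i j, i ≠ j → c ≤ |x i - x j|) →
    ∀ (n i : ℕ), ∑ j ∈ (Finset.range n).filter (fun j => j ≠ i), 1 / (x i - x j) ^ 2 ≤ Z := by
  classical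
  obtain ⟨h, hh⟩ : ∃ h : ℤ → ℝ, h = fun r : ℤ => 9 / (c ^ 2 * (|(r:ℝ)| + 1) ^ 2) := ⟨_, rfl⟩
  have hs : Summable h := by
    have h1 : Summable fun n : ℕ => 9 / c ^ 2 * (1 / ((n:ℝ) + 1) ^ 2) := by
      refine Summable.mul_left _ ?_
      have := (summable_nat_add_iff 1).2 (Real.summable_one_div_nat_pow.2 (by norm_num : 1 < 2))
      refine this.congr fun n => ?_
      push_cast
      rfl
    have e1 : ∀ n : ℕ, 9 / c ^ 2 * (1 / ((n:ℝ) + 1) ^ 2) = h (n:ℤ) := by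
      intro n
      rw [hh]
      simp only [Int.cast_natCast, Nat.abs_cast]
      field_simp
    have e2 : ∀ n : ℕ, 9 / c ^ 2 * (1 / ((n:ℝ) + 1) ^ 2) = h (-(n:ℤ)) := by
      intro n
      rw [hh]
      simp only [Int.cast_neg, Int.cast_natCast, abs_neg, Nat.abs_cast]
      field_simp
    exact Summable.of_nat_of_neg (h1.congr e1) (h1.congr e2)
  have hpos : ∀ r, 0 ≤ h r := fun r => by rw [hh]; positivity
  have h0 : 0 ≤ ∑' r, h r := tsum_nonneg hpos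
  refine ⟨∑' r, h r + 1, by linarith, fun x hx n i => ?_⟩
  obtain ⟨r, hr⟩ : ∃ r : ℕ → ℤ, r = fun j => ⌊(x j - x i) / c⌋ := ⟨_, rfl⟩
  have hinj : Function.Injective r := by
    intro j j' hjj
    by_contra hne
    rw [hr] at hjj
    have h1 := Int.abs_sub_lt_one_of_floor_eq_floor hjj
    have h2 : (x j - x i) / c - (x j' - x i) / c = (x j - x j') / c := by ring
    rw [h2, abs_div, abs_of_pos hc, div_lt_one hc] at h1
    have := hx j j' hne
    linarith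
  have hle : ∀ j ∈ (Finset.range n).filter (fun j => j ≠ i), 1 / (x i - x j) ^ 2 ≤ h (r j) := by
    intro j hj
    have hji : j ≠ i := (Finset.mem_filter.1 hj).2
    have h1 := hx j i hji
    have f1 : (r j : ℝ) ≤ (x j - x i) / c := by rw [hr]; exact Int.floor_le _
    have f2 : (x j - x i) / c < r j + 1 := by rw [hr]; exact Int.lt_floor_add_one _
    rw [le_div_iff₀ hc] at f1
    rw [div_lt_iff₀ hc] at f2
    have h3 : c * (|(r j : ℝ)| + 1) ≤ 3 * |x j - x i| := by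
      rcases le_or_gt 0 (r j) with h0 | h0
      · have h0R : (0:ℝ) ≤ r j := by exact_mod_cast h0
        rw [abs_of_nonneg h0R]
        have := le_abs_self (x j - x i)
        nlinarith
      · have h0R : (r j : ℝ) ≤ -1 := by exact_mod_cast (by omega : r j ≤ -1)
        rw [abs_of_neg (by linarith)]
        have h4 := neg_le_abs (x j - x i)
        rcases le_or_gt (r j) (-2) with h5 | h5
        · have h5R : (r j : ℝ) ≤ -2 := by exact_mod_cast h5
          nlinarith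
        · have h6 : r j = -1 := by omega
          rw [h6]
          push_cast
          linarith
    have h4 : 0 < |x j - x i| := hc.trans_le h1
    have h5 : (x i - x j) ^ 2 = |x j - x i| ^ 2 := by rw [sq_abs]; ring
    rw [hh, h5]
    simp only
    rw [div_le_div_iff₀ (by positivity) (by positivity)]
    have h6 : (c * (|(r j : ℝ)| + 1)) ^ 2 ≤ (3 * |x j - x i|) ^ 2 := pow_le_pow_left₀ (by positivity) h3 2
    nlinarith
  calc ∑ j ∈ (Finset.range n).filter (fun j => j ≠ i), 1 / (x i - x j) ^ 2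
      ≤ ∑ j ∈ (Finset.range n).filter (fun j => j ≠ i), h (r j) := Finset.sum_le_sum hle
    _ = ∑ m ∈ ((Finset.range n).filter (fun j => j ≠ i)).image r, h m := by
        rw [Finset.sum_image fun a _ b _ hab => hinj hab]
    _ ≤ ∑' m, h m := hs.sum_le_tsum _ fun m _ => hpos m
    _ ≤ _ := by linarith

/-- the second moment of the exponential sum -/
lemma second {c : ℝ} (hc : 0 < c) : ∃ Z : ℝ, 0 < Z ∧ ∀ x : ℕ → ℝ, (∀ i j, i ≠ j → c ≤ |x i - x j|) →
    ∀ (n : ℕ) (θ : ℝ), θ ≠ 0 → Integrable (fun α => ‖We x n α θ‖ ^ 2) (gaussianReal 0 1) ∧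
      ∫ α, ‖We x n α θ‖ ^ 2 ∂(gaussianReal 0 1) ≤ n * (1 + Z / θ ^ 2) := by
  classical
  obtain ⟨Z, hZ, hs⟩ := sep_sum hc
  refine ⟨2 * Z, by positivity, fun x hx n θ hθ => ?_⟩
  have hi : ∀ i ∈ Finset.range n, Integrable (fun α => ∑ j ∈ Finset.range n, Real.cos ((θ * (x i - x j)) * α)) (gaussianReal 0 1) :=
    fun i _ => integrable_finsetSum _ fun j _ => cos_integrable _
  simp only [We_sq]
  refine ⟨integrable_finsetSum _ hi, ?_⟩
  rw [integral_finsetSum _ hi]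
  have h1 : ∀ i ∈ Finset.range n, ∫ α, ∑ j ∈ Finset.range n, Real.cos ((θ * (x i - x j)) * α) ∂(gaussianReal 0 1) ≤
      1 + 2 * Z / θ ^ 2 := by
    intro i hi
    rw [integral_finsetSum _ fun j _ => cos_integrable _]
    simp only [cos_int]
    rw [← Finset.add_sum_erase _ _ hi]
    have h2 : Real.exp (-((θ * (x i - x i)) ^ 2 / 2)) = 1 := by simp
    rw [h2]
    have h3 : (Finset.range n).erase i = (Finset.range n).filter (fun j => j ≠ i) := by
      ext j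
      rw [Finset.mem_erase, Finset.mem_filter]
      tauto
    rw [h3]
    have h4 : ∀ j ∈ (Finset.range n).filter (fun j => j ≠ i), Real.exp (-((θ * (x i - x j)) ^ 2 / 2)) ≤
        2 / θ ^ 2 * (1 / (x i - x j) ^ 2) := by
      intro j hj
      have hji : j ≠ i := (Finset.mem_filter.1 hj).2
      have h5 : x i - x j ≠ 0 := by
        intro h0
        have := hx i j (Ne.symm hji)
        rw [h0, abs_zero] at this
        linarith
      have h6 : 0 < (θ * (x i - x j)) ^ 2 / 2 := by positivity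
      rw [Real.exp_neg]
      have h7 : (θ * (x i - x j)) ^ 2 / 2 ≤ Real.exp ((θ * (x i - x j)) ^ 2 / 2) := by
        have := Real.add_one_le_exp ((θ * (x i - x j)) ^ 2 / 2)
        linarith
      calc (Real.exp ((θ * (x i - x j)) ^ 2 / 2))⁻¹ ≤ ((θ * (x i - x j)) ^ 2 / 2)⁻¹ := inv_anti₀ h6 h7
        _ = 2 / θ ^ 2 * (1 / (x i - x j) ^ 2) := by field_simp
    have h5 := Finset.sum_le_sum h4
    rw [← Finset.mul_sum] at h5
    have h6 := mul_le_mul_of_nonneg_left (hs x hx n i) (show 0 ≤ 2 / θ ^ 2 by positivity)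
    have h7 : 2 / θ ^ 2 * Z = 2 * Z / θ ^ 2 := by ring
    linarith
  calc ∑ i ∈ Finset.range n, ∫ α, ∑ j ∈ Finset.range n, Real.cos ((θ * (x i - x j)) * α) ∂(gaussianReal 0 1)
      ≤ ∑ _i ∈ Finset.range n, (1 + 2 * Z / θ ^ 2) := Finset.sum_le_sum h1
    _ = n * (1 + 2 * Z / θ ^ 2) := by rw [Finset.sum_const, Finset.card_range, nsmul_eq_mul]

/-- the metric property of the dilation -/
def Good (x : ℕ → ℝ) (α : ℝ) : Prop := ∀ᶠ j : ℕ in atTop, ∀ m l : ℕ, 1 ≤ m → 1 ≤ l → m ≠ l → m ≤ j → l ≤ j →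
  ‖We x (j ^ 16) α (Real.log m - Real.log l)‖ ≤ (j:ℝ) ^ 15

lemma log_gap' {u v : ℕ} (hu : 0 < u) (hv : 0 < v) (h : u ≠ v) {M : ℝ} (hu' : (u:ℝ) ≤ M) (hv' : (v:ℝ) ≤ M) :
    1 / M ≤ |Real.log u - Real.log v| := by
  have key : ∀ a b : ℕ, 0 < a → 0 < b → a < b → (b:ℝ) ≤ M → 1 / M ≤ Real.log b - Real.log a := by
    intro a b ha hb hab hbM
    have haR : (0:ℝ) < a := by exact_mod_cast ha
    have hbR : (0:ℝ) < b := by exact_mod_cast hb
    have h1 : (a:ℝ) + 1 ≤ b := by exact_mod_cast hab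
    have h2 : Real.log a - Real.log b ≤ a / b - 1 := by
      rw [← Real.log_div haR.ne' hbR.ne']
      exact Real.log_le_sub_one_of_pos (by positivity)
    have h3 : 1 / M ≤ 1 / b := one_div_le_one_div_of_le hbR hbM
    have h4 : 1 / (b:ℝ) ≤ 1 - a / b := by
      rw [div_le_iff₀ hbR]
      have : (1 - (a:ℝ) / b) * b = b - a := by field_simp
      rw [this]
      linarith
    linarith
  rcases lt_or_gt_of_ne h with h1 | h1
  · have := key u v hu hv h1 hv'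
    rw [abs_sub_comm]
    exact this.trans (le_abs_self _)
  · exact (key v u hv hu h1 hu').trans (le_abs_self _)

/-- almost every dilation is good -/
theorem ae_good {c : ℝ} (hc : 0 < c) {x : ℕ → ℝ} (hx : ∀ i j, i ≠ j → c ≤ |x i - x j|) : ∀ᵐ α : ℝ, Good x α := by
  classical
  obtain ⟨Z, hZ, hs⟩ := second hc
  refine (gaussianReal_absolutelyContinuous' 0 one_ne_zero).ae_le ?_
  -- the sum of the squares over the pairs
  obtain ⟨Q, hQ⟩ : ∃ Q : ℕ → Finset (ℕ × ℕ), Q = fun j => ((Finset.Icc 1 j) ×ˢ (Finset.Icc 1 j)).filter fun q => q.1 ≠ q.2 := ⟨_, rfl⟩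
  obtain ⟨f, hf⟩ : ∃ f : ℕ → ℝ → ℝ, f = fun j α => ∑ q ∈ Q j, ‖We x (j ^ 16) α (Real.log q.1 - Real.log q.2)‖ ^ 2 := ⟨_, rfl⟩
  have hgap : ∀ j : ℕ, ∀ q ∈ Q j, (Real.log q.1 - Real.log q.2) ≠ 0 ∧ 1 / (Real.log q.1 - Real.log q.2) ^ 2 ≤ (j:ℝ) ^ 2 := by
    intro j q hq
    rw [hQ] at hq
    simp only [Finset.mem_filter, Finset.mem_product, Finset.mem_Icc] at hq
    obtain ⟨⟨⟨a1, a2⟩, a3, a4⟩, a5⟩ := hq
    have hjR : (0:ℝ) < j := by exact_mod_cast (by omega : 0 < j)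
    have h1 := log_gap' (M := j) a1 a3 a5 (by exact_mod_cast a2) (by exact_mod_cast a4)
    have h2 : 0 < 1 / (j:ℝ) := by positivity
    have h3 : 0 < |Real.log q.1 - Real.log q.2| := h2.trans_le h1
    refine ⟨abs_pos.1 h3, ?_⟩
    rw [← sq_abs]
    calc 1 / |Real.log (q.1:ℝ) - Real.log q.2| ^ 2 ≤ 1 / (1 / (j:ℝ)) ^ 2 :=
          one_div_le_one_div_of_le (by positivity) (pow_le_pow_left₀ h2.le h1 2)
      _ = (j:ℝ) ^ 2 := by field_simp
  have hfi : ∀ j, Integrable (f j) (gaussianReal 0 1) := by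
    intro j
    rw [hf]
    exact integrable_finsetSum _ fun q hq => (hs x hx (j ^ 16) _ (hgap j q hq).1).1
  have hfb : ∀ j : ℕ, 1 ≤ j → ∫ α, f j α ∂(gaussianReal 0 1) ≤ (1 + Z) * (j:ℝ) ^ 20 := by
    intro j hj
    have hjR : (1:ℝ) ≤ j := by exact_mod_cast hj
    rw [hf]
    simp only
    rw [integral_finsetSum _ fun q hq => (hs x hx (j ^ 16) _ (hgap j q hq).1).1]
    have h1 : ∀ q ∈ Q j, ∫ α, ‖We x (j ^ 16) α (Real.log q.1 - Real.log q.2)‖ ^ 2 ∂(gaussianReal 0 1) ≤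
        (1 + Z) * (j:ℝ) ^ 18 := by
      intro q hq
      obtain ⟨g1, g2⟩ := hgap j q hq
      refine (hs x hx (j ^ 16) _ g1).2.trans ?_
      push_cast
      have h2 : Z / (Real.log (q.1:ℝ) - Real.log q.2) ^ 2 ≤ Z * (j:ℝ) ^ 2 := by
        calc Z / (Real.log (q.1:ℝ) - Real.log q.2) ^ 2 = Z * (1 / (Real.log (q.1:ℝ) - Real.log q.2) ^ 2) := by ring
          _ ≤ _ := mul_le_mul_of_nonneg_left g2 hZ.le
      have h3 : (1:ℝ) ≤ (j:ℝ) ^ 2 := one_le_pow₀ hjR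
      calc (j:ℝ) ^ 16 * (1 + Z / (Real.log (q.1:ℝ) - Real.log q.2) ^ 2) ≤ (j:ℝ) ^ 16 * ((1 + Z) * (j:ℝ) ^ 2) := by
            refine mul_le_mul_of_nonneg_left ?_ (by positivity)
            linarith
        _ = (1 + Z) * (j:ℝ) ^ 18 := by ring
    refine (Finset.sum_le_sum h1).trans ?_
    rw [Finset.sum_const, nsmul_eq_mul]
    have h2 : ((Q j).card : ℝ) ≤ (j:ℝ) ^ 2 := by
      have : (Q j).card ≤ j ^ 2 := by
        rw [hQ]
        refine (Finset.card_filter_le _ _).trans ?_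
        rw [Finset.card_product, Nat.card_Icc]
        simp [sq]
      exact_mod_cast this
    calc ((Q j).card : ℝ) * ((1 + Z) * (j:ℝ) ^ 18) ≤ (j:ℝ) ^ 2 * ((1 + Z) * (j:ℝ) ^ 18) :=
          mul_le_mul_of_nonneg_right h2 (by positivity)
      _ = _ := by ring
  obtain ⟨s, hs'⟩ : ∃ s : ℕ → Set ℝ, s = fun j : ℕ => {α : ℝ | (j:ℝ) ^ 30 ≤ f j α ∧ 1 ≤ j} := ⟨_, rfl⟩
  have hmeas : ∀ j, (gaussianReal 0 1) (s j) ≤ ENNReal.ofReal ((1 + Z) * (1 / (j:ℝ) ^ 2)) := by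
    intro j
    rcases Nat.eq_zero_or_pos j with h0 | h0
    · have : s j = ∅ := by
        rw [hs']
        ext α
        simp only [Set.mem_ofPred_eq, Set.mem_empty_iff_false, iff_false, not_and]
        intro _
        omega
      rw [this]
      simp
    · have hjR : (1:ℝ) ≤ j := by exact_mod_cast h0
      have h1 := mul_meas_ge_le_integral_of_nonneg (μ := gaussianReal 0 1) (f := f j)
        (Eventually.of_forall fun α => by
          rw [hf]
          exact Finset.sum_nonneg fun q _ => by positivity) (hfi j) ((j:ℝ) ^ 30)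
      have h2 := h1.trans (hfb j h0)
      have h3 : (gaussianReal 0 1).real {α | (j:ℝ) ^ 30 ≤ f j α} ≤ (1 + Z) * (1 / (j:ℝ) ^ 2) := by
        have hj30 : (0:ℝ) < (j:ℝ) ^ 30 := by positivity
        have h4 : (1 + Z) * (j:ℝ) ^ 20 ≤ (j:ℝ) ^ 30 * ((1 + Z) * (1 / (j:ℝ) ^ 2)) := by
          have h5 : (j:ℝ) ^ 30 * ((1 + Z) * (1 / (j:ℝ) ^ 2)) = (1 + Z) * (j:ℝ) ^ 28 := by
            field_simp
          rw [h5]
          exact mul_le_mul_of_nonneg_left (pow_le_pow_right₀ hjR (by norm_num)) (by positivity)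
        exact le_of_mul_le_mul_left (h2.trans h4) hj30
      have h4 : s j ⊆ {α | (j:ℝ) ^ 30 ≤ f j α} := by
        rw [hs']
        exact fun α hα => hα.1
      refine (measure_mono h4).trans ?_
      rw [ENNReal.le_ofReal_iff_toReal_le (measure_ne_top _ _) (by positivity)]
      exact h3
  have hsum : (∑' j, (gaussianReal 0 1) (s j)) ≠ ⊤ := by
    refine ne_top_of_le_ne_top ?_ (ENNReal.tsum_le_tsum hmeas)
    have h1 : Summable fun j : ℕ => (1 + Z) * (1 / (j:ℝ) ^ 2) :=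
      (Real.summable_one_div_nat_pow.2 (by norm_num : 1 < 2)).mul_left _
    exact h1.tsum_ofReal_ne_top
  filter_upwards [ae_eventually_notMem hsum] with α hα
  unfold Good
  filter_upwards [hα, eventually_ge_atTop 1] with j hj hj1 m l hm hl hml hmj hlj
  have h1 : f j α < (j:ℝ) ^ 30 := by
    by_contra hcon
    apply hj
    rw [hs']
    exact ⟨not_lt.1 hcon, hj1⟩
  have h2 : ‖We x (j ^ 16) α (Real.log m - Real.log l)‖ ^ 2 ≤ f j α := by
    rw [hf]
    refine Finset.single_le_sum (f := fun q : ℕ × ℕ => ‖We x (j ^ 16) α (Real.log q.1 - Real.log q.2)‖ ^ 2)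
      (fun q _ => by positivity) (a := (m, l)) ?_
    rw [hQ]
    simp only [Finset.mem_filter, Finset.mem_product, Finset.mem_Icc]
    exact ⟨⟨⟨hm, hmj⟩, hl, hlj⟩, hml⟩
  have h3 : ‖We x (j ^ 16) α (Real.log m - Real.log l)‖ ^ 2 ≤ ((j:ℝ) ^ 15) ^ 2 := by
    rw [← pow_mul]
    exact h2.trans h1.le
  exact le_of_sq_le_sq h3 (by positivity)

/-- consequences for all lengths -/
lemma Good.all {x : ℕ → ℝ} {α : ℝ} (h : Good x α) : ∀ᶠ n : ℕ in atTop, ∀ m l : ℕ, 1 ≤ m → 1 ≤ l → m ≠ l →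
    (m:ℝ) ≤ (n:ℝ) ^ (1 / 32 : ℝ) → (l:ℝ) ≤ (n:ℝ) ^ (1 / 32 : ℝ) →
    ‖We x n α (Real.log m - Real.log l)‖ ≤ 2 ^ 20 * (n:ℝ) ^ (15 / 16 : ℝ) := by
  -- the index
  have hj : Tendsto (fun n : ℕ => ⌊(n:ℝ) ^ (1 / 16 : ℝ)⌋₊) atTop atTop :=
    tendsto_nat_floor_atTop.comp ((tendsto_rpow_atTop (by norm_num : (0:ℝ) < 1 / 16)).comp tendsto_natCast_atTop_atTop)
  have h32 : ∀ᶠ n : ℕ in atTop, (n:ℝ) ^ (1 / 32 : ℝ) + 1 ≤ (n:ℝ) ^ (1 / 16 : ℝ) := by
    have h1 : Tendsto (fun n : ℕ => (n:ℝ) ^ (1 / 32 : ℝ)) atTop atTop :=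
      (tendsto_rpow_atTop (by norm_num : (0:ℝ) < 1 / 32)).comp tendsto_natCast_atTop_atTop
    filter_upwards [h1.eventually_ge_atTop 2, eventually_ge_atTop 1] with n a1 a2
    have hn : (0:ℝ) < n := by exact_mod_cast a2
    have e : (n:ℝ) ^ (1 / 16 : ℝ) = (n:ℝ) ^ (1 / 32 : ℝ) * (n:ℝ) ^ (1 / 32 : ℝ) := by
      rw [← Real.rpow_add hn]; norm_num
    rw [e]
    nlinarith
  filter_upwards [hj.eventually h, hj.eventually_ge_atTop 1, h32, eventually_ge_atTop 1] with n hn hj1 h2 hn1 m l hm hl hml hmn hln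
  obtain ⟨j, hjd⟩ : ∃ j, j = ⌊(n:ℝ) ^ (1 / 16 : ℝ)⌋₊ := ⟨_, rfl⟩
  rw [← hjd] at hn hj1
  have hnR : (0:ℝ) < n := by exact_mod_cast hn1
  have hr0 : 0 ≤ (n:ℝ) ^ (1 / 16 : ℝ) := Real.rpow_nonneg hnR.le _
  have f1 : (j:ℝ) ≤ (n:ℝ) ^ (1 / 16 : ℝ) := by rw [hjd]; exact Nat.floor_le hr0
  have f2 : (n:ℝ) ^ (1 / 16 : ℝ) < j + 1 := by rw [hjd]; exact Nat.lt_floor_add_one _
  have hjR : (1:ℝ) ≤ j := by exact_mod_cast hj1
  have e16 : ((n:ℝ) ^ (1 / 16 : ℝ)) ^ 16 = n := by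
    rw [← Real.rpow_natCast, ← Real.rpow_mul hnR.le]
    norm_num
  have g1 : ((j ^ 16 : ℕ) : ℝ) ≤ n := by
    push_cast
    calc (j:ℝ) ^ 16 ≤ ((n:ℝ) ^ (1 / 16 : ℝ)) ^ 16 := pow_le_pow_left₀ (by linarith) f1 16
      _ = n := e16
  have g1' : j ^ 16 ≤ n := by exact_mod_cast g1
  have g2 : (n:ℝ) ≤ ((j:ℝ) + 1) ^ 16 := by
    calc (n:ℝ) = ((n:ℝ) ^ (1 / 16 : ℝ)) ^ 16 := e16.symm
      _ ≤ _ := pow_le_pow_left₀ hr0 f2.le 16
  have hmj : m ≤ j := by
    have : (m:ℝ) < j + 1 := by linarith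
    have : m < j + 1 := by exact_mod_cast this
    omega
  have hlj : l ≤ j := by
    have : (l:ℝ) < j + 1 := by linarith
    have : l < j + 1 := by exact_mod_cast this
    omega
  have k1 := hn m l hm hl hml hmj hlj
  have k2 : We x n α (Real.log m - Real.log l) = We x (j ^ 16) α (Real.log m - Real.log l) +
      ∑ i ∈ Finset.Ico (j ^ 16) n, exp (((Real.log m - Real.log l) * (α * x i) : ℝ) * I) := by
    unfold We
    rw [Finset.sum_range_add_sum_Ico _ g1']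
  have k3 : ‖∑ i ∈ Finset.Ico (j ^ 16) n, exp (((Real.log m - Real.log l) * (α * x i) : ℝ) * I)‖ ≤ (n:ℝ) - (j:ℝ) ^ 16 := by
    refine (norm_sum_le _ _).trans ?_
    simp only [Complex.norm_exp_ofReal_mul_I]
    rw [Finset.sum_const, Nat.card_Ico, nsmul_eq_mul, mul_one, Nat.cast_sub g1']
    push_cast
    exact le_rfl
  have k4 : ((j:ℝ) + 1) ^ 16 - (j:ℝ) ^ 16 ≤ 2 ^ 19 * (j:ℝ) ^ 15 := by
    have t1 : ((j:ℝ) + 1) ^ 16 - (j:ℝ) ^ 16 ≤ 16 * ((j:ℝ) + 1) ^ 15 := by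
      have := one_add_mul_le_pow (a := (j:ℝ) / (j + 1) - 1) (by
        have : 0 ≤ (j:ℝ) / (j + 1) := by positivity
        linarith) 16
      have t2 : (1 + ((j:ℝ) / (j + 1) - 1)) ^ 16 = (j:ℝ) ^ 16 / ((j:ℝ) + 1) ^ 16 := by
        rw [add_sub_cancel, div_pow]
      rw [t2, le_div_iff₀ (by positivity)] at this
      have t3 : (1 + ((16:ℕ):ℝ) * ((j:ℝ) / (j + 1) - 1)) * ((j:ℝ) + 1) ^ 16 = ((j:ℝ) + 1) ^ 16 - 16 * ((j:ℝ) + 1) ^ 15 := by
        field_simp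
        push_cast
        ring
      rw [t3] at this
      linarith
    have t2 : ((j:ℝ) + 1) ^ 15 ≤ (2 * j) ^ 15 := pow_le_pow_left₀ (by linarith) (by linarith) 15
    have t3 : (2 * (j:ℝ)) ^ 15 = 2 ^ 15 * (j:ℝ) ^ 15 := mul_pow _ _ _
    rw [t3] at t2
    calc ((j:ℝ) + 1) ^ 16 - (j:ℝ) ^ 16 ≤ 16 * (2 ^ 15 * (j:ℝ) ^ 15) := by linarith
      _ = 2 ^ 19 * (j:ℝ) ^ 15 := by ring
  have k5 : (j:ℝ) ^ 15 ≤ (n:ℝ) ^ (15 / 16 : ℝ) := by
    calc (j:ℝ) ^ 15 ≤ ((n:ℝ) ^ (1 / 16 : ℝ)) ^ 15 := pow_le_pow_left₀ (by linarith) f1 15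
      _ = (n:ℝ) ^ (15 / 16 : ℝ) := by
        rw [← Real.rpow_natCast, ← Real.rpow_mul hnR.le]
        norm_num
  rw [k2]
  refine (norm_add_le _ _).trans ?_
  have h15 : (0:ℝ) ≤ (j:ℝ) ^ 15 := by positivity
  linarith

end Run7.h310.SP
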