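import Pool.Agent.Run7.h310.SP.B6
import Pool.Agent.Run7.h310.SP.B7

set_option autoImplicit false

/-! # Project SP: the truncated moments along dilated sequences -/

namespace Run7.h310.SP

open Finset Filter MeasureTheory Topology Complex
open Pool.Agent.N748.MG

/-- the indices of the points above 1 -/
noncomputable def IX (α β : ℝ) (x : ℕ → ℝ) (n : ℕ) : Finset ℕ := by
  classical
  exact (Finset.range n).filter fun i => 1 ≤ α * x i + β

lemma mem_IX {α β : ℝ} {x : ℕ → ℝ} {n i : ℕ} : i ∈ IX α β x n ↔ i < n ∧ 1 ≤ α * x i + β := by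
  unfold IX
  rw [Finset.mem_filter, Finset.mem_range]

/-- only finitely many indices are left out -/
lemma IX_card {c : ℝ} (hc : 0 < c) {α : ℝ} (hα : 0 < α) (β : ℝ) {x : ℕ → ℝ} (hx0 : ∀ i, 0 ≤ x i)
    (hx : ∀ i j, i ≠ j → c ≤ |x i - x j|) : ∃ E : ℕ, ∀ n, (Finset.range n \ IX α β x n).card ≤ E := by
  classical
  refine ⟨⌊(1 - β) / (α * c)⌋₊ + 1, fun n => ?_⟩
  rw [← Finset.card_range (⌊(1 - β) / (α * c)⌋₊ + 1)]
  refine Finset.card_le_card_of_injOn (fun i => ⌊x i / c⌋₊) ?_ ?_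
  · intro i hi
    rw [Finset.mem_coe, Finset.mem_sdiff, mem_IX, Finset.mem_range, not_and, not_le] at hi
    have h1 := hi.2 hi.1
    rw [Finset.mem_coe, Finset.mem_range]
    refine Nat.lt_succ_of_le (Nat.floor_le_floor ?_)
    rw [div_le_div_iff₀ hc (by positivity)]
    have h2 : α * x i ≤ 1 - β := by linarith
    nlinarith
  · intro i _ j _ hij
    by_contra hne
    have h1 := hx i j hne
    simp only at hij
    have h2 : ⌊x i / c⌋ = ⌊x j / c⌋ := by
      rw [← Int.natCast_floor_eq_floor (div_nonneg (hx0 i) hc.le), ← Int.natCast_floor_eq_floor (div_nonneg (hx0 j) hc.le), hij]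
    have h3 := Int.abs_sub_lt_one_of_floor_eq_floor h2
    rw [← sub_div, abs_div, abs_of_pos hc, div_lt_one hc] at h3
    linarith

/-- the exponential sums over the sample points -/
lemma Wc_le_We {c : ℝ} (hc : 0 < c) {α : ℝ} (hα : 0 < α) (β : ℝ) {x : ℕ → ℝ} (hx : ∀ i j, i ≠ j → c ≤ |x i - x j|)
    {E : ℕ} {n : ℕ} (hE : (Finset.range n \ IX α β x n).card ≤ E) (θ : ℝ) :
    |Wc ((IX α β x n).image fun i => α * x i + β) θ| ≤ ‖We x n α θ‖ + E := by
  classical
  have hinj : Function.Injective fun i => α * x i + β := by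
    intro i j h
    by_contra hne
    have h1 := hx i j hne
    simp only at h
    have : x i = x j := mul_left_cancel₀ hα.ne' (by linarith)
    rw [this, sub_self, abs_zero] at h1
    linarith
  unfold Wc
  rw [Finset.sum_image fun i _ j _ h => hinj h]
  have hsub : IX α β x n ⊆ Finset.range n := by
    intro i hi
    exact Finset.mem_range.2 (mem_IX.1 hi).1
  have h1 := Finset.sum_sdiff hsub (f := fun i => Real.cos ((α * x i + β) * θ))
  have h2 : ∑ i ∈ Finset.range n, Real.cos ((α * x i + β) * θ) = (exp ((β * θ : ℝ) * I) * We x n α θ).re := by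
    unfold We
    rw [Finset.mul_sum, Complex.re_sum]
    refine Finset.sum_congr rfl fun i _ => ?_
    rw [← Complex.exp_add]
    have : ((β * θ : ℝ) : ℂ) * I + ((θ * (α * x i) : ℝ) : ℂ) * I = (((α * x i + β) * θ : ℝ) : ℂ) * I := by
      push_cast; ring
    rw [this, Complex.exp_ofReal_mul_I_re]
  have h3 : |∑ i ∈ Finset.range n, Real.cos ((α * x i + β) * θ)| ≤ ‖We x n α θ‖ := by
    rw [h2]
    refine (Complex.abs_re_le_norm _).trans ?_
    rw [norm_mul, Complex.norm_exp_ofReal_mul_I, one_mul]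
  have h4 : |∑ i ∈ Finset.range n \ IX α β x n, Real.cos ((α * x i + β) * θ)| ≤ E := by
    refine (Finset.abs_sum_le_sum_abs _ _).trans ?_
    calc ∑ i ∈ Finset.range n \ IX α β x n, |Real.cos ((α * x i + β) * θ)|
        ≤ ∑ _i ∈ Finset.range n \ IX α β x n, (1:ℝ) := Finset.sum_le_sum fun s _ => Real.abs_cos_le_one _
      _ = ((Finset.range n \ IX α β x n).card : ℝ) := by simp
      _ ≤ E := by exact_mod_cast hE
  have h5 : ∑ i ∈ IX α β x n, Real.cos ((α * x i + β) * θ) = ∑ i ∈ Finset.range n, Real.cos ((α * x i + β) * θ) -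
      ∑ i ∈ Finset.range n \ IX α β x n, Real.cos ((α * x i + β) * θ) := by linarith
  rw [h5]
  exact (abs_sub _ _).trans (add_le_add h3 h4)

theorem qf_ms {X δ : ℕ → ℝ} (hd : AdN X δ) {c : ℝ} (hc : 0 < c) {α : ℝ} (hα : 0 < α) (β : ℝ) {x : ℕ → ℝ}
    (hx : ∀ i j, i ≠ j → c ≤ |x i - x j|) (hG : Good x α) {E : ℕ} (hE : ∀ n, (Finset.range n \ IX α β x n).card ≤ E)
    (hXn : ∀ᶠ n : ℕ in atTop, X n ≤ (n:ℝ) ^ 2) {k : ℝ} (hk : 0 < k) :
    QF X δ (fun n => (IX α β x n).image fun i => α * x i + β) k (aC k).re := by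
  classical
  obtain ⟨C0, hC00, hC0⟩ := SIZ.main k hk.le
  obtain ⟨C1, hC1, hT⟩ := t_tdt2 k 1 hk one_pos
  obtain ⟨δ0, hδ0, hT1⟩ := hT 1 1 le_rfl le_rfl (Nat.coprime_one_left 1)
  refine ⟨max C1 (64 + 128 * C0), lt_max_of_lt_left hC1, fun y K hyK => ?_⟩
  have hinj : Function.Injective fun i => α * x i + β := by
    intro i j h
    by_contra hne
    have h1 := hx i j hne
    simp only at h
    have : x i = x j := mul_left_cancel₀ hα.ne' (by linarith)
    rw [this, sub_self, abs_zero] at h1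
    linarith
  have hlt : ∀ᶠ n in atTop, δ n ≤ 1 / 16 := hd.t0.eventually_le_const (by norm_num)
  have hn : Tendsto (fun n : ℕ => (n:ℝ)) atTop atTop := tendsto_natCast_atTop_atTop
  have hdn : Tendsto δ atTop (𝓝[>] 0) := tendsto_nhdsWithin_iff.2 ⟨hd.t0, hd.pos⟩
  have l1 : Tendsto (fun n => (2 * δ n) ^ (k ^ 2) * TD k (δ n) 1 1) atTop (𝓝 (aC k).re) := (t_td1 k hk).comp hdn
  -- the truncation
  have l2 : Tendsto (fun n => (2 * δ n) ^ (k ^ 2) * TDt k (δ n) (y n) (K n) 1 1) atTop (𝓝 (aC k).re) := by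
    have h1 : Tendsto (fun n => (2 * δ n) ^ (k ^ 2) * TDt k (δ n) (y n) (K n) 1 1 -
        (2 * δ n) ^ (k ^ 2) * TD k (δ n) 1 1) atTop (𝓝 0) := by
      refine squeeze_zero_norm' ?_ hd.t0
      filter_upwards [hyK, hd.pos, hlt, hd.t0.eventually_le_const hδ0] with n ⟨a1, a2, a3, _⟩ a4 a5 a6
      have hL := log_inv_ge a4 a5
      have g1 := hT1 (δ n) a4 a6 (y n) (K n) a1 ((mul_le_mul_of_nonneg_right (le_max_left _ _) (by linarith)).trans a2)
        ((mul_le_mul_of_nonneg_right (le_max_left _ _) (by linarith)).trans a3)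
      rw [Real.rpow_one] at g1
      have p1 : (2 * δ n) ^ (k ^ 2) ≤ 1 := Real.rpow_le_one (by linarith) (by linarith) (by positivity)
      have p2 : 0 ≤ (2 * δ n) ^ (k ^ 2) := Real.rpow_nonneg (by linarith) _
      rw [← mul_sub, Real.norm_eq_abs, abs_mul, abs_of_nonneg p2]
      calc (2 * δ n) ^ (k ^ 2) * |TDt k (δ n) (y n) (K n) 1 1 - TD k (δ n) 1 1| ≤ 1 * δ n :=
            mul_le_mul p1 g1 (abs_nonneg _) zero_le_one
        _ = δ n := one_mul _
    have := h1.add l1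
    simpa using this
  -- the off-diagonal terms
  have hcardn : ∀ n : ℕ, (n:ℝ) - E ≤ ((IX α β x n).card : ℝ) := by
    intro n
    have hsub : IX α β x n ⊆ Finset.range n := fun i hi => Finset.mem_range.2 (mem_IX.1 hi).1
    have h1 := Finset.card_sdiff_add_card_eq_card hsub
    rw [Finset.card_range] at h1
    have h2 := hE n
    have : (n:ℝ) ≤ (IX α β x n).card + E := by exact_mod_cast (by omega : n ≤ (IX α β x n).card + E)
    linarith
  have hzz : Tendsto (fun n : ℕ => 2 * (2 ^ 20 + E) * (n:ℝ) ^ (-(1 / 32) : ℝ)) atTop (𝓝 0) := by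
    have := ((tendsto_rpow_neg_atTop (by norm_num : (0:ℝ) < 1 / 32)).comp hn).const_mul (2 * (2 ^ 20 + (E:ℝ)))
    rw [mul_zero] at this
    exact this
  have l3 : Tendsto (fun n => (2 * δ n) ^ (k ^ 2) * ((1 / (((IX α β x n).image fun i => α * x i + β).card : ℝ)) *
      ∑ s ∈ (IX α β x n).image fun i => α * x i + β, ‖AS (k:ℂ) (y n) (K n) (pw (δ n) s)‖ ^ 2) -
      (2 * δ n) ^ (k ^ 2) * TDt k (δ n) (y n) (K n) 1 1) atTop (𝓝 0) := by
    refine squeeze_zero_norm' ?_ hzz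
    filter_upwards [hyK, hd.pos, hlt, hXn, hG.all, hn.eventually_ge_atTop (2 * E + 1),
      hd.X0.eventually_ge_atTop 1] with n ⟨a1, _, _, a4⟩ a5 a6 a7 a8 a9 a10
    have hE0 : (0:ℝ) ≤ E := Nat.cast_nonneg _
    have hnR : (1:ℝ) ≤ n := by linarith
    have hn0 : (0:ℝ) < n := by linarith
    have hX0 : 0 < X n := by linarith
    have hly : 0 < Real.log (y n) := Real.log_pos (by linarith)
    have hK0 : (0:ℝ) ≤ K n := Nat.cast_nonneg _
    have hL2 : Real.log (X n) ≤ 2 * Real.log n := by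
      have := Real.log_le_log hX0 a7
      rwa [Real.log_pow] at this
    have hKL : 0 ≤ (K n + 1) * Real.log (y n) := by positivity
    have hKC : (64 + 128 * C0) * ((K n + 1) * Real.log (y n)) ≤ 2 * Real.log n :=
      ((mul_le_mul_of_nonneg_right (le_max_right _ _) hKL).trans a4).trans hL2
    have hM : Real.exp (K n * Real.log (y n)) ≤ (n:ℝ) ^ (1 / 32 : ℝ) := by
      rw [Real.rpow_def_of_pos hn0]
      apply Real.exp_le_exp.2
      nlinarith [mul_nonneg hC00.le hKL]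
    have hM2 : Real.exp (C0 * ((K n + 1) * Real.log (y n))) ^ 2 ≤ (n:ℝ) ^ (1 / 32 : ℝ) := by
      rw [Real.rpow_def_of_pos hn0, ← Real.exp_nat_mul]
      apply Real.exp_le_exp.2
      push_cast
      nlinarith
    obtain ⟨S, hS⟩ : ∃ S, S = (IX α β x n).image fun i => α * x i + β := ⟨_, rfl⟩
    have hSc : (S.card : ℝ) = (IX α β x n).card := by rw [hS, Finset.card_image_of_injective _ hinj]
    have hSn : (n:ℝ) / 2 ≤ S.card := by
      rw [hSc]
      have := hcardn n
      linarith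
    have hSpos : (0:ℝ) < S.card := by linarith
    rw [← hS]
    have hF := (hC0 (y n) a1 (K n)).1
    -- splitting the quadratic form
    have e1 := quad k (δ n) (y n) (K n) S
    rw [← Finset.sum_filter_add_sum_filter_not _ (fun q : ℕ × ℕ => q.1 * 1 = q.2 * 1)] at e1
    have e2 : ∑ q ∈ (FS (y n) (K n) ×ˢ FS (y n) (K n)).filter (fun q : ℕ × ℕ => q.1 * 1 = q.2 * 1), cq k (δ n) q *
        Wc S (Real.log q.2 - Real.log q.1) = S.card * TDt k (δ n) (y n) (K n) 1 1 := by
      have : ∀ q ∈ (FS (y n) (K n) ×ˢ FS (y n) (K n)).filter (fun q : ℕ × ℕ => q.1 * 1 = q.2 * 1), cq k (δ n) q *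
        Wc S (Real.log q.2 - Real.log q.1) = S.card * cq k (δ n) q := by
        intro q hq
        have h1 := (Finset.mem_filter.1 hq).2
        rw [mul_one, mul_one] at h1
        rw [h1, sub_self]
        have : Wc S 0 = S.card := by unfold Wc; simp
        rw [this]
        ring
      rw [Finset.sum_congr rfl this, ← Finset.mul_sum]
      rfl
    rw [e2] at e1
    obtain ⟨O, hO⟩ : ∃ O, O = ∑ q ∈ (FS (y n) (K n) ×ˢ FS (y n) (K n)).filter (fun q : ℕ × ℕ => ¬ q.1 * 1 = q.2 * 1),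
      cq k (δ n) q * Wc S (Real.log q.2 - Real.log q.1) := ⟨_, rfl⟩
    rw [← hO] at e1
    have hOb : |O| ≤ (2 ^ 20 * (n:ℝ) ^ (15 / 16 : ℝ) + E) * (n:ℝ) ^ (1 / 32 : ℝ) := by
      rw [hO]
      calc _ ≤ ∑ q ∈ (FS (y n) (K n) ×ˢ FS (y n) (K n)).filter (fun q : ℕ × ℕ => ¬ q.1 * 1 = q.2 * 1),
            |cq k (δ n) q * Wc S (Real.log q.2 - Real.log q.1)| := Finset.abs_sum_le_sum_abs _ _
        _ ≤ ∑ q ∈ (FS (y n) (K n) ×ˢ FS (y n) (K n)).filter (fun q : ℕ × ℕ => ¬ q.1 * 1 = q.2 * 1),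
            cq k (δ n) q * (2 ^ 20 * (n:ℝ) ^ (15 / 16 : ℝ) + E) := by
            refine Finset.sum_le_sum fun q hq => ?_
            rw [abs_mul, abs_of_nonneg (cq_nonneg hk _ q)]
            refine mul_le_mul_of_nonneg_left ?_ (cq_nonneg hk _ q)
            obtain ⟨hq1, hq2⟩ := Finset.mem_filter.1 hq
            rw [Finset.mem_product] at hq1
            rw [mul_one, mul_one] at hq2
            have h1 := Wc_le_We hc hα β hx (hE n) (Real.log q.2 - Real.log q.1)
            rw [← hS] at h1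
            have h2 := a8 q.2 q.1 (hF _ hq1.2).1 (hF _ hq1.1).1 (Ne.symm hq2) ((hF _ hq1.2).2.trans hM)
              ((hF _ hq1.1).2.trans hM)
            linarith
        _ ≤ ∑ q ∈ FS (y n) (K n) ×ˢ FS (y n) (K n), cq k (δ n) q * (2 ^ 20 * (n:ℝ) ^ (15 / 16 : ℝ) + E) :=
            Finset.sum_le_sum_of_subset_of_nonneg (Finset.filter_subset _ _) fun q _ _ =>
              mul_nonneg (cq_nonneg hk _ q) (by positivity)
        _ = (2 ^ 20 * (n:ℝ) ^ (15 / 16 : ℝ) + E) * ∑ q ∈ FS (y n) (K n) ×ˢ FS (y n) (K n), cq k (δ n) q := by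
            rw [← Finset.sum_mul, mul_comm]
        _ ≤ (2 ^ 20 * (n:ℝ) ^ (15 / 16 : ℝ) + E) * (∑ m ∈ FS (y n) (K n), |dR k m|) ^ 2 := by
            refine mul_le_mul_of_nonneg_left ?_ (by positivity)
            rw [sq, Finset.sum_mul_sum, Finset.sum_product]
            refine Finset.sum_le_sum fun m hm => Finset.sum_le_sum fun l hl => ?_
            unfold cq
            simp only
            have w1 : wN (δ n) m ≤ 1 := MVS.cc_le_one a5.le (hF m hm).1
            have w2 : wN (δ n) l ≤ 1 := MVS.cc_le_one a5.le (hF l hl).1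
            have w3 : wN (δ n) m * wN (δ n) l ≤ 1 := mul_le_one₀ w1 (wN_nonneg _ _) w2
            rw [abs_of_pos (dR_pos hk m), abs_of_pos (dR_pos hk l)]
            exact mul_le_of_le_one_right (mul_nonneg (dR_pos hk _).le (dR_pos hk _).le) w3
        _ ≤ (2 ^ 20 * (n:ℝ) ^ (15 / 16 : ℝ) + E) * (n:ℝ) ^ (1 / 32 : ℝ) := by
            refine mul_le_mul_of_nonneg_left ?_ (by positivity)
            rw [sum_abs_dR hk]
            exact (pow_le_pow_left₀ (Finset.sum_nonneg fun _ _ => norm_nonneg _)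
              ((hC0 (y n) a1 (K n)).2 (k:ℂ) (norm_k hk)) 2).trans hM2
    have e3 : (2 * δ n) ^ (k ^ 2) * ((1 / (S.card : ℝ)) * ∑ s ∈ S, ‖AS (k:ℂ) (y n) (K n) (pw (δ n) s)‖ ^ 2) -
      (2 * δ n) ^ (k ^ 2) * TDt k (δ n) (y n) (K n) 1 1 = (2 * δ n) ^ (k ^ 2) * (O / S.card) := by
      rw [e1]
      field_simp
      ring
    rw [e3]
    have p1 : (2 * δ n) ^ (k ^ 2) ≤ 1 := Real.rpow_le_one (by linarith) (by linarith) (by positivity)
    have p2 : 0 ≤ (2 * δ n) ^ (k ^ 2) := Real.rpow_nonneg (by linarith) _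
    rw [Real.norm_eq_abs, abs_mul, abs_of_nonneg p2, abs_div, abs_of_pos hSpos]
    have hE1 : (E:ℝ) ≤ E * (n:ℝ) ^ (15 / 16 : ℝ) :=
      le_mul_of_one_le_right hE0 (Real.one_le_rpow hnR (by norm_num))
    have h15 : (0:ℝ) < (n:ℝ) ^ (15 / 16 : ℝ) := Real.rpow_pos_of_pos hn0 _
    have h32 : (0:ℝ) < (n:ℝ) ^ (1 / 32 : ℝ) := Real.rpow_pos_of_pos hn0 _
    calc (2 * δ n) ^ (k ^ 2) * (|O| / S.card) ≤ 1 * (((2 ^ 20 + E) * (n:ℝ) ^ (15 / 16 : ℝ) * (n:ℝ) ^ (1 / 32 : ℝ)) / (n / 2)) := by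
          refine mul_le_mul p1 ?_ (by positivity) zero_le_one
          refine div_le_div₀ (by positivity) (hOb.trans ?_) (by positivity) hSn
          refine mul_le_mul_of_nonneg_right ?_ h32.le
          linarith
      _ = 2 * (2 ^ 20 + E) * ((n:ℝ) ^ (15 / 16 : ℝ) * (n:ℝ) ^ (1 / 32 : ℝ) / n) := by
          rw [one_mul]; field_simp
      _ = 2 * (2 ^ 20 + E) * (n:ℝ) ^ (-(1 / 32) : ℝ) := by
          congr 1
          rw [← Real.rpow_add hn0]
          conv_lhs => rw [← Real.rpow_one (n:ℝ)]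
          rw [← Real.rpow_mul hn0.le, ← Real.rpow_sub hn0]
          norm_num
  have := l3.add l2
  simpa using this

/-- truncated moments along almost every dilation of a separated sequence -/
theorem ms_fin (hR : S_RED) {c : ℝ} (hc : 0 < c) {x : ℕ → ℝ} (hx0 : ∀ i, 0 ≤ x i)
    (hx : ∀ i j, i ≠ j → c ≤ |x i - x j|) : ∀ᵐ α : ℝ, 0 < α → ∀ (β : ℝ) (d : ℕ → ℝ) (D : ℝ), (∀ᶠ n in atTop, 0 < d n) →
    Tendsto d atTop (𝓝 0) →
    Tendsto (fun n : ℕ => d n * Real.log n / Real.log (1 / d n) ^ 2) atTop atTop →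
    (∀ᶠ n : ℕ in atTop, ∀ i < n, x i ≤ n * d n ^ (-D)) → ∀ k V : ℝ, 0 < k → k < V →
    Tendsto (fun n => (2 * d n) ^ (k ^ 2) * MI k ((2 * d n) ^ (-V)) (d n) (fun i => α * x i + β) n) atTop
      (𝓝 (aC k).re) := by
  classical
  filter_upwards [ae_good hc hx] with α hG hα β d D hd0 hd hdL hgr k V hk hV
  have hn : Tendsto (fun n : ℕ => (n:ℝ)) atTop atTop := tendsto_natCast_atTop_atTop
  obtain ⟨E, hE⟩ := IX_card hc hα β hx0 hx
  obtain ⟨X, hX⟩ : ∃ X : ℕ → ℝ, X = fun n : ℕ => α * (n * d n ^ (-|D|)) + |β| + 1 := ⟨_, rfl⟩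
  have hlt : ∀ᶠ n in atTop, d n ≤ 1 / 16 := hd.eventually_le_const (by norm_num)
  have hAd : AdN X d := by
    refine adN_of hd0 hd hdL hα ?_
    filter_upwards [hd0, hlt] with n a1 a2
    rw [hX]
    simp only
    have h1 := abs_nonneg β
    have h2 : 1 ≤ d n ^ (-|D|) := Real.one_le_rpow_of_pos_of_le_one_of_nonpos a1 (by linarith) (by simp)
    have h3 : (n:ℝ) ≤ n * d n ^ (-|D|) := le_mul_of_one_le_right (Nat.cast_nonneg _) h2
    nlinarith
  have hXb : ∀ᶠ n : ℕ in atTop, X n ≤ n * d n ^ (-(|D| + 1)) := by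
    have h1 : ∀ᶠ n in atTop, d n ≤ 1 / (α + 1) := hd.eventually_le_const (by positivity)
    filter_upwards [hd0, hlt, h1, hn.eventually_ge_atTop (|β| + 1)] with n a1 a2 a3 a4
    rw [hX]
    simp only
    have h2 : 1 ≤ d n ^ (-|D|) := Real.one_le_rpow_of_pos_of_le_one_of_nonpos a1 (by linarith) (by simp)
    have h3 : d n ^ (-(|D| + 1)) = d n ^ (-|D|) * (d n)⁻¹ := by
      rw [neg_add, Real.rpow_add a1, Real.rpow_neg_one]
    have h4 : α + 1 ≤ (d n)⁻¹ := by
      rw [le_div_iff₀ (by positivity)] at a3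
      rw [← one_div, le_div_iff₀ a1]
      linarith
    rw [h3]
    have h5 : (n:ℝ) ≤ n * d n ^ (-|D|) := le_mul_of_one_le_right (Nat.cast_nonneg _) h2
    have h6 : 0 ≤ (n:ℝ) * d n ^ (-|D|) := by positivity
    calc α * (n * d n ^ (-|D|)) + |β| + 1 ≤ (n * d n ^ (-|D|)) * (α + 1) := by linarith
      _ ≤ (n * d n ^ (-|D|)) * (d n)⁻¹ := mul_le_mul_of_nonneg_left h4 h6
      _ = _ := by ring
  have hXn : ∀ᶠ n : ℕ in atTop, X n ≤ (n:ℝ) ^ 2 := by
    have h1 := AdN.app (Ev.win (D := |D| + 1) (c := 1) (e := 1 / 2) one_pos (by norm_num)) hAd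
    filter_upwards [h1, hXb, hAd.X0.eventually_ge_atTop 1] with n a1 a2 a5
    have hX0 : 0 < X n := by linarith
    have h3 : X n ≤ n * X n ^ (1 / 2 : ℝ) := a2.trans (mul_le_mul_of_nonneg_left (a1.trans (le_of_eq (one_mul _))) (Nat.cast_nonneg _))
    have h4 : X n = X n ^ (1 / 2 : ℝ) * X n ^ (1 / 2 : ℝ) := by
      rw [← Real.rpow_add hX0]; norm_num
    have h5 : 0 < X n ^ (1 / 2 : ℝ) := Real.rpow_pos_of_pos hX0 _
    have h6 : X n ^ (1 / 2 : ℝ) ≤ n := by
      by_contra hcon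
      push Not at hcon
      have h6 := mul_lt_mul_of_pos_right hcon h5
      linarith
    rw [h4, sq]
    exact mul_le_mul h6 h6 h5.le (Nat.cast_nonneg _)
  have hinj : Function.Injective fun i => α * x i + β := by
    intro i j h
    by_contra hne
    have h1 := hx i j hne
    simp only at h
    have : x i = x j := mul_left_cancel₀ hα.ne' (by linarith)
    rw [this, sub_self, abs_zero] at h1
    linarith
  have hS : ∀ᶠ n in atTop, Sep (α * c) (X n) ((IX α β x n).image fun i => α * x i + β) := by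
    filter_upwards [hgr, hd0, hlt] with n a1 a2 a3
    refine ⟨?_, ?_, ?_⟩
    · intro s hs
      obtain ⟨i, hi, rfl⟩ := Finset.mem_image.1 hs
      exact (mem_IX.1 hi).2
    · intro s hs
      obtain ⟨i, hi, rfl⟩ := Finset.mem_image.1 hs
      have h1 := a1 i (mem_IX.1 hi).1
      have h2 : d n ^ (-D) ≤ d n ^ (-|D|) :=
        Real.rpow_le_rpow_of_exponent_ge a2 (by linarith) (neg_le_neg (le_abs_self _))
      have h3 : x i ≤ n * d n ^ (-|D|) := h1.trans (mul_le_mul_of_nonneg_left h2 (Nat.cast_nonneg _))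
      have h4 := le_abs_self β
      rw [hX]
      simp only
      nlinarith
    · intro s hs s' hs' hne
      obtain ⟨i, hi, rfl⟩ := Finset.mem_image.1 hs
      obtain ⟨i', hi', rfl⟩ := Finset.mem_image.1 hs'
      have hii : i ≠ i' := by
        rintro rfl
        exact hne rfl
      have e : α * x i + β - (α * x i' + β) = α * (x i - x i') := by ring
      rw [e, abs_mul, abs_of_pos hα]
      exact mul_le_mul_of_nonneg_left (hx i i' hii) hα.le
  have hcard : ∀ᶠ n in atTop, d n ^ (|D| + 2) * X n ≤ (((IX α β x n).image fun i => α * x i + β).card : ℝ) := by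
    filter_upwards [hXb, hd0, hlt, hn.eventually_ge_atTop (2 * E)] with n a1 a2 a3 a4
    rw [Finset.card_image_of_injective _ hinj]
    have hsub : IX α β x n ⊆ Finset.range n := fun i hi => Finset.mem_range.2 (mem_IX.1 hi).1
    have h1 := Finset.card_sdiff_add_card_eq_card hsub
    rw [Finset.card_range] at h1
    have h2 := hE n
    have h3 : (n:ℝ) ≤ (IX α β x n).card + E := by exact_mod_cast (by omega : n ≤ (IX α β x n).card + E)
    have h4 : d n ^ (|D| + 2) * d n ^ (-(|D| + 1)) = d n := by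
      rw [← Real.rpow_add a2]
      have : |D| + 2 + -(|D| + 1) = 1 := by ring
      rw [this, Real.rpow_one]
    have h5 : 0 ≤ d n ^ (|D| + 2) := Real.rpow_nonneg a2.le _
    calc d n ^ (|D| + 2) * X n ≤ d n ^ (|D| + 2) * (n * d n ^ (-(|D| + 1))) := mul_le_mul_of_nonneg_left a1 h5
      _ = n * (d n ^ (|D| + 2) * d n ^ (-(|D| + 1))) := by ring
      _ = n * d n := by rw [h4]
      _ ≤ n * (1 / 16) := mul_le_mul_of_nonneg_left a3 (Nat.cast_nonneg _)
      _ ≤ (IX α β x n).card := by linarith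
  have hq : ∀ κ : ℝ, 0 < κ → QF X d (fun n => (IX α β x n).image fun i => α * x i + β) κ (aC κ).re := fun κ hκ =>
    qf_ms hAd hc hα β hx hG hE hXn hκ
  have key := samp_fin hR hAd (mul_pos hα hc) hS hcard hk hV (hq k hk) fun κ hκ => ⟨_, hq κ hκ⟩
  refine MI_of hinj hAd (E := E) (I := fun n => IX α β x n) (fun n i hi => Finset.mem_range.2 (mem_IX.1 hi).1) hE
    (D' := |D| + 1) hXb hk (hk.trans hV) key

end Run7.h310.SP
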