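import Pool.Agent.N748.MG.Ev
import Pool.Agent.N748.MG.Stm2
import Pool.Agent.N748.MG.CONT

set_option autoImplicit false

/-!
# Sampling and twisting the moments of zeta near the critical line: statements

Project SP of helper310. `w = 1/2 + δ + i t = pw δ t`, `L = log (1/δ)`, `AS k y K` the Dirichlet polynomial which
approximates `ζ^k`, real `k ≥ 0`. Aim: truncated moments of all real orders `k > 0`
(TW) twisted by a rational number, `∫ |ζ|^(2k) (a/b)^(it)`, and the law of the phases `p^(it)` in the moment measures,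
(AP) along every vertical arithmetic progression `α n + β`,
(MS) along `α x_n` for almost all `α`, for every separated sequence `x_n` (for instance the primes).
-/

namespace Run7.h310.SP

open Finset Filter MeasureTheory Topology Complex
open Pool.Agent.N748.MG

/-! ### sampling -/

/-- `c`-separated finite sets of heights in `[1, X - 1]` -/
structure Sep (c X : ℝ) (S : Finset ℝ) : Prop where
  lo : ∀ s ∈ S, 1 ≤ s
  hi : ∀ s ∈ S, s + 1 ≤ X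
  sep : ∀ s ∈ S, ∀ s' ∈ S, s ≠ s' → c ≤ |s - s'|

/-- (SUM) from mean squares over `[X1, X2]` to sums over separated points.

Proof. As `N748/HM/SUP.lean` (which bounds maxima over windows). By the sub-mean-value property
`|Φ(pw δ s)|² ≤ (4 / (π δ²)) ∬_{|w - pw δ s| < δ/2} |Φ(w)|²` (`Pool.Agent.H402R2.SubMean`). The discs with radius `δ/2 ≤ 1/32`
around the points `pw δ s`, `s ∈ S`, lie over the set `{1/2 + δ/2 < Re w < 1/2 + 3δ/2, X1 < Im w < X2}`, and every point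
of it lies in at most `δ/c + 1 ≤ 1/c + 1` discs. So the sum is at most
`(4 / (π δ²)) (1/c + 1) ∫_{δ/2}^{3δ/2} ∫_{X1}^{X2} |Φ(pw δ' t)|² dt dδ' ≤ (4/π) (1/c + 1) B / δ`. -/
def S_SUM : Prop := ∀ c : ℝ, 0 < c → ∃ C : ℝ, 0 < C ∧ ∀ Φ : ℂ → ℂ,
  DifferentiableOn ℂ Φ {s : ℂ | 1 / 2 < s.re ∧ s.re < 1} →
  ∀ δ X1 X2 B : ℝ, 0 < δ → δ ≤ 1 / 16 → X1 ≤ X2 → 0 ≤ B →
  (∀ δ' : ℝ, δ / 2 ≤ δ' → δ' ≤ 3 * δ / 2 → ∫ t in X1..X2, ‖Φ (pw δ' t)‖ ^ 2 ≤ B) →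
  ∀ S : Finset ℝ, (∀ s ∈ S, X1 + 1 ≤ s ∧ s + 1 ≤ X2) → (∀ s ∈ S, ∀ s' ∈ S, s ≠ s' → c ≤ |s - s'|) →
  ∑ s ∈ S, ‖Φ (pw δ s)‖ ^ 2 ≤ C * B / δ

/-- (SNIC) the choice of the parameters, and the sample points at which the approximations hold: the discrete form of
`MG.S_NIC`.

Proof. Same parameters `y`, `K` as in `MG/NIC.lean` (or `Run7/h42/WN_MAXC.lean`), with the inputs `T_SUP`, `T_ZW`, `T_XW`
of `Run7/h42/WN_MAXB.lean` (proved in `Run7/h42/WN_MAXU.lean`) and windows of length `H = 1`: the set `E` of the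
`t ∈ [X^(9/10) + 1, X - 2]` such that `[t, t + 1]` contains a point `u` with `‖∑ p^(-pw δ u)‖ > ca L` or
`‖ζ(pw δ u) AS (-1) y K (pw δ u) - 1‖ > δ^C` has outer measure at most `δ^(D+1) X`. Let `G` be the set of the `s ∈ S` at
which both bounds hold. For `s ∈ S \ G` with `s ≥ X^(9/10) + 3` the interval `[s - 1, s]` (if `s ≤ X - 1`; note
`s + 1 ≤ X`) lies in `E`; the intervals `(s - min(c,1), s]` are disjoint, so that there are at most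
`vol E / min(c,1)` such `s`. The number of the `s ∈ S` with `s < X^(9/10) + 3` is at most `(X^(9/10) + 3) / c + 1`, which is
at most `δ^D X / 2` by `Ev.win`. -/
def S_SNIC : Prop := ∀ c D : ℝ, 0 < c → 0 < D → ∃ ca : ℝ, 0 < ca ∧ ∀ C : ℝ, 0 < C → Ev fun X δ =>
  ∃ (y : ℝ) (K : ℕ), 2 ≤ y ∧ C * Real.log (1 / δ) ≤ δ * Real.log y ∧ C * Real.log (1 / δ) ≤ K ∧
    C * ((K + 1) * Real.log y) ≤ Real.log X ∧ ∑ p ∈ PA y, 1 / (p:ℝ) ≤ 2 * Real.log (1 / δ) ∧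
    ∀ S : Finset ℝ, Sep c X S → ∃ G : Finset ℝ, G ⊆ S ∧ ((S \ G).card : ℝ) ≤ δ ^ D * X ∧
      ∀ s ∈ G, ‖∑ p ∈ PA y, (p:ℂ) ^ (-(pw δ s))‖ ≤ ca * Real.log (1 / δ) ∧
        ‖riemannZeta (pw δ s) * AS (-1) y K (pw δ s) - 1‖ ≤ δ ^ C

/-- (RED) the moments of zeta at sample points in terms of the polynomials, for all real orders `0 ≤ k ≤ R` at once.

Proof. As `MG/CM.lean`: `SNIC` with large constants, `CMP` (`s = k` real, `AS k conj(AS k) = ‖AS k‖²`) at the points of `G`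
gives an error at most `δ^(D+1)` at each point, in total `δ^(D+1) (X/c + 1)`. The sum of `‖AS k‖²` over `S \ G` is at most
`(card (S \ G))^(1/2) (∑_S ‖AS k‖⁴)^(1/2)`, and `∑_{s ∈ S} ‖AS k y K (pw δ s)‖⁴ ≤ C X δ^(-C)` by `SUM` with `Φ = (AS k)²`,
`X1 = 0`, `X2 = X`, and `MG.S_L4` (`δ' ≤ 3δ/2 ≤ 1/16` if `δ ≤ 1/24`). Note `Sep` with the constant `c` bounds `card S` by
`X/c + 1`. -/
def S_RED : Prop := ∀ c R D : ℝ, 0 < c → 0 < R → 0 < D → ∀ C : ℝ, 0 < C → Ev fun X δ =>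
  ∃ (y : ℝ) (K : ℕ), 2 ≤ y ∧ C * Real.log (1 / δ) ≤ δ * Real.log y ∧ C * Real.log (1 / δ) ≤ K ∧
    C * ((K + 1) * Real.log y) ≤ Real.log X ∧
    ∀ S : Finset ℝ, Sep c X S → ∃ G : Finset ℝ, G ⊆ S ∧ ((S \ G).card : ℝ) ≤ δ ^ D * X ∧
      (∀ s ∈ G, riemannZeta (pw δ s) ≠ 0) ∧
      ∀ k : ℝ, 0 ≤ k → k ≤ R →
        |∑ s ∈ G, mz δ s ^ (2 * k) - ∑ s ∈ S, ‖AS (k:ℂ) y K (pw δ s)‖ ^ 2| ≤ δ ^ D * X

/-! ### twisted diagonal sums, real orders -/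

/-- the coefficients of `ζ^k`, real `k` -/
noncomputable def dR (k : ℝ) (n : ℕ) : ℝ := ∏ p ∈ n.primeFactors, CON.lR k (n.factorization p)

/-- the weight `n^(-(1/2+δ))` -/
noncomputable def wN (δ : ℝ) (n : ℕ) : ℝ := (n:ℝ) ^ (-(1 / 2 + δ))

/-- the twisted diagonal series `∑_g d(a g) d(b g) (a g)^(-1/2-δ) (b g)^(-1/2-δ)` (the term `g = 0` vanishes) -/
noncomputable def TD (k δ : ℝ) (a b : ℕ) : ℝ :=
  ∑' g : ℕ, dR k (a * g) * dR k (b * g) * (wN δ (a * g) * wN δ (b * g))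

/-- the truncated twisted diagonal sum -/
noncomputable def TDt (k δ y : ℝ) (K a b : ℕ) : ℝ :=
  ∑ q ∈ (FS y K ×ˢ FS y K).filter (fun q => q.1 * b = q.2 * a), dR k q.1 * dR k q.2 * (wN δ q.1 * wN δ q.2)

/-- the local series `∑_m l(m+u) l(m+v) p^(-m(1+2δ)) p^(-(u+v)(1/2+δ))` -/
noncomputable def LF (k δ : ℝ) (p u v : ℕ) : ℝ :=
  ∑' m : ℕ, CON.lR k (m + u) * CON.lR k (m + v) * (wN δ (p ^ (m + u)) * wN δ (p ^ (m + v)))

/-- the factor of the twist by `a/b` (`a`, `b` coprime) -/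
noncomputable def tw (k : ℝ) (a b : ℕ) : ℝ :=
  ∏ p ∈ (a * b).primeFactors, LF k 0 p (a.factorization p) (b.factorization p) / LF k 0 p 0 0

/-- the majorant `d_(max(k,1))(n) n^(-1/2)` -/
noncomputable def eM (k : ℝ) (n : ℕ) : ℝ := dR (max k 1) n * (n:ℝ) ^ (-(1 / 2 : ℝ))

/-- (TDB) bounds for the twisted sums -/
def S_TDB : Prop := ∀ k δ : ℝ, 0 < k → 0 < δ → ∀ a b : ℕ, 1 ≤ a → 1 ≤ b →
  (Summable fun g : ℕ => dR k (a * g) * dR k (b * g) * (wN δ (a * g) * wN δ (b * g))) ∧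
  0 < TD k δ 1 1 ∧ 0 ≤ TD k δ a b ∧ TD k δ a b ≤ eM k a * eM k b * TD k δ 1 1 ∧
  ∀ (y : ℝ) (K : ℕ), Nat.Coprime a b → 0 ≤ TDt k δ y K a b ∧ TDt k δ y K a b ≤ TD k δ a b

/-- (TDL) the twisted sums relative to the untwisted one: `TD = (∏_{p | ab} LF / LF) TD(1,1)` and `δ → 0` -/
def S_TDL : Prop := ∀ k : ℝ, 0 < k → ∀ a b : ℕ, 1 ≤ a → 1 ≤ b → Nat.Coprime a b →
  Tendsto (fun δ : ℝ => TD k δ a b / TD k δ 1 1) (𝓝[>] 0) (𝓝 (tw k a b))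

/-- (TDT) the truncation of the twisted sums -/
def S_TDT : Prop := ∀ (k D : ℝ), 0 < k → 0 < D → ∀ a b : ℕ, 1 ≤ a → 1 ≤ b → Nat.Coprime a b →
  ∃ C δ0 : ℝ, 0 < C ∧ 0 < δ0 ∧ ∀ δ : ℝ, 0 < δ → δ ≤ δ0 →
  ∀ (y : ℝ) (K : ℕ), 2 ≤ y → C * Real.log (1 / δ) ≤ δ * Real.log y → C * Real.log (1 / δ) ≤ K →
  |TDt k δ y K a b - TD k δ a b| ≤ δ ^ D

/-- (TD1) the untwisted sum (from `MG.S_DIA2`) -/
def S_TD1 : Prop := ∀ k : ℝ, 0 < k → Tendsto (fun δ : ℝ => (2 * δ) ^ (k ^ 2) * TD k δ 1 1) (𝓝[>] 0) (𝓝 (aC k).re)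

/-- (EMB) the majorant is small -/
def S_EMB : Prop := ∀ k : ℝ, 0 < k → ∃ C : ℝ, 0 < C ∧ ∀ n : ℕ, 1 ≤ n → eM k n ≤ C * (n:ℝ) ^ (-(1 / 4 : ℝ))

end Run7.h310.SP
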